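import Pool.Agent.H.MP_ee9c6f_al.Asc.Final
import Pool.Agent.H.MP_ee9c6f_al.E4.Asm
import Pool.Agent.H.MP_ee9c6f_al.E4.Gen

/-!
MP_ee9c6f_al / Asc (helper38). Affine actions with finitely many linear parts: the kernel of a
generic character is finitely generated if for every generic functional the edges have ascending
replacements.
-/

set_option autoImplicit false

namespace Pool.Agent.H.MP_ee9c6f_al.Asc

open Relation

section

variable {G : Type} [Group G] {V : Type} [AddCommGroup V] [Module ℚ V]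

/-- `A` acts by affine maps with the linear parts `lin`. -/
def IsAff (A : G →* Equiv.Perm V) (lin : G → V →ₗ[ℚ] V) : Prop :=
  ∀ g v w, A g (v + w) = lin g v + A g w

variable {A : G →* Equiv.Perm V} {lin : G → V →ₗ[ℚ] V}

theorem IsAff.lin_eq (h : IsAff A lin) (g : G) (v : V) : lin g v = A g v - A g 0 := by
  have := h g v 0
  rw [add_zero] at this
  rw [this, add_sub_cancel_right]

theorem IsAff.sub (h : IsAff A lin) (g : G) (v w : V) : lin g (v - w) = A g v - A g w := by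
  rw [map_sub, h.lin_eq, h.lin_eq]
  abel

theorem IsAff.one (h : IsAff A lin) : lin 1 = 1 := by
  ext v
  rw [h.lin_eq, map_one]
  simp

theorem IsAff.mul (h : IsAff A lin) (g g' : G) : lin (g * g') = lin g * lin g' := by
  ext v
  rw [Module.End.mul_apply, h.lin_eq (g * g') v, map_mul, Equiv.Perm.mul_apply,
    Equiv.Perm.mul_apply, ← h.sub, ← h.lin_eq]

/-- the linear part as a homomorphism -/
noncomputable def IsAff.hom (h : IsAff A lin) : G →* Module.End ℚ V where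
  toFun := lin
  map_one' := h.one
  map_mul' := h.mul

theorem IsAff.inj (h : IsAff A lin) (g : G) {v : V} (hv : v ≠ 0) : lin g v ≠ 0 := by
  intro h0
  apply hv
  have h1 : lin (g⁻¹ * g) v = v := by rw [inv_mul_cancel, h.one]; rfl
  rw [h.mul, Module.End.mul_apply, h0, map_zero] at h1
  exact h1.symm

/-- the subgroup of the translations -/
noncomputable def IsAff.tr (h : IsAff A lin) : Subgroup G := h.hom.toHomUnits.ker

theorem IsAff.mem_tr (h : IsAff A lin) {g : G} : g ∈ h.tr ↔ lin g = 1 := by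
  unfold IsAff.tr
  rw [MonoidHom.mem_ker, Units.ext_iff]
  exact Iff.rfl

instance IsAff.tr_normal (h : IsAff A lin) : h.tr.Normal := MonoidHom.normal_ker _

theorem IsAff.tr_finiteIndex (h : IsAff A lin) (hfin : (Set.range lin).Finite) :
    h.tr.FiniteIndex := by
  have : Finite h.hom.toHomUnits.range := by
    have h1 : Set.Finite (h.hom.toHomUnits.range : Set (Module.End ℚ V)ˣ) := by
      refine Set.Finite.of_finite_image (f := fun u : (Module.End ℚ V)ˣ => (u : Module.End ℚ V))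
        (hfin.subset ?_) (Units.val_injective.injOn)
      rintro _ ⟨_, ⟨g, rfl⟩, rfl⟩
      exact ⟨g, rfl⟩
    exact h1.to_subtype
  exact Subgroup.finiteIndex_ker _

theorem IsAff.tr_apply (h : IsAff A lin) {m : G} (hm : m ∈ h.tr) (v : V) : A m v = v + A m 0 := by
  have h1 := h m v 0
  rw [add_zero, h.mem_tr.1 hm] at h1
  exact h1

theorem IsAff.conj (h : IsAff A lin) {b : G} (hb : b ∈ h.tr) (g : G) :
    A (g * b * g⁻¹) 0 = lin g (A b 0) := by
  rw [map_mul, map_mul, Equiv.Perm.mul_apply, Equiv.Perm.mul_apply, h.tr_apply hb, add_comm, h,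
    ← Equiv.Perm.mul_apply, ← map_mul, mul_inv_cancel, map_one, Equiv.Perm.one_apply, add_zero]

end

section

variable {G : Type} [Group G] {V : Type} [AddCommGroup V] [Module ℚ V]
  {A : G →* Equiv.Perm V} {lin : G → V →ₗ[ℚ] V}

/-- a common denominator of an additive function on a finitely generated group -/
theorem exists_den {M : Type} [Group M] [Group.FG M] (φ : M → ℚ)
    (hφ : ∀ x y, φ (x * y) = φ x + φ y) : ∃ D : ℕ, 0 < D ∧ ∀ x, ∃ k : ℤ, (D : ℚ) * φ x = k := by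
  classical
  obtain ⟨S, hS⟩ := Group.fg_def.1 (inferInstance : Group.FG M)
  let D : ℕ := ∏ s ∈ S, (φ s).den
  have hD : D ≠ 0 := Finset.prod_ne_zero_iff.2 fun s _ => (φ s).den_nz
  have h1 : φ 1 = 0 := by
    have := hφ 1 1
    rw [one_mul] at this
    linarith
  have hinv : ∀ x, φ x⁻¹ = -φ x := by
    intro x
    have := hφ x x⁻¹
    rw [mul_inv_cancel, h1] at this
    linarith
  refine ⟨D, Nat.pos_of_ne_zero hD, fun x => ?_⟩
  have hx : x ∈ Subgroup.closure (S : Set M) := by rw [hS]; trivial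
  induction hx using Subgroup.closure_induction with
  | mem x hx =>
      obtain ⟨e, he⟩ : (φ x).den ∣ D := Finset.dvd_prod_of_mem _ hx
      refine ⟨e * (φ x).num, ?_⟩
      have : φ x * ((φ x).den : ℚ) = (φ x).num := Rat.mul_den_eq_num _
      rw [he]
      push_cast
      linear_combination (e : ℚ) * this
  | one => exact ⟨0, by rw [h1]; simp⟩
  | mul x y _ _ hx hy =>
      obtain ⟨a, ha⟩ := hx
      obtain ⟨b, hb⟩ := hy
      exact ⟨a + b, by rw [hφ, mul_add, ha, hb]; push_cast; ring⟩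
  | inv x _ hx =>
      obtain ⟨a, ha⟩ := hx
      exact ⟨-a, by rw [hinv, mul_neg, ha]; push_cast; ring⟩

/-- the edge chain hypothesis for one functional -/
def HasChain {ι ε : Type} (L : ι → Subgroup G) (src tgt : ε → ι) (u : ε → G)
    (A : G →* Equiv.Perm V) (pt : ε → V) (ν : V →ₗ[ℚ] ℚ) (e : ε) : Prop :=
  ∃ ρ : ℚ, ν (pt e) < ρ ∧
    ReflTransGen (Link L src tgt u (fun e z => ((ν (A z (pt e)) : ℚ) : ℝ)) (ρ : ℝ))
      (src e, 1) (tgt e, u e)

/-- The criterion for affine actions and a given functional. -/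
theorem twoEnds_core [Group.FG G] (h : IsAff A lin) (hfin : (Set.range lin).Finite)
    {ι ε : Type} [Finite ι] [Finite ε] (K₁ K₂ : ι → Subgroup G)
    (hc : ∀ i, ∀ a ∈ K₁ i, ∀ b ∈ K₂ i, Commute a b)
    (b₁ b₂ : ι → G) (hb₁ : ∀ i, b₁ i ∈ K₁ i) (hb₂ : ∀ i, b₂ i ∈ K₂ i)
    (hbM₁ : ∀ i, b₁ i ∈ h.tr) (hbM₂ : ∀ i, b₂ i ∈ h.tr)
    (src tgt : ε → ι) (u : ε → G) (pt : ε → V) (μ : V →ₗ[ℚ] ℚ)
    (hμ₁ : ∀ g i, μ (lin g (A (b₁ i) 0)) ≠ 0) (hμ₂ : ∀ g i, μ (lin g (A (b₂ i) 0)) ≠ 0)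
    (hch : ∀ g e, HasChain (fun i => prodSub (K₁ i) (K₂ i) (hc i)) src tgt u A pt
      (μ ∘ₗ lin g) e)
    (hch' : ∀ g e, HasChain (fun i => prodSub (K₁ i) (K₂ i) (hc i)) src tgt u A pt
      (-(μ ∘ₗ lin g)) e)
    (i₀ : ι) (hcon : reach (fun i => prodSub (K₁ i) (K₂ i) (hc i)) src tgt u i₀ = ⊤) :
    Wajnryb.TwoEnds G := by
  classical
  have hMn := h.tr_normal
  have hMf := h.tr_finiteIndex hfin
  set M := h.tr with hM
  -- the denominator
  have : Group.FG M := inferInstance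
  have hmul : ∀ m ∈ M, ∀ x, A (m * x) 0 = A x 0 + A m 0 := by
    intro m hm x
    rw [map_mul, Equiv.Perm.mul_apply, h.tr_apply hm]
  obtain ⟨D, hD, hDk⟩ := exists_den (M := M) (fun m => μ (A m.1 0)) (fun x y => by
    change μ (A (x.1 * y.1) 0) = _
    rw [hmul _ x.2, map_add, add_comm])
  have hD' : (0 : ℚ) < D := by exact_mod_cast hD
  have hDR : (0 : ℝ) < D := by exact_mod_cast hD
  -- heights
  let ht : G → ℝ := fun g => ((D * μ (A g 0) : ℚ) : ℝ)
  let q : ε → G → ℝ := fun e g => ((D * μ (A g (pt e)) : ℚ) : ℝ)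
  have hht : ∀ m ∈ M, ∀ x, ht (m * x) = ht m + ht x := by
    intro m hm x
    simp only [ht]
    rw [hmul m hm, map_add]
    push_cast
    ring
  have hq : ∀ m ∈ M, ∀ e g, q e (m * g) = ht m + q e g := by
    intro m hm e g
    simp only [ht, q]
    rw [map_mul, Equiv.Perm.mul_apply, h.tr_apply hm, map_add]
    push_cast
    ring
  have hconj : ∀ (g b : G), b ∈ M → μ (lin g (A b 0)) ≠ 0 → ht (g * b * g⁻¹) ≠ 0 := by
    intro g b hb hne
    simp only [ht]
    rw [h.conj hb]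
    exact_mod_cast mul_ne_zero hD'.ne' hne
  have hint : ∀ m ∈ M, ∃ k : ℤ, ht m = k := by
    intro m hm
    obtain ⟨k, hk⟩ := hDk ⟨m, hm⟩
    refine ⟨k, ?_⟩
    simp only [ht]
    rw [hk]
    norm_cast
  have hne : ∃ m ∈ M, ht m ≠ 0 := by
    refine ⟨1 * b₁ i₀ * 1⁻¹, ?_, hconj 1 _ (hbM₁ i₀) (hμ₁ 1 i₀)⟩
    simpa using hbM₁ i₀
  -- chains
  have hgen : ∀ (s : ℚ), 0 < s → ∀ ν₀ : V →ₗ[ℚ] ℚ, (∀ g e, HasChain
      (fun i => prodSub (K₁ i) (K₂ i) (hc i)) src tgt u A pt (ν₀ ∘ₗ lin g) e) → ∀ e g,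
      ∃ ρ : ℝ, ((s * ν₀ (A g (pt e)) : ℚ) : ℝ) < ρ ∧
        ReflTransGen (Link (fun i => prodSub (K₁ i) (K₂ i) (hc i)) src tgt u
          (fun e g => ((s * ν₀ (A g (pt e)) : ℚ) : ℝ)) ρ) (src e, g) (tgt e, g * u e) := by
    intro s hs ν₀ hν₀ e g
    obtain ⟨ρ, hρ, hchain⟩ := hν₀ g e
    have hA : ∀ v : V, A g v = lin g v + A g 0 := fun v => by
      have := h g v 0
      rwa [add_zero] at this
    refine ⟨((s * (ρ + ν₀ (A g 0)) : ℚ) : ℝ), ?_, ?_⟩
    · rw [hA, map_add]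
      have h1 : ν₀ (lin g (pt e)) < ρ := hρ
      have h2 : s * (ν₀ (lin g (pt e)) + ν₀ (A g 0)) < s * (ρ + ν₀ (A g 0)) :=
        mul_lt_mul_of_pos_left (by linarith) hs
      exact_mod_cast h2
    · have hlift : ∀ v w : ι × G, ReflTransGen (Link (fun i => prodSub (K₁ i) (K₂ i) (hc i)) src
          tgt u (fun e z => (((ν₀ ∘ₗ lin g) (A z (pt e)) : ℚ) : ℝ)) (ρ : ℝ)) v w →
          ReflTransGen (Link (fun i => prodSub (K₁ i) (K₂ i) (hc i)) src tgt u
            (fun e g => ((s * ν₀ (A g (pt e)) : ℚ) : ℝ)) ((s * (ρ + ν₀ (A g 0)) : ℚ) : ℝ))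
            (v.1, g * v.2) (w.1, g * w.2) := by
        intro v w hvw
        refine ReflTransGen.lift (fun v : ι × G => (v.1, g * v.2)) ?_ _ _ hvw
        rintro v w (⟨h1, h2⟩ | ⟨e', z, h1, h2⟩)
        · refine Or.inl ⟨h1, ?_⟩
          change (g * v.2)⁻¹ * (g * w.2) ∈ _
          rwa [mul_inv_rev, mul_assoc, inv_mul_cancel_left]
        · refine Or.inr ⟨e', g * z, ?_, ?_⟩
          · have h3 : ρ ≤ ν₀ (lin g (A z (pt e'))) := by
              have h3' : (ρ : ℝ) ≤ ((ν₀ (lin g (A z (pt e'))) : ℚ) : ℝ) := h1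
              exact_mod_cast h3'
            have h4 : A (g * z) (pt e') = lin g (A z (pt e')) + A g 0 := by
              rw [map_mul, Equiv.Perm.mul_apply, hA]
            have h5 : s * (ρ + ν₀ (A g 0)) ≤ s * ν₀ (A (g * z) (pt e')) := by
              rw [h4, map_add]
              exact mul_le_mul_of_nonneg_left (by linarith) hs.le
            change ((s * (ρ + ν₀ (A g 0)) : ℚ) : ℝ) ≤ ((s * ν₀ (A (g * z) (pt e')) : ℚ) : ℝ)
            exact_mod_cast h5
          · have e1 : ∀ a b : G, (g * a)⁻¹ * (g * b) = a⁻¹ * b := by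
              intro a b
              rw [mul_inv_rev, mul_assoc, inv_mul_cancel_left]
            simp only [mul_assoc g, e1]
            exact h2
      have := hlift _ _ hchain
      rwa [mul_one] at this
  have hasc := hgen D hD' μ hch
  have hasc' : ∀ e g, ∃ ρ : ℝ, -q e g < ρ ∧
      ReflTransGen (Link (fun i => prodSub (K₁ i) (K₂ i) (hc i)) src tgt u
        (fun e g => -q e g) ρ) (src e, g) (tgt e, g * u e) := by
    intro e g
    obtain ⟨ρ, h1, h2⟩ := hgen D hD' (-μ) (fun g e => by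
      rw [LinearMap.neg_comp]
      exact hch' g e) e g
    have e1 : ∀ e g, ((D * (-μ) (A g (pt e)) : ℚ) : ℝ) = -q e g := by
      intro e g
      simp only [q, LinearMap.neg_apply, mul_neg]
      push_cast
      ring
    refine ⟨ρ, ?_, ?_⟩
    · rw [← e1]
      exact h1
    · have e2 : (fun e g => ((D * (-μ) (A g (pt e)) : ℚ) : ℝ)) = fun e g => -q e g := by
        funext e g
        exact e1 e g
      rw [e2] at h2
      exact h2
  -- the kernel
  obtain ⟨S, hS, hSf⟩ := (Group.fg_iff (G := G)).1 inferInstance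
  choose kk hkk using hint
  let χ : M →* Multiplicative ℤ :=
    { toFun := fun x => Multiplicative.ofAdd (kk x.1 x.2)
      map_one' := by
        have h0 : ht 1 = 0 := by
          have := hht 1 M.one_mem 1
          rw [one_mul] at this
          linarith
        have h1 : ((kk 1 M.one_mem : ℤ) : ℝ) = 0 := by rw [← hkk, h0]
        have h2 : kk 1 M.one_mem = 0 := by exact_mod_cast h1
        change Multiplicative.ofAdd (kk 1 M.one_mem) = 1
        rw [h2]
        rfl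
      map_mul' := by
        intro x y
        have h1 : ((kk (x.1 * y.1) (M.mul_mem x.2 y.2) : ℤ) : ℝ) = kk x.1 x.2 + kk y.1 y.2 := by
          rw [← hkk, ← hkk, ← hkk, hht x.1 x.2]
        have h2 : kk (x.1 * y.1) (M.mul_mem x.2 y.2) = kk x.1 x.2 + kk y.1 y.2 := by
          exact_mod_cast h1
        change Multiplicative.ofAdd (kk (x.1 * y.1) (M.mul_mem x.2 y.2)) = _
        rw [h2]
        rfl }
  have hχ : ∀ x : M, χ x = 1 ↔ ht x.1 = 0 := by
    intro x
    rw [hkk x.1 x.2]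
    constructor
    · intro h1
      have h2 : kk x.1 x.2 = 0 := h1
      rw [h2]
      simp
    · intro h1
      have h2 : kk x.1 x.2 = 0 := by exact_mod_cast h1
      change Multiplicative.ofAdd (kk x.1 x.2) = 1
      rw [h2]
      rfl
  have hfg : (χ.ker.map M.subtype).FG := by
    refine ker_fg_of_ascending (M := M) hSf hS hht hne (fun m hm => ⟨kk m hm, hkk m hm⟩) K₁ K₂ hc
      (fun i g => ⟨b₁ i, hb₁ i, hbM₁ i, hconj g _ (hbM₁ i) (hμ₁ g i)⟩)
      (fun i g => ⟨b₂ i, hb₂ i, hbM₂ i, hconj g _ (hbM₂ i) (hμ₂ g i)⟩) src tgt u q hq hasc hasc' i₀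
      hcon ?_
    intro x
    constructor
    · rintro ⟨y, hy, rfl⟩
      exact ⟨y.2, (hχ y).1 hy⟩
    · rintro ⟨hx, hx'⟩
      exact ⟨⟨x, hx⟩, (hχ ⟨x, hx⟩).2 hx', rfl⟩
  have hne1 : ∃ m, χ m ≠ 1 := by
    obtain ⟨m, hm, hm'⟩ := hne
    exact ⟨⟨m, hm⟩, fun h0 => hm' ((hχ ⟨m, hm⟩).1 h0)⟩
  obtain ⟨f, hf, hker⟩ := E4.exists_surj χ hne1
  refine ⟨M, hMn, hMf, f, hf, ?_, ?_⟩
  · rw [hker]
    exact hfg
  · intro S hfin hS
    rw [hker]
    exact E4.relEnds_ker M χ hne1 hfin hS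


/-- The criterion for affine actions: if every functional which does not vanish on finitely many given
nonzero vectors has ascending replacements of the edges, then there is a normal subgroup of finite
index with a homomorphism onto `ℤ` whose kernel is finitely generated with two relative ends. -/
theorem twoEnds_of_chains [Group.FG G] (h : IsAff A lin) (hfin : (Set.range lin).Finite)
    {ι ε : Type} [Finite ι] [Finite ε] (K₁ K₂ : ι → Subgroup G)
    (hc : ∀ i, ∀ a ∈ K₁ i, ∀ b ∈ K₂ i, Commute a b)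
    (h₁ : ∀ i, ∃ b ∈ K₁ i, ∃ p : V, ∀ k : ℕ, 0 < k → A (b ^ k) p ≠ p)
    (h₂ : ∀ i, ∃ b ∈ K₂ i, ∃ p : V, ∀ k : ℕ, 0 < k → A (b ^ k) p ≠ p)
    (src tgt : ε → ι) (u : ε → G) (pt : ε → V) {τ : Type} [Finite τ] (n : τ → V)
    (hn : ∀ t, n t ≠ 0)
    (hch : ∀ ν : V →ₗ[ℚ] ℚ, (∀ t, ν (n t) ≠ 0) →
      ∀ e, HasChain (fun i => prodSub (K₁ i) (K₂ i) (hc i)) src tgt u A pt ν e)
    (i₀ : ι) (hcon : reach (fun i => prodSub (K₁ i) (K₂ i) (hc i)) src tgt u i₀ = ⊤) :
    Wajnryb.TwoEnds G := by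
  classical
  have hMn := h.tr_normal
  have hMf := h.tr_finiteIndex hfin
  set M := h.tr with hM
  -- translations in the line groups
  have key : ∀ (b : G) (p : V), (∀ k : ℕ, 0 < k → A (b ^ k) p ≠ p) →
      ∃ k : ℕ, b ^ k ∈ M ∧ A (b ^ k) 0 ≠ 0 := by
    intro b p hp
    obtain ⟨k, hk, -, hkM⟩ := Subgroup.exists_pow_mem_of_index_ne_zero
      (H := M) Subgroup.FiniteIndex.index_ne_zero b
    refine ⟨k, hkM, fun h0 => hp k hk ?_⟩
    rw [h.tr_apply hkM, h0, add_zero]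
  have h₁' : ∀ i, ∃ b ∈ K₁ i, b ∈ M ∧ A b 0 ≠ 0 := by
    intro i
    obtain ⟨b, hb, p, hp⟩ := h₁ i
    obtain ⟨k, hk1, hk2⟩ := key b p hp
    exact ⟨b ^ k, (K₁ i).pow_mem hb k, hk1, hk2⟩
  have h₂' : ∀ i, ∃ b ∈ K₂ i, b ∈ M ∧ A b 0 ≠ 0 := by
    intro i
    obtain ⟨b, hb, p, hp⟩ := h₂ i
    obtain ⟨k, hk1, hk2⟩ := key b p hp
    exact ⟨b ^ k, (K₂ i).pow_mem hb k, hk1, hk2⟩
  choose b₁ hb₁ hbM₁ hbt₁ using h₁'
  choose b₂ hb₂ hbM₂ hbt₂ using h₂'
  -- a generic functional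
  have : Finite (Set.range lin) := hfin.to_subtype
  obtain ⟨μ, hμ⟩ := Module.exists_dual_forall_apply_ne_zero (K := ℚ)
    (v := fun x : Set.range lin × (τ ⊕ ι ⊕ ι) =>
      x.1.1 (Sum.elim n (Sum.elim (fun i => A (b₁ i) 0) (fun i => A (b₂ i) 0)) x.2)) (by
    rintro ⟨⟨_, ⟨g, rfl⟩⟩, t | i | i⟩
    · exact h.inj g (hn t)
    · exact h.inj g (hbt₁ i)
    · exact h.inj g (hbt₂ i))
  have hμn : ∀ g t, μ (lin g (n t)) ≠ 0 := fun g t => hμ (⟨lin g, g, rfl⟩, Sum.inl t)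
  have hμ₁ : ∀ g i, μ (lin g (A (b₁ i) 0)) ≠ 0 :=
    fun g i => hμ (⟨lin g, g, rfl⟩, Sum.inr (Sum.inl i))
  have hμ₂ : ∀ g i, μ (lin g (A (b₂ i) 0)) ≠ 0 :=
    fun g i => hμ (⟨lin g, g, rfl⟩, Sum.inr (Sum.inr i))
  have hne' : ∀ g, ∀ t, (μ ∘ₗ lin g) (n t) ≠ 0 := hμn
  exact twoEnds_core h hfin K₁ K₂ hc b₁ b₂ hb₁ hb₂ hbM₁ hbM₂ src tgt u pt μ hμ₁ hμ₂
    (fun g e => hch _ (hne' g) e)
    (fun g e => hch _ (fun t => by
      rw [LinearMap.neg_apply]
      exact neg_ne_zero.2 (hne' g t)) e) i₀ hcon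

end

end Pool.Agent.H.MP_ee9c6f_al.Asc
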