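import Pool.Agent.H.MP_ee9c6f_al.Asc.Kernel

/-!
MP_ee9c6f_al / Asc (helper38, after an idea of helper95). The ascending lemma: a graph of cosets of
line groups in which every edge can be replaced by a path of higher edges.
-/

set_option autoImplicit false

namespace Pool.Agent.H.MP_ee9c6f_al.Asc

open Relation

variable {G : Type*} [Group G] {M : Subgroup G} {S : Set G} {ht chi : G → ℝ}

/-- the product of two commuting subgroups -/
def prodSub (K₁ K₂ : Subgroup G) (hc : ∀ a ∈ K₁, ∀ b ∈ K₂, Commute a b) : Subgroup G where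
  carrier := {x | ∃ a ∈ K₁, ∃ b ∈ K₂, x = a * b}
  one_mem' := ⟨1, K₁.one_mem, 1, K₂.one_mem, (mul_one 1).symm⟩
  mul_mem' := by
    rintro _ _ ⟨a, ha, b, hb, rfl⟩ ⟨a', ha', b', hb', rfl⟩
    refine ⟨a * a', K₁.mul_mem ha ha', b * b', K₂.mul_mem hb hb', ?_⟩
    have := (hc a' ha' b hb).eq
    rw [mul_assoc, ← mul_assoc b, ← this]
    group
  inv_mem' := by
    rintro _ ⟨a, ha, b, hb, rfl⟩
    refine ⟨a⁻¹, K₁.inv_mem ha, b⁻¹, K₂.inv_mem hb, ?_⟩
    rw [mul_inv_rev, (hc a⁻¹ (K₁.inv_mem ha) b⁻¹ (K₂.inv_mem hb)).eq]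

theorem mem_prodSub {K₁ K₂ : Subgroup G} {hc : ∀ a ∈ K₁, ∀ b ∈ K₂, Commute a b} {x : G} :
    x ∈ prodSub K₁ K₂ hc ↔ ∃ a ∈ K₁, ∃ b ∈ K₂, x = a * b := Iff.rfl

/-- A line group: points of high height in a coset are joined at high height. -/
def IsLine (S : Set G) (ht : G → ℝ) (L : Subgroup G) : Prop :=
  ∃ D : ℝ, 0 ≤ D ∧ ∀ (r : ℝ) (x y : G), x⁻¹ * y ∈ L → r ≤ ht x → r ≤ ht y →
    Chn S (up ht (r - D)) x y

theorem isLine_prodSub [hM : M.Normal] [M.FiniteIndex] (hS : Subgroup.closure S = ⊤)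
    (hht : ∀ m ∈ M, ∀ x, ht (m * x) = chi m + ht x) {K₁ K₂ : Subgroup G}
    (hc : ∀ a ∈ K₁, ∀ b ∈ K₂, Commute a b)
    (h₁ : ∀ g : G, ∃ b ∈ K₁, b ∈ M ∧ chi (g * b * g⁻¹) ≠ 0)
    (h₂ : ∀ g : G, ∃ b ∈ K₂, b ∈ M ∧ chi (g * b * g⁻¹) ≠ 0) :
    IsLine S ht (prodSub K₁ K₂ hc) := by
  obtain ⟨D, hD0, hD⟩ := line hS hht hc h₁ h₂
  refine ⟨D, hD0, fun r x y hxy hx hy => ?_⟩
  obtain ⟨a, ha, b, hb, h⟩ := hxy
  have hy' : y = x * a * b := by
    rw [mul_assoc, ← h, mul_inv_cancel_left]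
  rw [hy'] at hy ⊢
  exact hD r x a b ha hb hx hy

section Graph

variable {ι ε : Type*} (L : ι → Subgroup G) (src tgt : ε → ι) (u : ε → G) (q : ε → G → ℝ)

/-- Two cosets `(i, g L_i)` and `(j, h L_j)` are the same, or the ends of an edge of height at
least `ρ`: the edge `(e, z)` joins `z L_(src e)` and `z u_e L_(tgt e)`. -/
def Link (ρ : ℝ) (v w : ι × G) : Prop :=
  (v.1 = w.1 ∧ v.2⁻¹ * w.2 ∈ L v.1) ∨
    ∃ (e : ε) (z : G), ρ ≤ q e z ∧
      ((src e = v.1 ∧ tgt e = w.1 ∧ v.2⁻¹ * z ∈ L v.1 ∧ w.2⁻¹ * (z * u e) ∈ L w.1) ∨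
       (src e = w.1 ∧ tgt e = v.1 ∧ w.2⁻¹ * z ∈ L w.1 ∧ v.2⁻¹ * (z * u e) ∈ L v.1))

/-- the graph without heights -/
def LinkAny (v w : ι × G) : Prop :=
  (v.1 = w.1 ∧ v.2⁻¹ * w.2 ∈ L v.1) ∨
    ∃ (e : ε) (z : G),
      ((src e = v.1 ∧ tgt e = w.1 ∧ v.2⁻¹ * z ∈ L v.1 ∧ w.2⁻¹ * (z * u e) ∈ L w.1) ∨
       (src e = w.1 ∧ tgt e = v.1 ∧ w.2⁻¹ * z ∈ L w.1 ∧ v.2⁻¹ * (z * u e) ∈ L v.1))

variable {L src tgt u q}

theorem same_symm {v w : ι × G} (h : v.1 = w.1 ∧ v.2⁻¹ * w.2 ∈ L v.1) :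
    w.1 = v.1 ∧ w.2⁻¹ * v.2 ∈ L w.1 := by
  refine ⟨h.1.symm, ?_⟩
  have h3 := (L v.1).inv_mem h.2
  rw [mul_inv_rev, inv_inv] at h3
  rwa [← h.1]

theorem Link.mono {ρ ρ' : ℝ} (h : ρ' ≤ ρ) {v w : ι × G} (hl : Link L src tgt u q ρ v w) :
    Link L src tgt u q ρ' v w := by
  rcases hl with h1 | ⟨e, z, h1, h2⟩
  · exact Or.inl h1
  · exact Or.inr ⟨e, z, h.trans h1, h2⟩

theorem Link.symm {ρ : ℝ} {v w : ι × G} (hl : Link L src tgt u q ρ v w) :
    Link L src tgt u q ρ w v := by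
  rcases hl with h1 | ⟨e, z, h1, h2⟩
  · exact Or.inl (same_symm h1)
  · exact Or.inr ⟨e, z, h1, h2.symm⟩

theorem LinkAny.symm {v w : ι × G} (hl : LinkAny L src tgt u v w) : LinkAny L src tgt u w v := by
  rcases hl with h1 | ⟨e, z, h2⟩
  · exact Or.inl (same_symm h1)
  · exact Or.inr ⟨e, z, h2.symm⟩

theorem chain_mono {ρ ρ' : ℝ} (h : ρ' ≤ ρ) {v w : ι × G}
    (hl : ReflTransGen (Link L src tgt u q ρ) v w) :
    ReflTransGen (Link L src tgt u q ρ') v w := by
  induction hl with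
  | refl => exact ReflTransGen.refl
  | tail _ h2 ih => exact ih.tail (h2.mono h)

theorem chain_symm {ρ : ℝ} {v w : ι × G} (hl : ReflTransGen (Link L src tgt u q ρ) v w) :
    ReflTransGen (Link L src tgt u q ρ) w v := by
  induction hl with
  | refl => exact ReflTransGen.refl
  | tail _ h2 ih => exact (ReflTransGen.single h2.symm).trans ih

theorem chainAny_symm {v w : ι × G} (hl : ReflTransGen (LinkAny L src tgt u) v w) :
    ReflTransGen (LinkAny L src tgt u) w v := by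
  induction hl with
  | refl => exact ReflTransGen.refl
  | tail _ h2 ih => exact (ReflTransGen.single h2.symm).trans ih

theorem cancel_left (g a b : G) : (g * a)⁻¹ * (g * b) = a⁻¹ * b := by group

theorem cancel_left' (g a b c : G) : (g * a)⁻¹ * (g * b * c) = a⁻¹ * (b * c) := by group

theorem LinkAny.smul (g : G) {v w : ι × G} (h : LinkAny L src tgt u v w) :
    LinkAny L src tgt u (v.1, g * v.2) (w.1, g * w.2) := by
  rcases h with ⟨h2, h3⟩ | ⟨e, z, h2⟩
  · refine Or.inl ⟨h2, ?_⟩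
    show (g * v.2)⁻¹ * (g * w.2) ∈ L v.1
    rwa [cancel_left]
  · refine Or.inr ⟨e, g * z, ?_⟩
    rcases h2 with ⟨a1, a2, a3, a4⟩ | ⟨a1, a2, a3, a4⟩
    · refine Or.inl ⟨a1, a2, ?_, ?_⟩
      · show (g * v.2)⁻¹ * (g * z) ∈ L v.1
        rwa [cancel_left]
      · show (g * w.2)⁻¹ * (g * z * u e) ∈ L w.1
        rwa [cancel_left']
    · refine Or.inr ⟨a1, a2, ?_, ?_⟩
      · show (g * w.2)⁻¹ * (g * z) ∈ L w.1
        rwa [cancel_left]
      · show (g * v.2)⁻¹ * (g * z * u e) ∈ L v.1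
        rwa [cancel_left']

theorem Link.smul {chi : G → ℝ} (hq : ∀ m ∈ M, ∀ e g, q e (m * g) = chi m + q e g) {m : G}
    (hm : m ∈ M) {ρ : ℝ} {v w : ι × G} (h : Link L src tgt u q ρ v w) :
    Link L src tgt u q (chi m + ρ) (v.1, m * v.2) (w.1, m * w.2) := by
  rcases h with ⟨h2, h3⟩ | ⟨e, z, h1, h2⟩
  · refine Or.inl ⟨h2, ?_⟩
    show (m * v.2)⁻¹ * (m * w.2) ∈ L v.1
    rwa [cancel_left]
  · refine Or.inr ⟨e, m * z, by rw [hq m hm]; linarith, ?_⟩
    rcases h2 with ⟨a1, a2, a3, a4⟩ | ⟨a1, a2, a3, a4⟩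
    · refine Or.inl ⟨a1, a2, ?_, ?_⟩
      · show (m * v.2)⁻¹ * (m * z) ∈ L v.1
        rwa [cancel_left]
      · show (m * w.2)⁻¹ * (m * z * u e) ∈ L w.1
        rwa [cancel_left']
    · refine Or.inr ⟨a1, a2, ?_, ?_⟩
      · show (m * w.2)⁻¹ * (m * z) ∈ L w.1
        rwa [cancel_left]
      · show (m * v.2)⁻¹ * (m * z * u e) ∈ L v.1
        rwa [cancel_left']

theorem chain_smul {chi : G → ℝ} (hq : ∀ m ∈ M, ∀ e g, q e (m * g) = chi m + q e g) {m : G}
    (hm : m ∈ M) {ρ : ℝ} {v w : ι × G} (h : ReflTransGen (Link L src tgt u q ρ) v w) :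
    ReflTransGen (Link L src tgt u q (chi m + ρ)) (v.1, m * v.2) (w.1, m * w.2) := by
  induction h with
  | refl => exact ReflTransGen.refl
  | tail _ h2 ih => exact ih.tail (h2.smul hq hm)

theorem chainAny_smul (g : G) {v w : ι × G} (h : ReflTransGen (LinkAny L src tgt u) v w) :
    ReflTransGen (LinkAny L src tgt u) (v.1, g * v.2) (w.1, g * w.2) := by
  induction h with
  | refl => exact ReflTransGen.refl
  | tail _ h2 ih => exact ih.tail (h2.smul g)

/-- an edge is a chain -/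
theorem edge_link {ρ : ℝ} (e : ε) (g : G) (h : ρ ≤ q e g) :
    Link L src tgt u q ρ (src e, g) (tgt e, g * u e) := by
  refine Or.inr ⟨e, g, h, Or.inl ⟨rfl, rfl, ?_, ?_⟩⟩
  · show g⁻¹ * g ∈ L (src e)
    rw [inv_mul_cancel]
    exact (L _).one_mem
  · show (g * u e)⁻¹ * (g * u e) ∈ L (tgt e)
    rw [inv_mul_cancel]
    exact (L _).one_mem

theorem edge_linkAny (e : ε) (g : G) :
    LinkAny L src tgt u (src e, g) (tgt e, g * u e) := by
  refine Or.inr ⟨e, g, Or.inl ⟨rfl, rfl, ?_, ?_⟩⟩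
  · show g⁻¹ * g ∈ L (src e)
    rw [inv_mul_cancel]
    exact (L _).one_mem
  · show (g * u e)⁻¹ * (g * u e) ∈ L (tgt e)
    rw [inv_mul_cancel]
    exact (L _).one_mem

/-- the elements which can be reached from `1` inside the graph -/
def reach (L : ι → Subgroup G) (src tgt : ε → ι) (u : ε → G) (i₀ : ι) : Subgroup G where
  carrier := {g | ReflTransGen (LinkAny L src tgt u) (i₀, 1) (i₀, g)}
  one_mem' := ReflTransGen.refl
  mul_mem' := fun {a b} ha hb => by
    have h := chainAny_smul a hb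
    simp only [mul_one] at h
    exact ReflTransGen.trans ha h
  inv_mem' := fun {a} ha => by
    have h := chainAny_smul a⁻¹ ha
    simp only [mul_one, inv_mul_cancel] at h
    exact chainAny_symm h

theorem mem_reach {i₀ : ι} {g : G} :
    g ∈ reach L src tgt u i₀ ↔ ReflTransGen (LinkAny L src tgt u) (i₀, 1) (i₀, g) := Iff.rfl

/-- conjugates of the groups `L i` lie in `reach` -/
theorem conj_mem_reach {i₀ i : ι} {a l : G}
    (ha : ReflTransGen (LinkAny L src tgt u) (i₀, 1) (i, a)) (hl : l ∈ L i) :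
    a * l * a⁻¹ ∈ reach L src tgt u i₀ := by
  have h1 : ReflTransGen (LinkAny L src tgt u) (i, a) (i, a * l) := by
    refine ReflTransGen.single (Or.inl ⟨rfl, ?_⟩)
    show a⁻¹ * (a * l) ∈ L i
    rwa [inv_mul_cancel_left]
  have h2 := chainAny_smul (a * l * a⁻¹) ha
  have e1 : a * l * a⁻¹ * a = a * l := by group
  simp only [mul_one, e1] at h2
  exact (ha.trans h1).trans (chainAny_symm h2)

/-- two ways to reach the same vertex type -/
theorem mul_inv_mem_reach {i₀ i : ι} {a b : G}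
    (ha : ReflTransGen (LinkAny L src tgt u) (i₀, 1) (i, a))
    (hb : ReflTransGen (LinkAny L src tgt u) (i₀, 1) (i, b)) :
    a * b⁻¹ ∈ reach L src tgt u i₀ := by
  have h2 := chainAny_smul (a * b⁻¹) hb
  have e1 : a * b⁻¹ * b = a := by group
  simp only [mul_one, e1] at h2
  exact ha.trans (chainAny_symm h2)

/-- every edge can be replaced by a chain of arbitrarily high edges -/
theorem edge_high {δ : ℝ} (hδ : 0 < δ)
    (hasc : ∀ e g, ReflTransGen (Link L src tgt u q (q e g + δ)) (src e, g) (tgt e, g * u e))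
    (ρ : ℝ) : ∀ e g, ReflTransGen (Link L src tgt u q ρ) (src e, g) (tgt e, g * u e) := by
  have key : ∀ (n : ℕ) e g, ρ ≤ q e g + n * δ →
      ReflTransGen (Link L src tgt u q ρ) (src e, g) (tgt e, g * u e) := by
    intro n
    induction n with
    | zero =>
      intro e g h
      exact ReflTransGen.single (edge_link e g (by simpa using h))
    | succ n ih =>
      intro e g h
      push_cast at h
      have conv : ∀ v w : ι × G, Link L src tgt u q (q e g + δ) v w →
          ReflTransGen (Link L src tgt u q ρ) v w := by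
        intro v w hvw
        rcases hvw with h1 | ⟨e', z, h1, h4⟩
        · exact ReflTransGen.single (Or.inl h1)
        · have h5 := ih e' z (by linarith)
          rcases h4 with ⟨h6, h7, h2, h3⟩ | ⟨h6, h7, h2, h3⟩
          · rw [h6, h7] at h5
            have a1 : ReflTransGen (Link L src tgt u q ρ) v (v.1, z) :=
              ReflTransGen.single (Or.inl ⟨rfl, h2⟩)
            have a2 : ReflTransGen (Link L src tgt u q ρ) w (w.1, z * u e') :=
              ReflTransGen.single (Or.inl ⟨rfl, h3⟩)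
            exact (a1.trans h5).trans (chain_symm a2)
          · rw [h6, h7] at h5
            have a1 : ReflTransGen (Link L src tgt u q ρ) v (v.1, z * u e') :=
              ReflTransGen.single (Or.inl ⟨rfl, h3⟩)
            have a2 : ReflTransGen (Link L src tgt u q ρ) w (w.1, z) :=
              ReflTransGen.single (Or.inl ⟨rfl, h2⟩)
            exact (a1.trans (chain_symm h5)).trans (chain_symm a2)
      have h1 := hasc e g
      have : ∀ v w : ι × G, ReflTransGen (Link L src tgt u q (q e g + δ)) v w →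
          ReflTransGen (Link L src tgt u q ρ) v w := by
        intro v w hvw
        induction hvw with
        | refl => exact ReflTransGen.refl
        | tail _ h3 ih2 => exact ih2.trans (conv _ _ h3)
      exact this _ _ h1
  intro e g
  obtain ⟨n, hn⟩ := exists_nat_gt ((ρ - q e g) / δ)
  refine key n e g ?_
  have := (div_lt_iff₀ hδ).1 hn
  linarith

/-- a uniform `δ` -/
theorem exists_delta [hM : M.Normal] [M.FiniteIndex] [Finite ε]
    (hq : ∀ m ∈ M, ∀ e g, q e (m * g) = chi m + q e g)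
    (hasc : ∀ e g, ∃ ρ, q e g < ρ ∧
      ReflTransGen (Link L src tgt u q ρ) (src e, g) (tgt e, g * u e)) :
    ∃ δ : ℝ, 0 < δ ∧
      ∀ e g, ReflTransGen (Link L src tgt u q (q e g + δ)) (src e, g) (tgt e, g * u e) := by
  classical
  obtain ⟨t, htf, htM, -⟩ := exists_rep M
  choose ρ hρ hch using hasc
  have hfin : ((fun p : ε × G => -(ρ p.1 p.2 - q p.1 p.2)) '' (Set.univ ×ˢ Set.range t)).Finite :=
    (Set.finite_univ.prod htf).image _
  -- minimum over a finite set
  by_cases hne : Nonempty ε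
  · obtain ⟨p, hp, hmax⟩ := Set.exists_max_image (Set.univ ×ˢ Set.range t)
      (fun p : ε × G => -(ρ p.1 p.2 - q p.1 p.2)) (Set.finite_univ.prod htf)
      ⟨(hne.some, t 1), trivial, ⟨1, rfl⟩⟩
    refine ⟨ρ p.1 p.2 - q p.1 p.2, by linarith [hρ p.1 p.2], fun e g => ?_⟩
    have h1 := hmax (e, t g) ⟨trivial, ⟨g, rfl⟩⟩
    simp only at h1
    have h2 := chain_smul hq (htM g) (hch e (t g))
    have h3 : g * (t g)⁻¹ * t g = g := inv_mul_cancel_right _ _
    have h4 : g * (t g)⁻¹ * (t g * u e) = g * u e := by group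
    simp only [h3, h4] at h2
    refine chain_mono ?_ h2
    have h5 := hq _ (htM g) e (t g)
    rw [h3] at h5
    linarith
  · exact ⟨1, one_pos, fun e => (hne ⟨e⟩).elim⟩

/-- **The ascending lemma.** -/
theorem conn_of_ascending [hM : M.Normal] [M.FiniteIndex] [Finite ι] [Finite ε]
    (hS : Subgroup.closure S = ⊤) (hht : ∀ m ∈ M, ∀ x, ht (m * x) = chi m + ht x)
    (hline : ∀ i, IsLine S ht (L i)) (hq : ∀ m ∈ M, ∀ e g, q e (m * g) = chi m + q e g)
    (hasc : ∀ e g, ∃ ρ, q e g < ρ ∧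
      ReflTransGen (Link L src tgt u q ρ) (src e, g) (tgt e, g * u e)) (i₀ : ι)
    (hcon : reach L src tgt u i₀ = ⊤) : Conn S ht := by
  classical
  obtain ⟨δ, hδ, hasc'⟩ := exists_delta hq hasc
  choose D hD0 hD using hline
  obtain ⟨E, hE⟩ := (Set.finite_range D).bddAbove
  have hE' : ∀ i, D i ≤ E := fun i => hE ⟨i, rfl⟩
  have hE0 : 0 ≤ E := (hD0 i₀).trans (hE' i₀)
  -- the heights of the edges are close to the heights in the group
  obtain ⟨D₁, hD₁⟩ : ∃ D₁ : ℝ, ∀ e g, q e g ≤ ht g + D₁ := by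
    have h1 : ∀ e, ∃ C, ∀ g, q e g - ht g ≤ C := fun e =>
      types (M := M) (fun g => q e g - ht g) fun m hm x => by
        rw [hq m hm, hht m hm]
        ring
    choose C hC using h1
    obtain ⟨B, hB⟩ := (Set.finite_range C).bddAbove
    exact ⟨B, fun e g => by linarith [hC e g, hB ⟨e, rfl⟩]⟩
  obtain ⟨C, hC0, hC⟩ := dips hS hht (Set.finite_range u)
  -- all points are joined in the graph at every height
  have h1 : ∀ (ρ : ℝ) v w, ReflTransGen (LinkAny L src tgt u) v w →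
      ReflTransGen (Link L src tgt u q ρ) v w := by
    intro ρ v w h
    induction h with
    | refl => exact ReflTransGen.refl
    | @tail w w' _ h2 ih =>
      refine ih.trans ?_
      rcases h2 with h2 | ⟨e, z, h4⟩
      · exact ReflTransGen.single (Or.inl h2)
      · have h5 := edge_high hδ hasc' ρ e z
        rcases h4 with ⟨h6, h7, h2, h3⟩ | ⟨h6, h7, h2, h3⟩
        · rw [h6, h7] at h5
          have a1 : ReflTransGen (Link L src tgt u q ρ) w (w.1, z) :=
            ReflTransGen.single (Or.inl ⟨rfl, h2⟩)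
          have a2 : ReflTransGen (Link L src tgt u q ρ) w' (w'.1, z * u e) :=
            ReflTransGen.single (Or.inl ⟨rfl, h3⟩)
          exact (a1.trans h5).trans (chain_symm a2)
        · rw [h6, h7] at h5
          have a1 : ReflTransGen (Link L src tgt u q ρ) w (w.1, z * u e) :=
            ReflTransGen.single (Or.inl ⟨rfl, h3⟩)
          have a2 : ReflTransGen (Link L src tgt u q ρ) w' (w'.1, z) :=
            ReflTransGen.single (Or.inl ⟨rfl, h2⟩)
          exact (a1.trans (chain_symm h5)).trans (chain_symm a2)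
  have h2 : ∀ x y, ReflTransGen (LinkAny L src tgt u) (i₀, x) (i₀, y) := by
    intro x y
    have h3 : x⁻¹ * y ∈ reach L src tgt u i₀ := by rw [hcon]; trivial
    have h4 := chainAny_smul x (mem_reach.1 h3)
    simp only [mul_one, mul_inv_cancel_left] at h4
    exact h4
  -- from the graph to the group
  have h3 : ∀ (r : ℝ) (v w : ι × G), ReflTransGen (Link L src tgt u q (r + D₁ + C)) v w →
      ∀ x y, v.2⁻¹ * x ∈ L v.1 → w.2⁻¹ * y ∈ L w.1 → r ≤ ht x → r ≤ ht y →
      Chn S (up ht (r - E)) x y := by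
    intro r v w h
    have lineE : ∀ (i : ι) (g x y : G), g⁻¹ * x ∈ L i → g⁻¹ * y ∈ L i → r ≤ ht x → r ≤ ht y →
        Chn S (up ht (r - E)) x y := by
      intro i g x y hx hy hxr hyr
      have h4 : x⁻¹ * y ∈ L i := by
        have h5 := (L i).mul_mem ((L i).inv_mem hx) hy
        have h6 : (g⁻¹ * x)⁻¹ * (g⁻¹ * y) = x⁻¹ * y := by group
        rwa [h6] at h5
      refine (hD i r x y h4 hxr hyr).mono ?_
      intro z hz
      have hz' : r - D i ≤ ht z := hz
      show r - E ≤ ht z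
      linarith [hE' i]
    induction h with
    | refl =>
      intro x y hx hy hxr hyr
      exact lineE v.1 v.2 x y hx hy hxr hyr
    | @tail w w' _ h5 ih =>
      intro x y hx hy hxr hyr
      rcases h5 with ⟨h6, h7⟩ | ⟨e, z, h6, h7⟩
      · refine ih x y hx ?_ hxr hyr
        rw [← h6] at hy
        have h9 := (L w.1).mul_mem h7 hy
        have h10 : w.2⁻¹ * w'.2 * (w'.2⁻¹ * y) = w.2⁻¹ * y := by group
        rwa [h10] at h9
      · have hz : r + C ≤ ht z := by linarith [hD₁ e z]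
        have hzu := hC z (u e) ⟨e, rfl⟩
        have hzu' : r ≤ ht (z * u e) := by
          have h8 : z ∈ {y | ht z - C ≤ ht y ∧ ht y ≤ ht z + C} := ⟨by linarith, by linarith⟩
          have := (hzu.mem_right h8).1
          linarith
        have hzr : r ≤ ht z := by linarith
        have hcross : Chn S (up ht (r - E)) z (z * u e) := by
          refine hzu.mono ?_
          rintro y ⟨hy1, -⟩
          show r - E ≤ ht y
          linarith
        rcases h7 with ⟨-, -, a3, a4⟩ | ⟨-, -, a3, a4⟩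
        · exact ((ih x z hx a3 hxr hzr).trans hcross).trans
            (lineE w'.1 w'.2 (z * u e) y a4 hy hzu' hyr)
        · exact ((ih x (z * u e) hx a4 hxr hzu').trans hcross.symm).trans
            (lineE w'.1 w'.2 z y a3 hy hzr hyr)
  refine ⟨E, fun r x y hx hy => ?_⟩
  refine h3 r (i₀, x) (i₀, y) (h1 _ _ _ (h2 x y)) x y ?_ ?_ hx hy
  · show x⁻¹ * x ∈ L i₀
    rw [inv_mul_cancel]
    exact (L _).one_mem
  · show y⁻¹ * y ∈ L i₀
    rw [inv_mul_cancel]
    exact (L _).one_mem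

end Graph

end Pool.Agent.H.MP_ee9c6f_al.Asc
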