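import Mathlib

/-!
MP_ee9c6f_al / Asc (helper38). Chains in Cayley graphs inside superlevel sets of a height.
-/

set_option autoImplicit false

namespace Pool.Agent.H.MP_ee9c6f_al.Asc

open Relation

variable {G : Type*} [Group G]

/-- one step `a - b` of the Cayley graph (right multiplication by `S`) inside `A` -/
def Step (S A : Set G) (a b : G) : Prop := a ∈ A ∧ b ∈ A ∧ (a⁻¹ * b ∈ S ∨ b⁻¹ * a ∈ S)

/-- joined by a path inside `A` -/
def Chn (S A : Set G) : G → G → Prop := ReflTransGen (Step S A)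

theorem Step.symm {S A : Set G} {a b : G} (h : Step S A a b) : Step S A b a :=
  ⟨h.2.1, h.1, h.2.2.symm⟩

theorem Chn.refl {S A : Set G} (a : G) : Chn S A a a := ReflTransGen.refl

theorem Chn.trans {S A : Set G} {a b c : G} (h : Chn S A a b) (h' : Chn S A b c) : Chn S A a c :=
  ReflTransGen.trans h h'

theorem Chn.symm {S A : Set G} {a b : G} (h : Chn S A a b) : Chn S A b a := by
  induction h with
  | refl => exact Chn.refl _
  | tail _ h2 ih => exact (ReflTransGen.single h2.symm).trans ih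

theorem Chn.mono {S A B : Set G} (hAB : A ⊆ B) {a b : G} (h : Chn S A a b) : Chn S B a b := by
  induction h with
  | refl => exact Chn.refl _
  | tail _ h2 ih => exact ih.tail ⟨hAB h2.1, hAB h2.2.1, h2.2.2⟩

theorem Chn.mem_right {S A : Set G} {a b : G} (h : Chn S A a b) (ha : a ∈ A) : b ∈ A := by
  induction h with
  | refl => exact ha
  | tail _ h2 _ => exact h2.2.1

/-- left translation -/
theorem Chn.smul {S A B : Set G} {g a b : G} (h : Chn S A a b) (hAB : ∀ x ∈ A, g * x ∈ B) :
    Chn S B (g * a) (g * b) := by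
  induction h with
  | refl => exact Chn.refl _
  | @tail b c _ h2 ih =>
    refine ih.tail ⟨hAB _ h2.1, hAB _ h2.2.1, ?_⟩
    have e1 : (g * b)⁻¹ * (g * c) = b⁻¹ * c := by group
    have e2 : (g * c)⁻¹ * (g * b) = c⁻¹ * b := by group
    rw [e1, e2]
    exact h2.2.2

/-- every chain stays inside some superlevel and sublevel set -/
theorem Chn.bdd {S A : Set G} (ht : G → ℝ) {a b : G} (h : Chn S A a b) :
    ∃ l u : ℝ, l ≤ ht a ∧ ht a ≤ u ∧ Chn S (A ∩ {x | l ≤ ht x ∧ ht x ≤ u}) a b := by
  induction h with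
  | refl => exact ⟨ht a, ht a, le_rfl, le_rfl, Chn.refl _⟩
  | @tail b c h1 h2 ih =>
    obtain ⟨l, u, hl, hu, hc⟩ := ih
    refine ⟨min l (min (ht b) (ht c)), max u (max (ht b) (ht c)),
      (min_le_left _ _).trans hl, hu.trans (le_max_left _ _), ?_⟩
    refine (hc.mono ?_).trans (ReflTransGen.single ⟨⟨h2.1, ?_, ?_⟩, ⟨h2.2.1, ?_, ?_⟩, h2.2.2⟩)
    · rintro x ⟨hxA, hxl, hxu⟩
      exact ⟨hxA, (min_le_left _ _).trans hxl, hxu.trans (le_max_left _ _)⟩
    · exact (min_le_right _ _).trans (min_le_left _ _)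
    · exact (le_max_left _ _).trans (le_max_right _ _)
    · exact (min_le_right _ _).trans (min_le_right _ _)
    · exact (le_max_right _ _).trans (le_max_right _ _)

/-- the Cayley graph is connected -/
theorem chn_univ {S : Set G} (hS : Subgroup.closure S = ⊤) (a b : G) : Chn S Set.univ a b := by
  have key : ∀ g : G, Chn S Set.univ a (a * g) := by
    intro g
    have hg : g ∈ Subgroup.closure S := by rw [hS]; trivial
    refine Subgroup.closure_induction_right (p := fun g _ => Chn S Set.univ a (a * g)) ?_ ?_ ?_ hg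
    · rw [mul_one]; exact Chn.refl _
    · intro x _ y hy ih
      refine ih.tail ⟨trivial, trivial, Or.inl ?_⟩
      have : (a * x)⁻¹ * (a * (x * y)) = y := by group
      rwa [this]
    · intro x _ y hy ih
      refine ih.tail ⟨trivial, trivial, Or.inr ?_⟩
      have : (a * (x * y⁻¹))⁻¹ * (a * x) = y := by group
      rwa [this]
  have := key (a⁻¹ * b)
  rwa [mul_inv_cancel_left] at this

/-- the superlevel set -/
def up (ht : G → ℝ) (r : ℝ) : Set G := {x | r ≤ ht x}

/-- any two elements of height at least `r` are joined above `r - D` -/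
def Conn (S : Set G) (ht : G → ℝ) : Prop :=
  ∃ D : ℝ, ∀ (r : ℝ) (x y : G), r ≤ ht x → r ≤ ht y → Chn S (up ht (r - D)) x y

section Types

variable {M : Subgroup G} {S : Set G} {ht chi : G → ℝ}

/-- chains translate by elements of `M` -/
theorem Chn.shift (hht : ∀ m ∈ M, ∀ x, ht (m * x) = chi m + ht x) {m : G} (hm : m ∈ M) {l u : ℝ}
    {a b : G} (h : Chn S {x | l ≤ ht x ∧ ht x ≤ u} a b) :
    Chn S {x | chi m + l ≤ ht x ∧ ht x ≤ chi m + u} (m * a) (m * b) := by
  refine h.smul fun x hx => ?_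
  show _ ≤ ht (m * x) ∧ ht (m * x) ≤ _
  rw [hht m hm]
  exact ⟨by linarith [hx.1], by linarith [hx.2]⟩

theorem Chn.shift_up (hht : ∀ m ∈ M, ∀ x, ht (m * x) = chi m + ht x) {m : G} (hm : m ∈ M) {l : ℝ}
    {a b : G} (h : Chn S (up ht l) a b) : Chn S (up ht (chi m + l)) (m * a) (m * b) := by
  refine h.smul fun x hx => ?_
  show _ ≤ ht (m * x)
  rw [hht m hm]
  have : l ≤ ht x := hx
  linarith

/-- A function invariant under a finite index normal subgroup is bounded. -/
theorem types [M.Normal] [M.FiniteIndex] (f : G → ℝ) (hf : ∀ m ∈ M, ∀ x, f (m * x) = f x) :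
    ∃ C, ∀ x, f x ≤ C := by
  classical
  have : Finite (G ⧸ M) := inferInstance
  let t : G ⧸ M → G := fun q => q.out
  obtain ⟨C, hC⟩ := (Set.finite_range fun q : G ⧸ M => f (t q)).bddAbove
  refine ⟨C, fun x => ?_⟩
  have h1 : (t (QuotientGroup.mk x))⁻¹ * x ∈ M := by
    rw [← QuotientGroup.eq]
    exact QuotientGroup.out_eq' _
  have h2 := (inferInstance : M.Normal).conj_mem _ h1 (t (QuotientGroup.mk x))
  rw [← mul_assoc, mul_inv_cancel, one_mul] at h2
  have h3 := hf _ h2 (t (QuotientGroup.mk x))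
  rw [inv_mul_cancel_right] at h3
  rw [h3]
  exact hC ⟨_, rfl⟩

/-- representatives of the cosets of `M` -/
theorem exists_rep (M : Subgroup G) [M.Normal] [M.FiniteIndex] :
    ∃ t : G → G, (Set.range t).Finite ∧ (∀ x, x * (t x)⁻¹ ∈ M) ∧
      ∀ m ∈ M, ∀ x, t (m * x) = t x := by
  classical
  have : Finite (G ⧸ M) := inferInstance
  refine ⟨fun x => (QuotientGroup.mk x : G ⧸ M).out, ?_, fun x => ?_, fun m hm x => ?_⟩
  · refine (Set.finite_range fun q : G ⧸ M => q.out).subset ?_
    rintro _ ⟨g, rfl⟩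
    exact ⟨_, rfl⟩
  · have h1 : ((QuotientGroup.mk x : G ⧸ M).out)⁻¹ * x ∈ M := by
      rw [← QuotientGroup.eq]
      exact QuotientGroup.out_eq' _
    have h2 := (inferInstance : M.Normal).conj_mem _ h1 ((QuotientGroup.mk x : G ⧸ M).out)
    rwa [← mul_assoc, mul_inv_cancel, one_mul] at h2
  · have h1 : (QuotientGroup.mk (m * x) : G ⧸ M) = QuotientGroup.mk x := by
      rw [QuotientGroup.eq]
      have h2 := (inferInstance : M.Normal).conj_mem _ (M.inv_mem hm) x⁻¹
      rw [inv_inv] at h2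
      have h3 : (m * x)⁻¹ * x = x⁻¹ * m⁻¹ * x := by group
      rw [h3]
      exact h2
    show (QuotientGroup.mk (m * x) : G ⧸ M).out = _
    rw [h1]

end Types

end Pool.Agent.H.MP_ee9c6f_al.Asc
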