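import Pool.Agent.H.MP_ee9c6f_al.Asc.Total

/-!
MP_ee9c6f_al / Asc (helper38). The criterion for bundles with a certificate: in every fibre some path
of every edge is ascending, in the lexicographic order given by a functional of the fibre and a
functional of the space of sections.
-/

set_option autoImplicit false

namespace Pool.Agent.H.MP_ee9c6f_al.Asc

open E3Rep Matrix Relation

section

variable {G : Type} [Group G] {ι ε φ : Type}

/-- `(i, a)` and `(j, b)` are the cosets `v` and `w`, in one of the two orders. -/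
def Join (L : ι → Subgroup G) (i : ι) (a : G) (j : ι) (b : G) (v w : ι × G) : Prop :=
  (i = v.1 ∧ j = w.1 ∧ v.2⁻¹ * a ∈ L v.1 ∧ w.2⁻¹ * b ∈ L w.1) ∨
    (i = w.1 ∧ j = v.1 ∧ w.2⁻¹ * a ∈ L w.1 ∧ v.2⁻¹ * b ∈ L v.1)

/-- One step of a chain: equal cosets, an edge of the list `k` in one of the two directions, or a
free edge anywhere. -/
def PStep (L : ι → Subgroup G) (src tgt : ε → ι) (u : ε → G) (fsrc ftgt : φ → ι) (fu : φ → G)
    (k : List (ε × G)) (v w : ι × G) : Prop :=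
  (v.1 = w.1 ∧ v.2⁻¹ * w.2 ∈ L v.1) ∨
    (∃ s ∈ k, Join L (src s.1) s.2 (tgt s.1) (s.2 * u s.1) v w) ∨
      ∃ (f : φ) (z : G), Join L (fsrc f) z (ftgt f) (z * fu f) v w

variable {L : ι → Subgroup G} {src tgt : ε → ι} {u : ε → G} {fsrc ftgt : φ → ι} {fu : φ → G}
  {k : List (ε × G)}

theorem Join.symm {i j : ι} {a b : G} {v w : ι × G} (h : Join L i a j b v w) :
    Join L i a j b w v := Or.symm h

theorem Join.self (i j : ι) (a b : G) : Join L i a j b (i, a) (j, b) := by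
  refine Or.inl ⟨rfl, rfl, ?_, ?_⟩
  · show a⁻¹ * a ∈ L i
    rw [inv_mul_cancel]
    exact (L i).one_mem
  · show b⁻¹ * b ∈ L j
    rw [inv_mul_cancel]
    exact (L j).one_mem

theorem PStep.symm {v w : ι × G} (h : PStep L src tgt u fsrc ftgt fu k v w) :
    PStep L src tgt u fsrc ftgt fu k w v := by
  rcases h with h | ⟨s, hs, h⟩ | ⟨f, z, h⟩
  · exact Or.inl (same_symm h)
  · exact Or.inr (Or.inl ⟨s, hs, h.symm⟩)
  · exact Or.inr (Or.inr ⟨f, z, h.symm⟩)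

theorem steps_symm {v w : ι × G} (h : ReflTransGen (PStep L src tgt u fsrc ftgt fu k) v w) :
    ReflTransGen (PStep L src tgt u fsrc ftgt fu k) w v := by
  induction h with
  | refl => exact ReflTransGen.refl
  | tail _ h2 ih => exact (ReflTransGen.single h2.symm).trans ih

/-- equal cosets -/
theorem step_same {i : ι} {a b : G} (h : a⁻¹ * b ∈ L i) :
    PStep L src tgt u fsrc ftgt fu k (i, a) (i, b) := Or.inl ⟨rfl, h⟩

/-- an edge of the list -/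
theorem step_edge {e : ε} {z : G} (h : (e, z) ∈ k) :
    PStep L src tgt u fsrc ftgt fu k (src e, z) (tgt e, z * u e) :=
  Or.inr (Or.inl ⟨(e, z), h, Join.self _ _ _ _⟩)

/-- an edge of the list, reversed -/
theorem step_edge' {e : ε} {z : G} (h : (e, z) ∈ k) :
    PStep L src tgt u fsrc ftgt fu k (tgt e, z * u e) (src e, z) := (step_edge h).symm

/-- a free edge -/
theorem step_free (f : φ) (z : G) :
    PStep L src tgt u fsrc ftgt fu k (fsrc f, z) (ftgt f, z * fu f) :=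
  Or.inr (Or.inr ⟨f, z, Join.self _ _ _ _⟩)

/-- a free edge, reversed -/
theorem step_free' (f : φ) (z : G) :
    PStep L src tgt u fsrc ftgt fu k (ftgt f, z * fu f) (fsrc f, z) := (step_free f z).symm

/-- translation of a chain -/
theorem PStep.smul (g : G) {v w : ι × G} (h : PStep L src tgt u fsrc ftgt fu k v w) :
    PStep L src tgt u fsrc ftgt fu (k.map fun s => (s.1, g * s.2)) (v.1, g * v.2) (w.1, g * w.2) := by
  have hj : ∀ {i j : ι} {a b : G}, Join L i a j b v w →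
      Join L i (g * a) j (g * b) (v.1, g * v.2) (w.1, g * w.2) := by
    rintro i j a b (⟨h1, h2, h3, h4⟩ | ⟨h1, h2, h3, h4⟩)
    · refine Or.inl ⟨h1, h2, ?_, ?_⟩
      · show (g * v.2)⁻¹ * (g * a) ∈ L v.1
        rwa [cancel_left]
      · show (g * w.2)⁻¹ * (g * b) ∈ L w.1
        rwa [cancel_left]
    · refine Or.inr ⟨h1, h2, ?_, ?_⟩
      · show (g * w.2)⁻¹ * (g * a) ∈ L w.1
        rwa [cancel_left]
      · show (g * v.2)⁻¹ * (g * b) ∈ L v.1
        rwa [cancel_left]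
  rcases h with ⟨h1, h2⟩ | ⟨s, hs, h⟩ | ⟨f, z, h⟩
  · refine Or.inl ⟨h1, ?_⟩
    show (g * v.2)⁻¹ * (g * w.2) ∈ L v.1
    rwa [cancel_left]
  · refine Or.inr (Or.inl ⟨(s.1, g * s.2), List.mem_map.2 ⟨s, hs, rfl⟩, ?_⟩)
    show Join L (src s.1) (g * s.2) (tgt s.1) (g * s.2 * u s.1) _ _
    rw [mul_assoc]
    exact hj h
  · refine Or.inr (Or.inr ⟨f, g * z, ?_⟩)
    rw [mul_assoc]
    exact hj h

theorem steps_smul (g : G) {v w : ι × G}
    (h : ReflTransGen (PStep L src tgt u fsrc ftgt fu k) v w) :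
    ReflTransGen (PStep L src tgt u fsrc ftgt fu (k.map fun s => (s.1, g * s.2)))
      (v.1, g * v.2) (w.1, g * w.2) := by
  induction h with
  | refl => exact ReflTransGen.refl
  | tail _ h2 ih => exact ih.tail (h2.smul g)

theorem PStep.mono {k' : List (ε × G)} (hk : ∀ s ∈ k, s ∈ k') {v w : ι × G}
    (h : PStep L src tgt u fsrc ftgt fu k v w) : PStep L src tgt u fsrc ftgt fu k' v w := by
  rcases h with h | ⟨s, hs, h⟩ | h
  · exact Or.inl h
  · exact Or.inr (Or.inl ⟨s, hk s hs, h⟩)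
  · exact Or.inr (Or.inr h)

theorem steps_mono {k' : List (ε × G)} (hk : ∀ s ∈ k, s ∈ k') {v w : ι × G}
    (h : ReflTransGen (PStep L src tgt u fsrc ftgt fu k) v w) :
    ReflTransGen (PStep L src tgt u fsrc ftgt fu k') v w := by
  induction h with
  | refl => exact ReflTransGen.refl
  | tail _ h2 ih => exact ih.tail (h2.mono hk)

end

section

variable {G : Type} [Group G] {V : Type} [AddCommGroup V] [Module ℚ V]
  {A : G →* Equiv.Perm V} {lin : G → V →ₗ[ℚ] V} {ι ε φ : Type}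

/-- the point of the step `(e, h)` minus the point of the edge `e₀` -/
def stepV (A : G →* Equiv.Perm V) (pt : ε → V) (e₀ : ε) (s : ε × G) : V :=
  A s.2 (pt s.1) - pt e₀

theorem IsAff.zpow (h : IsAff A lin) {l : G} (hl : l ∈ h.tr) (j : ℤ) :
    A (l ^ j) 0 = (j : ℚ) • A l 0 := by
  have h1 : ∀ a ∈ h.tr, ∀ b, A (a * b) 0 = A b 0 + A a 0 := by
    intro a ha b
    rw [map_mul, Equiv.Perm.mul_apply, h.tr_apply ha]
  have h2 : A l⁻¹ 0 = -A l 0 := by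
    have := h1 l⁻¹ (h.tr.inv_mem hl) l
    rw [inv_mul_cancel, map_one, Equiv.Perm.one_apply] at this
    rw [eq_neg_iff_add_eq_zero, add_comm]
    exact this.symm
  induction j using Int.induction_on with
  | zero => simp
  | succ n ih =>
    rw [_root_.zpow_add_one, h1 _ (h.tr.zpow_mem hl _), ih]
    push_cast
    rw [add_smul, one_smul, add_comm]
  | pred n ih =>
    rw [_root_.zpow_sub_one, h1 _ (h.tr.zpow_mem hl _), ih, h2]
    push_cast
    rw [sub_smul, one_smul]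
    abel

theorem exists_high (h : IsAff A lin) {l : G} (hl : l ∈ h.tr) (z : G) (ν : V →ₗ[ℚ] ℚ)
    (hne : ν (lin z (A l 0)) ≠ 0) (r : ℚ) : ∃ j : ℤ, r ≤ ν (A (z * l ^ j) 0) := by
  have key : ∀ j : ℤ, ν (A (z * l ^ j) 0) = j * ν (lin z (A l 0)) + ν (A z 0) := by
    intro j
    have h1 := h z ((j : ℚ) • A l 0) 0
    rw [add_zero] at h1
    rw [map_mul, Equiv.Perm.mul_apply, h.zpow hl, h1, map_add, map_smul, map_smul, smul_eq_mul]
  set c := ν (lin z (A l 0)) with hc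
  rcases lt_or_gt_of_ne hne with h0 | h0
  · refine ⟨⌊(r - ν (A z 0)) / c⌋, ?_⟩
    rw [key]
    have h1 := Int.floor_le ((r - ν (A z 0)) / c)
    have h2 : ((r - ν (A z 0)) / c) * c ≤ (⌊(r - ν (A z 0)) / c⌋ : ℚ) * c :=
      mul_le_mul_of_nonpos_right h1 h0.le
    rw [div_mul_cancel₀ _ hne] at h2
    linarith
  · refine ⟨⌈(r - ν (A z 0)) / c⌉, ?_⟩
    rw [key]
    have h1 := Int.le_ceil ((r - ν (A z 0)) / c)
    have h2 : ((r - ν (A z 0)) / c) * c ≤ (⌈(r - ν (A z 0)) / c⌉ : ℚ) * c :=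
      mul_le_mul_of_nonneg_right h1 h0.le
    rw [div_mul_cancel₀ _ hne] at h2
    linarith

theorem exists_delta_list {α : Type} (k : List α) (f : α → ℚ) (h : ∀ s ∈ k, 0 < f s) :
    ∃ δ : ℚ, 0 < δ ∧ ∀ s ∈ k, δ ≤ f s := by
  induction k with
  | nil => exact ⟨1, one_pos, fun s hs => by cases hs⟩
  | cons a k ih =>
    obtain ⟨δ, h1, h2⟩ := ih fun s hs => h s (List.mem_cons_of_mem _ hs)
    refine ⟨min δ (f a), lt_min h1 (h a List.mem_cons_self), fun s hs => ?_⟩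
    rcases List.mem_cons.1 hs with rfl | hs
    · exact min_le_right _ _
    · exact (min_le_left _ _).trans (h2 s hs)

/-- Chains for one functional from an ascending path and the free edges. -/
theorem hasChain_of (h : IsAff A lin) {L : ι → Subgroup G} {src tgt : ε → ι} {u : ε → G}
    {pt : ε → V} {fsrc ftgt : φ → ι} {fu fl : φ → G} (hfM : ∀ f, fl f ∈ h.tr)
    (hf₁ : ∀ f, fl f ∈ L (fsrc f)) (hf₂ : ∀ f, (fu f)⁻¹ * fl f * fu f ∈ L (ftgt f))
    {paths : ε → List (List (ε × G))}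
    (hpaths : ∀ e, ∀ k ∈ paths e,
      ReflTransGen (PStep L src tgt u fsrc ftgt fu k) (src e, 1) (tgt e, u e))
    (ν : V →ₗ[ℚ] ℚ) (hfree : ∀ f z, ν (lin z (A (fl f) 0)) ≠ 0)
    (hp : ∀ e, ∃ k ∈ paths e, ∀ s ∈ k, 0 < ν (stepV A pt e s)) (e : ε ⊕ φ) :
    HasChain L (Sum.elim src fsrc) (Sum.elim tgt ftgt) (Sum.elim u fu) A
      (Sum.elim pt fun _ => 0) ν e := by
  -- a free edge, at every height
  have hz : ∀ f (j : ℤ), (fu f)⁻¹ * fl f ^ j * fu f ∈ L (ftgt f) := by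
    intro f j
    have e1 : (fu f)⁻¹ * fl f ^ j * fu f = ((fu f)⁻¹ * fl f * fu f) ^ j := by
      have := (MulAut.conj (fu f)⁻¹).toMonoidHom.map_zpow (fl f) j
      simpa [MulAut.conj_apply] using this
    rw [e1]
    exact (L _).zpow_mem (hf₂ f) j
  have hlink : ∀ (r : ℚ) (f : φ) (z : G) (v w : ι × G), Join L (fsrc f) z (ftgt f) (z * fu f) v w →
      Link L (Sum.elim src fsrc) (Sum.elim tgt ftgt) (Sum.elim u fu)
        (fun e z => ((ν (A z ((Sum.elim pt fun _ => 0 : ε ⊕ φ → V) e)) : ℚ) : ℝ)) (r : ℝ) v w := by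
    intro r f z v w hj
    obtain ⟨j, hj'⟩ := exists_high h (hfM f) z ν (hfree f z) r
    refine Or.inr ⟨Sum.inr f, z * fl f ^ j, ?_, ?_⟩
    · show (r : ℝ) ≤ ((ν (A (z * fl f ^ j) 0) : ℚ) : ℝ)
      exact_mod_cast hj'
    · have e1 : ∀ x : G, x⁻¹ * (z * fl f ^ j) = x⁻¹ * z * fl f ^ j := fun x => by
        rw [mul_assoc]
      have e2 : ∀ x : G, x⁻¹ * (z * fl f ^ j * fu f) =
          x⁻¹ * (z * fu f) * ((fu f)⁻¹ * fl f ^ j * fu f) := fun x => by group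
      rcases hj with ⟨h1, h2, h3, h4⟩ | ⟨h1, h2, h3, h4⟩
      · refine Or.inl ⟨h1, h2, ?_, ?_⟩
        · rw [e1, ← h1]
          exact (L _).mul_mem (by rw [h1]; exact h3) ((L _).zpow_mem (hf₁ f) j)
        · show w.2⁻¹ * (z * fl f ^ j * fu f) ∈ L w.1
          rw [e2, ← h2]
          exact (L _).mul_mem (by rw [h2]; exact h4) (hz f j)
      · refine Or.inr ⟨h1, h2, ?_, ?_⟩
        · rw [e1, ← h1]
          exact (L _).mul_mem (by rw [h1]; exact h3) ((L _).zpow_mem (hf₁ f) j)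
        · show v.2⁻¹ * (z * fl f ^ j * fu f) ∈ L v.1
          rw [e2, ← h2]
          exact (L _).mul_mem (by rw [h2]; exact h4) (hz f j)
  rcases e with e | f
  · obtain ⟨k, hk, hpos⟩ := hp e
    obtain ⟨δ, hδ, hδk⟩ := exists_delta_list k (fun s => ν (stepV A pt e s)) hpos
    refine ⟨ν (pt e) + δ, by simpa using hδ, ?_⟩
    have hchain := hpaths e k hk
    refine ReflTransGen.mono ?_ _ _ hchain
    intro v w hvw
    rcases hvw with h1 | ⟨s, hs, h1⟩ | ⟨f, z, h1⟩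
    · exact Or.inl h1
    · refine Or.inr ⟨Sum.inl s.1, s.2, ?_, h1⟩
      have h2 := hδk s hs
      simp only [stepV, map_sub] at h2
      have h3 : ν (pt e) + δ ≤ ν (A s.2 (pt s.1)) := by linarith
      show ((ν (pt e) + δ : ℚ) : ℝ) ≤ ((ν (A s.2 (pt s.1)) : ℚ) : ℝ)
      exact_mod_cast h3
    · exact hlink _ f z v w h1
  · refine ⟨1, by simp, ReflTransGen.single ?_⟩
    refine hlink 1 f 1 _ _ ?_
    rw [one_mul]
    exact Join.self _ _ _ _

end

section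

variable {K : Type} [Field K] [CharZero K] {J : Type} [Fintype J] [DecidableEq J] {Q : Type}
  {G : Type} [Group G] {ρ : G →* Equiv.Perm (Q × (J → K))} {N : Subgroup (GL J K)}

/-- the value of the linear part at a point of the base -/
theorem lin_fib (hblk : ∀ g, IsBlk N (ρ g)) {lin : G → (Q → J → K) →ₗ[ℚ] (Q → J → K)}
    (h : IsAff (secA hblk) lin) (g : G) (q : Q) :
    ∃ B : (J → K) →ₗ[ℚ] (J → K), (∀ v, v ≠ 0 → B v ≠ 0) ∧
      ∀ w, lin g w q = B (w (fib ρ g⁻¹ q)) := by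
  obtain ⟨σ, hσ⟩ := hblk g
  obtain ⟨T, -, t, ht⟩ := hσ (fib ρ g⁻¹ q)
  refine ⟨(Matrix.mulVecLin (T : Matrix J J K)).restrictScalars ℚ, ?_, fun w => ?_⟩
  · intro v hv h0
    apply hv
    have h1 : (T : Matrix J J K) *ᵥ v = 0 := h0
    have e1 : ((T⁻¹ : GL J K) : Matrix J J K) * (T : Matrix J J K) = 1 := by
      rw [← Matrix.GeneralLinearGroup.coe_mul, inv_mul_cancel]; rfl
    rw [← Matrix.one_mulVec v, ← e1, ← Matrix.mulVec_mulVec, h1, Matrix.mulVec_zero]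
  · rw [h.lin_eq, Pi.sub_apply, secA_apply, secA_apply, ht, ht]
    change (T : Matrix J J K) *ᵥ w (fib ρ g⁻¹ q) + t -
      ((T : Matrix J J K) *ᵥ (0 : Q → J → K) (fib ρ g⁻¹ q) + t) = _
    rw [Pi.zero_apply, Matrix.mulVec_zero]
    change _ = (T : Matrix J J K) *ᵥ w (fib ρ g⁻¹ q)
    abel

/-- an element of infinite order on the bundle has a power which is a nonzero translation -/
theorem exists_pow_tr [Nonempty J] (hblk : ∀ g, IsBlk N (ρ g))
    {lin : G → (Q → J → K) →ₗ[ℚ] (Q → J → K)} (h : IsAff (secA hblk) lin)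
    (hfin : (Set.range lin).Finite) {b : G}
    (hb : ∃ x, ∀ k : ℕ, 0 < k → ρ (b ^ k) x ≠ x) :
    ∃ k : ℕ, b ^ k ∈ h.tr ∧ secA hblk (b ^ k) 0 ≠ 0 := by
  classical
  have hMf := h.tr_finiteIndex hfin
  obtain ⟨k, hk, -, hkM⟩ := Subgroup.exists_pow_mem_of_index_ne_zero
    (H := h.tr) Subgroup.FiniteIndex.index_ne_zero b
  refine ⟨k, hkM, fun h0 => ?_⟩
  obtain ⟨⟨q, v⟩, hx⟩ := hb
  have h1 : ∀ p, secA hblk (b ^ k) p = p := by
    intro p
    rw [h.tr_apply hkM, h0, add_zero]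
  have h2 : ∀ p : Q → J → K, ρ (b ^ k) (q, p q) = (fib ρ (b ^ k) q, p (fib ρ (b ^ k) q)) := by
    intro p
    rw [apply_eq hblk, ← secA_fib hblk, h1]
  set q' := fib ρ (b ^ k) q with hq'
  by_cases hqq : q' = q
  · have h3 := h2 fun _ => v
    rw [hqq] at h3
    exact hx k hk h3
  · have h3 := h2 (Function.update (fun _ => v) q' 0)
    have h4 := h2 (Function.update (fun _ => v) q' 1)
    rw [Function.update_of_ne (Ne.symm hqq), Function.update_self] at h3 h4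
    rw [h3] at h4
    have h5 : (0 : J → K) = 1 := congrArg Prod.snd h4
    obtain ⟨j⟩ := (inferInstance : Nonempty J)
    exact zero_ne_one (congrFun h5 j)

/-- **The criterion with a certificate.** -/
theorem twoEnds_of_cert [Group.FG G] [Finite Q] [Nonempty J] [Finite N]
    (hblk : ∀ g, IsBlk N (ρ g)) (q₀ : Q)
    {ι ε φ : Type} [Finite ι] [Finite ε] [Finite φ] (K₁ K₂ : ι → Subgroup G)
    (hc : ∀ i, ∀ a ∈ K₁ i, ∀ b ∈ K₂ i, Commute a b)
    (h₁ : ∀ i, ∃ b ∈ K₁ i, ∃ x, ∀ k : ℕ, 0 < k → ρ (b ^ k) x ≠ x)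
    (h₂ : ∀ i, ∃ b ∈ K₂ i, ∃ x, ∀ k : ℕ, 0 < k → ρ (b ^ k) x ≠ x)
    (src tgt : ε → ι) (u : ε → G) (pt : ε → Q → J → K)
    (fsrc ftgt : φ → ι) (fu fl : φ → G)
    (hf₁ : ∀ f, fl f ∈ prodSub (K₁ (fsrc f)) (K₂ (fsrc f)) (hc (fsrc f)))
    (hf₂ : ∀ f, (fu f)⁻¹ * fl f * fu f ∈ prodSub (K₁ (ftgt f)) (K₂ (ftgt f)) (hc (ftgt f)))
    (hf₃ : ∀ f, ∃ x, ∀ k : ℕ, 0 < k → ρ (fl f ^ k) x ≠ x)
    (paths : ε → List (List (ε × G)))
    (hpaths : ∀ e, ∀ k ∈ paths e,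
      ReflTransGen (PStep (fun i => prodSub (K₁ i) (K₂ i) (hc i)) src tgt u fsrc ftgt fu k)
        (src e, 1) (tgt e, u e))
    (cert : ∀ (e : ε) (q : Q) (f₀ : (J → K) →+ ℚ) (f₁ : (Q → J → K) →+ ℚ),
      (∀ k ∈ paths e, ∀ s ∈ k,
        (stepV (secA hblk) pt e s q ≠ 0 → f₀ (stepV (secA hblk) pt e s q) ≠ 0) ∧
        (stepV (secA hblk) pt e s ≠ 0 → f₁ (stepV (secA hblk) pt e s) ≠ 0)) →
      ∃ k ∈ paths e, ∀ s ∈ k, 0 < f₀ (stepV (secA hblk) pt e s q) ∨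
        (stepV (secA hblk) pt e s q = 0 ∧ 0 < f₁ (stepV (secA hblk) pt e s)))
    (i₀ : ι)
    (hcon : reach (fun i => prodSub (K₁ i) (K₂ i) (hc i)) (Sum.elim src fsrc) (Sum.elim tgt ftgt)
      (Sum.elim u fu) i₀ = ⊤) :
    Wajnryb.TwoEnds G := by
  classical
  obtain ⟨lin, h, hfin⟩ := exists_lin hblk
  set A := secA hblk with hA
  -- powers which are translations
  have hb₁ : ∀ i, ∃ b ∈ K₁ i, b ∈ h.tr ∧ A b 0 ≠ 0 := by
    intro i
    obtain ⟨b, hb, hx⟩ := h₁ i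
    obtain ⟨k, hk1, hk2⟩ := exists_pow_tr hblk h hfin hx
    exact ⟨b ^ k, (K₁ i).pow_mem hb k, hk1, hk2⟩
  have hb₂ : ∀ i, ∃ b ∈ K₂ i, b ∈ h.tr ∧ A b 0 ≠ 0 := by
    intro i
    obtain ⟨b, hb, hx⟩ := h₂ i
    obtain ⟨k, hk1, hk2⟩ := exists_pow_tr hblk h hfin hx
    exact ⟨b ^ k, (K₂ i).pow_mem hb k, hk1, hk2⟩
  have hb₃ : ∀ f, ∃ l : G, l ∈ prodSub (K₁ (fsrc f)) (K₂ (fsrc f)) (hc (fsrc f)) ∧
      (fu f)⁻¹ * l * fu f ∈ prodSub (K₁ (ftgt f)) (K₂ (ftgt f)) (hc (ftgt f)) ∧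
      l ∈ h.tr ∧ A l 0 ≠ 0 := by
    intro f
    obtain ⟨k, hk1, hk2⟩ := exists_pow_tr hblk h hfin (hf₃ f)
    refine ⟨fl f ^ k, Subgroup.pow_mem _ (hf₁ f) k, ?_, hk1, hk2⟩
    have e1 : (fu f)⁻¹ * fl f ^ k * fu f = ((fu f)⁻¹ * fl f * fu f) ^ k := by
      have := (MulAut.conj (fu f)⁻¹).toMonoidHom.map_pow (fl f) k
      simpa [MulAut.conj_apply] using this
    rw [e1]
    exact Subgroup.pow_mem _ (hf₂ f) k
  choose b₁ hbK₁ hbM₁ hbt₁ using hb₁
  choose b₂ hbK₂ hbM₂ hbt₂ using hb₂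
  choose fl' hfl₁ hfl₂ hflM hflt using hb₃
  -- the finite set of vectors
  let W : Set (Q → J → K) := ⋃ e, {w | w ∈ ((paths e).flatten.map (stepV A pt e))}
  have hWf : W.Finite := Set.finite_iUnion fun e => List.finite_toSet _
  have hWm : ∀ e, ∀ k ∈ paths e, ∀ s ∈ k, stepV A pt e s ∈ W := by
    intro e k hk s hs
    exact Set.mem_iUnion.2 ⟨e, List.mem_map.2 ⟨s, List.mem_flatten.2 ⟨k, hk, hs⟩, rfl⟩⟩
  let T : Set (Q → J → K) := (Set.range fun i => A (b₁ i) 0) ∪ (Set.range fun i => A (b₂ i) 0) ∪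
    Set.range fun f => A (fl' f) 0
  have hTf : T.Finite := ((Set.finite_range _).union (Set.finite_range _)).union
    (Set.finite_range _)
  let X : Set (Q → J → K) := Set.image2 (fun l w => l w) (Set.range lin) (W ∪ T)
  have hXf : X.Finite := Set.Finite.image2 _ hfin (hWf.union hTf)
  have hXW : ∀ g, ∀ w ∈ W, lin g w ∈ X := fun g w hw => ⟨_, ⟨g, rfl⟩, w, Or.inl hw, rfl⟩
  have hXT : ∀ g, ∀ w ∈ T, lin g w ∈ X := fun g w hw => ⟨_, ⟨g, rfl⟩, w, Or.inr hw, rfl⟩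
  -- the functionals
  obtain ⟨φ₀, hφ₀⟩ : ∃ φ₀ : (J → K) →ₗ[ℚ] ℚ, ∀ x ∈ X, x q₀ ≠ 0 → φ₀ (x q₀) ≠ 0 := by
    have : Finite ↥{x | x ∈ X ∧ x q₀ ≠ 0} := (hXf.subset fun x hx => hx.1).to_subtype
    obtain ⟨f, hf⟩ := Module.exists_dual_forall_apply_ne_zero (K := ℚ)
      (v := fun x : ↥{x | x ∈ X ∧ x q₀ ≠ 0} => x.1 q₀) fun x => x.2.2
    exact ⟨f, fun x hx hx0 => hf ⟨x, hx, hx0⟩⟩
  obtain ⟨μ₁, hμ₁⟩ : ∃ μ₁ : (Q → J → K) →ₗ[ℚ] ℚ, ∀ x ∈ X, x ≠ 0 → μ₁ x ≠ 0 := by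
    have : Finite ↥{x | x ∈ X ∧ x ≠ 0} := (hXf.subset fun x hx => hx.1).to_subtype
    obtain ⟨f, hf⟩ := Module.exists_dual_forall_apply_ne_zero (K := ℚ)
      (v := fun x : ↥{x | x ∈ X ∧ x ≠ 0} => x.1) fun x => x.2.2
    exact ⟨f, fun x hx hx0 => hf ⟨x, hx, hx0⟩⟩
  obtain ⟨n, hn⟩ : ∃ n : ℕ, ∀ x ∈ X, φ₀ (x q₀) ≠ 0 → |μ₁ x| < n * |φ₀ (x q₀)| := by
    have h1 : ∀ᶠ n : ℕ in Filter.atTop, ∀ x ∈ X, φ₀ (x q₀) ≠ 0 → |μ₁ x| < n * |φ₀ (x q₀)| := by
      refine (Filter.eventually_all_finite hXf).2 fun x _ => ?_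
      by_cases hx0 : φ₀ (x q₀) = 0
      · exact Filter.Eventually.of_forall fun n hne => absurd hx0 hne
      · obtain ⟨n₀, hn₀⟩ := exists_nat_gt (|μ₁ x| / |φ₀ (x q₀)|)
        filter_upwards [Filter.eventually_ge_atTop n₀] with n hn _
        have hpos : 0 < |φ₀ (x q₀)| := abs_pos.2 hx0
        rw [div_lt_iff₀ hpos] at hn₀
        have : (n₀ : ℚ) * |φ₀ (x q₀)| ≤ n * |φ₀ (x q₀)| :=
          mul_le_mul_of_nonneg_right (by exact_mod_cast hn) hpos.le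
        linarith
    exact h1.exists
  let μ : (Q → J → K) →ₗ[ℚ] ℚ := (n : ℚ) • (φ₀ ∘ₗ LinearMap.proj q₀) + μ₁
  have hμ : ∀ x, μ x = n * φ₀ (x q₀) + μ₁ x := fun x => rfl
  -- signs
  have hsg : ∀ s : ℚ, (s = 1 ∨ s = -1) → ∀ x ∈ X, 0 < s * φ₀ (x q₀) → 0 < s * μ x := by
    intro s hs x hx hpos
    have h0 : φ₀ (x q₀) ≠ 0 := by
      intro h0
      rw [h0, mul_zero] at hpos
      exact lt_irrefl _ hpos
    have h1 := hn x hx h0
    have h2 : |φ₀ (x q₀)| = s * φ₀ (x q₀) := by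
      rcases hs with rfl | rfl
      · rw [one_mul] at hpos ⊢
        exact abs_of_pos hpos
      · rw [neg_one_mul] at hpos ⊢
        exact abs_of_neg (by linarith)
    have h3 : -(s * μ₁ x) ≤ |μ₁ x| := by
      rcases hs with rfl | rfl
      · rw [one_mul]
        exact neg_le_abs _
      · rw [neg_one_mul, neg_neg]
        exact le_abs_self _
    rw [hμ]
    rw [h2] at h1
    have h4 : s * (n * φ₀ (x q₀) + μ₁ x) = n * (s * φ₀ (x q₀)) + s * μ₁ x := by ring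
    rw [h4]
    linarith
  have hμ0 : ∀ x, x q₀ = 0 → μ x = μ₁ x := by
    intro x hx
    rw [hμ, hx, map_zero, mul_zero, zero_add]
  have hμne : ∀ x ∈ X, x ≠ 0 → μ x ≠ 0 := by
    intro x hx hx0
    by_cases hq : x q₀ = 0
    · rw [hμ0 x hq]
      exact hμ₁ x hx hx0
    · rcases lt_or_gt_of_ne (hφ₀ x hx hq) with h1 | h1
      · have := hsg (-1) (Or.inr rfl) x hx (by linarith)
        intro h2
        rw [h2, mul_zero] at this
        exact lt_irrefl _ this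
      · have := hsg 1 (Or.inl rfl) x hx (by linarith)
        intro h2
        rw [h2, mul_zero] at this
        exact lt_irrefl _ this
  -- the chains
  have hchain : ∀ s : ℚ, (s = 1 ∨ s = -1) → ∀ g, ∀ e : ε ⊕ φ,
      HasChain (fun i => prodSub (K₁ i) (K₂ i) (hc i)) (Sum.elim src fsrc) (Sum.elim tgt ftgt)
        (Sum.elim u fu) A (Sum.elim pt fun _ => 0) (s • (μ ∘ₗ lin g)) e := by
    intro s hs g e
    have hs0 : s ≠ 0 := by rcases hs with rfl | rfl <;> norm_num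
    refine hasChain_of h hflM hfl₁ hfl₂ hpaths _ (fun f z => ?_) (fun e => ?_) e
    · show s * μ (lin g (lin z (A (fl' f) 0))) ≠ 0
      refine mul_ne_zero hs0 ?_
      rw [← Module.End.mul_apply, ← h.mul]
      exact hμne _ (hXT _ _ (Or.inr ⟨f, rfl⟩)) (h.inj _ (hflt f))
    · obtain ⟨B, hB, hBq⟩ := lin_fib hblk h g q₀
      obtain ⟨k, hk, hks⟩ := cert e (fib ρ g⁻¹ q₀)
        ((s • (φ₀ ∘ₗ B)).toAddMonoidHom) ((s • (μ₁ ∘ₗ lin g)).toAddMonoidHom) (by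
        intro k hk s' hs'
        have hw := hWm e k hk s' hs'
        constructor
        · intro hne
          show s * φ₀ (B (stepV A pt e s' (fib ρ g⁻¹ q₀))) ≠ 0
          rw [← hBq]
          refine mul_ne_zero hs0 (hφ₀ _ (hXW g _ hw) ?_)
          rw [hBq]
          exact hB _ hne
        · intro hne
          show s * μ₁ (lin g (stepV A pt e s')) ≠ 0
          exact mul_ne_zero hs0 (hμ₁ _ (hXW g _ hw) (h.inj g hne)))
      refine ⟨k, hk, fun s' hs' => ?_⟩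
      have hw := hWm e k hk s' hs'
      show 0 < s * μ (lin g (stepV A pt e s'))
      rcases hks s' hs' with h1 | ⟨h1, h2⟩
      · have h3 : 0 < s * φ₀ (B (stepV A pt e s' (fib ρ g⁻¹ q₀))) := h1
        rw [← hBq] at h3
        exact hsg s hs _ (hXW g _ hw) h3
      · have h3 : 0 < s * μ₁ (lin g (stepV A pt e s')) := h2
        rw [hμ0 _ (by rw [hBq, h1, map_zero])]
        exact h3
  refine twoEnds_core h hfin K₁ K₂ hc b₁ b₂ hbK₁ hbK₂ hbM₁ hbM₂ (Sum.elim src fsrc)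
    (Sum.elim tgt ftgt) (Sum.elim u fu) (Sum.elim pt fun _ => 0) μ
    (fun g i => hμne _ (hXT _ _ (Or.inl (Or.inl ⟨i, rfl⟩))) (h.inj _ (hbt₁ i)))
    (fun g i => hμne _ (hXT _ _ (Or.inl (Or.inr ⟨i, rfl⟩))) (h.inj _ (hbt₂ i)))
    (fun g e => ?_) (fun g e => ?_) i₀ hcon
  · have := hchain 1 (Or.inl rfl) g e
    rwa [one_smul] at this
  · have := hchain (-1) (Or.inr rfl) g e
    rwa [neg_one_smul] at this

end

end Pool.Agent.H.MP_ee9c6f_al.Asc
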