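import Pool.Agent.H.MP_ee9c6f_al.Asc.Ascend

/-!
MP_ee9c6f_al / Asc (helper38). The criterion for the kernel of a character: finitely many line
groups `K₁ i · K₂ i`, finitely many edges, ascending replacements for the height and for its
negative.
-/

set_option autoImplicit false

namespace Pool.Agent.H.MP_ee9c6f_al.Asc

open Relation

theorem ker_fg_of_ascending {G : Type*} [Group G] {M : Subgroup G} [hM : M.Normal]
    [M.FiniteIndex] {S : Set G} (hSf : S.Finite) (hS : Subgroup.closure S = ⊤) {ht chi : G → ℝ}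
    (hht : ∀ m ∈ M, ∀ x, ht (m * x) = chi m + ht x) (hne : ∃ m ∈ M, chi m ≠ 0)
    (hint : ∀ m ∈ M, ∃ k : ℤ, chi m = k)
    {ι ε : Type*} [Finite ι] [Finite ε] (K₁ K₂ : ι → Subgroup G)
    (hc : ∀ i, ∀ a ∈ K₁ i, ∀ b ∈ K₂ i, Commute a b)
    (h₁ : ∀ i, ∀ g : G, ∃ b ∈ K₁ i, b ∈ M ∧ chi (g * b * g⁻¹) ≠ 0)
    (h₂ : ∀ i, ∀ g : G, ∃ b ∈ K₂ i, b ∈ M ∧ chi (g * b * g⁻¹) ≠ 0)
    (src tgt : ε → ι) (u : ε → G) (q : ε → G → ℝ)
    (hq : ∀ m ∈ M, ∀ e g, q e (m * g) = chi m + q e g)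
    (hasc : ∀ e g, ∃ ρ, q e g < ρ ∧
      ReflTransGen (Link (fun i => prodSub (K₁ i) (K₂ i) (hc i)) src tgt u q ρ)
        (src e, g) (tgt e, g * u e))
    (hasc' : ∀ e g, ∃ ρ, -q e g < ρ ∧
      ReflTransGen (Link (fun i => prodSub (K₁ i) (K₂ i) (hc i)) src tgt u (fun e g => -q e g) ρ)
        (src e, g) (tgt e, g * u e))
    (i₀ : ι) (hcon : reach (fun i => prodSub (K₁ i) (K₂ i) (hc i)) src tgt u i₀ = ⊤)
    {N : Subgroup G} (hN : ∀ x, x ∈ N ↔ x ∈ M ∧ chi x = 0) : N.FG := by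
  have hht' : ∀ m ∈ M, ∀ x, -ht (m * x) = -chi m + -ht x := fun m hm x => by
    rw [hht m hm]
    ring
  have c1 : Conn S ht := conn_of_ascending (u := u) (q := q) hS hht
    (fun i => isLine_prodSub hS hht (hc i) (h₁ i) (h₂ i)) hq hasc i₀ hcon
  have c2 : Conn S fun x => -ht x := conn_of_ascending (ht := fun x => -ht x)
    (chi := fun x => -chi x) (u := u) (q := fun e g => -q e g) hS hht'
    (fun i => isLine_prodSub (ht := fun x => -ht x) (chi := fun x => -chi x) hS hht' (hc i)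
      (fun g => by
        obtain ⟨b, hb, hbM, h⟩ := h₁ i g
        exact ⟨b, hb, hbM, neg_ne_zero.2 h⟩)
      (fun g => by
        obtain ⟨b, hb, hbM, h⟩ := h₂ i g
        exact ⟨b, hb, hbM, neg_ne_zero.2 h⟩))
    (fun m hm e g => by
      show -q e (m * g) = -chi m + -q e g
      rw [hq m hm]
      ring) hasc' i₀ hcon
  exact ker_fg hSf hS hht hne hint c1 c2 hN

end Pool.Agent.H.MP_ee9c6f_al.Asc
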