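import Pool.Agent.H.MP_ee9c6f_al.Asc.Line

/-!
MP_ee9c6f_al / Asc (helper38). If the superlevel sets of a height and of its negative are coarsely
connected then the kernel of the character is finitely generated.
-/

set_option autoImplicit false

namespace Pool.Agent.H.MP_ee9c6f_al.Asc

variable {G : Type*} [Group G] {M : Subgroup G} {S : Set G} {ht chi : G → ℝ}

/-- Raising data: a map `ups` which moves points up and adjacent points to points joined above
both of them. -/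
structure Raise (S : Set G) (ht : G → ℝ) (c K : ℝ) (ups : G → G) : Prop where
  one : ∀ x, Chn S {y | ht x - c ≤ ht y ∧ ht y ≤ ht x + K} x (ups x)
  two : ∀ x x', (x⁻¹ * x' ∈ S ∨ x'⁻¹ * x ∈ S) →
    Chn S {y | min (ht x) (ht x') + 1 ≤ ht y ∧ ht y ≤ max (ht x) (ht x') + K} (ups x) (ups x')
  adj : ∀ x x', (x⁻¹ * x' ∈ S ∨ x'⁻¹ * x ∈ S) → ht x - c ≤ ht x'

theorem exists_raise [hM : M.Normal] [M.FiniteIndex] (hSf : S.Finite)
    (hS : Subgroup.closure S = ⊤) (hht : ∀ m ∈ M, ∀ x, ht (m * x) = chi m + ht x)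
    (hne : ∃ m ∈ M, 0 < chi m) (hconn : Conn S ht) :
    ∃ c K : ℝ, ∃ ups : G → G, 0 ≤ c ∧ 0 ≤ K ∧ Raise S ht c K ups := by
  classical
  obtain ⟨D, hD⟩ := hconn
  obtain ⟨m0, hm0, hpos⟩ := hne
  obtain ⟨N, hN⟩ := exists_nat_gt ((D + 1) / chi m0)
  have hN' : D + 1 ≤ N * chi m0 := by
    have := (div_lt_iff₀ hpos).1 hN
    linarith
  obtain ⟨t, htf, htM, htinv⟩ := exists_rep M
  let ups : G → G := fun x => x * (t x)⁻¹ * m0 ^ N * t x
  have hupsM : ∀ m ∈ M, ∀ x, ups (m * x) = m * ups x := fun m hm x => by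
    show m * x * (t (m * x))⁻¹ * m0 ^ N * t (m * x) = m * (x * (t x)⁻¹ * m0 ^ N * t x)
    rw [htinv m hm x]
    group
  have hups : ∀ x, ht (ups x) = ht x + N * chi m0 := fun x => by
    show ht (x * (t x)⁻¹ * m0 ^ N * t x) = _
    have h1 := hht _ (htM x) (t x)
    rw [inv_mul_cancel_right] at h1
    have h2 := hht _ (M.mul_mem (htM x) (M.pow_mem hm0 N)) (t x)
    rw [chi_mul hht (htM x) (M.pow_mem hm0 N), chi_pow hht hm0] at h2
    rw [h2]
    linarith
  -- `x = (x (t x)⁻¹) * t x`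
  have hx : ∀ x, x * (t x)⁻¹ * t x = x := fun x => inv_mul_cancel_right _ _
  have hxt : ∀ x, ht x = chi (x * (t x)⁻¹) + ht (t x) := fun x => by
    rw [← hht _ (htM x), hx]
  -- paths for `one`
  have h1 : ∀ x, ∃ C : ℝ, Chn S {y | ht x - C ≤ ht y ∧ ht y ≤ ht x + C} x (ups x) := by
    intro x
    obtain ⟨l, u, hl, hu, hc⟩ := (chn_univ hS x (ups x)).bdd ht
    refine ⟨max (ht x - l) (u - ht x), hc.mono ?_⟩
    rintro y ⟨-, hy1, hy2⟩
    have h3 := le_max_left (ht x - l) (u - ht x)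
    have h4 := le_max_right (ht x - l) (u - ht x)
    exact ⟨by linarith, by linarith⟩
  choose C1 hC1 using h1
  obtain ⟨E1, hE1⟩ := (htf.image C1).bddAbove
  -- paths for `two`
  have h2 : ∀ x s, ∃ C : ℝ, Chn S {y | min (ht x) (ht (x * s)) + 1 ≤ ht y ∧
      ht y ≤ max (ht x) (ht (x * s)) + C} (ups x) (ups (x * s)) := by
    intro x s
    have h3 := hD (min (ht x) (ht (x * s)) + D + 1) (ups x) (ups (x * s))
      (by rw [hups]; linarith [min_le_left (ht x) (ht (x * s))])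
      (by rw [hups]; linarith [min_le_right (ht x) (ht (x * s))])
    obtain ⟨l, u, -, -, hc⟩ := h3.bdd ht
    refine ⟨u - max (ht x) (ht (x * s)), hc.mono ?_⟩
    rintro y ⟨hy0, -, hy2⟩
    have hy0' : min (ht x) (ht (x * s)) + D + 1 - D ≤ ht y := hy0
    exact ⟨by linarith, by linarith⟩
  choose C2 hC2 using h2
  obtain ⟨E2, hE2⟩ := ((htf.prod hSf).image fun p : G × G => C2 p.1 p.2).bddAbove
  -- bound for generators
  obtain ⟨E3, hE3, hdip⟩ := dips hS hht hSf
  set c := max (max E1 0) E3 with hc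
  set K := max (max E1 0) (max E2 0) with hK
  have hc1 : E1 ≤ c := (le_max_left _ _).trans (le_max_left _ _)
  have hc3 : E3 ≤ c := le_max_right _ _
  have hK1 : E1 ≤ K := (le_max_left _ _).trans (le_max_left _ _)
  have hK2 : E2 ≤ K := (le_max_left _ _).trans (le_max_right _ _)
  have gen2 : ∀ x, ∀ s ∈ S, Chn S {y | min (ht x) (ht (x * s)) + 1 ≤ ht y ∧
      ht y ≤ max (ht x) (ht (x * s)) + K} (ups x) (ups (x * s)) := by
    intro x s hs
    have h3 := (hC2 (t x) s).shift hht (htM x)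
    rw [← hupsM _ (htM x), ← hupsM _ (htM x), ← mul_assoc, hx] at h3
    have h4 := hht _ (htM x) (t x * s)
    rw [← mul_assoc, hx] at h4
    have h5 := hxt x
    have h6 : C2 (t x) s ≤ E2 := hE2 ⟨(t x, s), ⟨⟨x, rfl⟩, hs⟩, rfl⟩
    have e1 : min (ht x) (ht (x * s)) = chi (x * (t x)⁻¹) + min (ht (t x)) (ht (t x * s)) := by
      rw [h4, h5, min_add_add_left]
    have e2 : max (ht x) (ht (x * s)) = chi (x * (t x)⁻¹) + max (ht (t x)) (ht (t x * s)) := by
      rw [h4, h5, max_add_add_left]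
    refine h3.mono ?_
    rintro y ⟨hy1, hy2⟩
    exact ⟨by linarith, by linarith⟩
  refine ⟨c, K, ups, (le_max_right _ _).trans (le_max_left _ _),
    (le_max_right _ _).trans (le_max_left _ _), ⟨fun x => ?_, fun x x' h => ?_, fun x x' h => ?_⟩⟩
  · have h3 := (hC1 (t x)).shift hht (htM x)
    rw [← hupsM _ (htM x), hx] at h3
    have h5 := hxt x
    have h6 : C1 (t x) ≤ E1 := hE1 ⟨t x, ⟨x, rfl⟩, rfl⟩
    refine h3.mono ?_
    rintro y ⟨hy1, hy2⟩
    exact ⟨by linarith, by linarith⟩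
  · rcases h with h | h
    · have h3 := gen2 x _ h
      rwa [mul_inv_cancel_left] at h3
    · have h3 := gen2 x' _ h
      rw [mul_inv_cancel_left, min_comm, max_comm] at h3
      exact h3.symm
  · rcases h with h | h
    · have h3 := hdip x _ h
      rw [mul_inv_cancel_left] at h3
      have h4 : x ∈ {y | ht x - E3 ≤ ht y ∧ ht y ≤ ht x + E3} := ⟨by linarith, by linarith⟩
      have := (h3.mem_right h4).1
      linarith
    · have h3 := hdip x' _ h
      rw [mul_inv_cancel_left] at h3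
      have h4 : x' ∈ {y | ht x' - E3 ≤ ht y ∧ ht y ≤ ht x' + E3} := ⟨by linarith, by linarith⟩
      have := (h3.mem_right h4).2
      linarith

/-- raising the parts of a path below the threshold `θ` -/
theorem raise_step {c K : ℝ} {ups : G → G} (hc : 0 ≤ c) (hR : Raise S ht c K ups)
    {θ l H : ℝ} {a b : G} (ha : θ ≤ ht a) (haH : ht a ≤ H) (hb : θ ≤ ht b)
    (h : Chn S {x | l ≤ ht x ∧ ht x ≤ H} a b) :
    Chn S {x | min (l + 1) (θ - 2 * c) ≤ ht x ∧ ht x ≤ max H (θ + K)} a b := by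
  classical
  set A : Set G := {x | min (l + 1) (θ - 2 * c) ≤ ht x ∧ ht x ≤ max H (θ + K)} with hA
  have hml := min_le_left (l + 1) (θ - 2 * c)
  have hmr := min_le_right (l + 1) (θ - 2 * c)
  have hMl := le_max_left H (θ + K)
  have hMr := le_max_right H (θ + K)
  have key : Chn S A a (if θ ≤ ht b then b else ups b) := by
    clear hb
    induction h with
    | refl => rw [if_pos ha]; exact Chn.refl _
    | @tail x x' h1 h2 ih =>
      refine ih.trans ?_
      obtain ⟨⟨hx1, hx2⟩, ⟨hx1', hx2'⟩, hadj⟩ := h2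
      have a1 := hR.adj x x' hadj
      have a2 := hR.adj x' x hadj.symm
      by_cases hx : θ ≤ ht x <;> by_cases hx' : θ ≤ ht x'
      · rw [if_pos hx, if_pos hx']
        exact Relation.ReflTransGen.single ⟨⟨by linarith, by linarith⟩,
          ⟨by linarith, by linarith⟩, hadj⟩
      · rw [if_pos hx, if_neg hx']
        have hx'' := not_le.1 hx'
        refine Chn.trans (Relation.ReflTransGen.single (⟨⟨by linarith, by linarith⟩,
          ⟨by linarith, by linarith⟩, hadj⟩ : Step S A x x')) ((hR.one x').mono ?_)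
        rintro y ⟨hy1, hy2⟩
        exact ⟨by linarith, by linarith⟩
      · rw [if_neg hx, if_pos hx']
        have hx'' := not_le.1 hx
        refine Chn.trans (((hR.one x).symm).mono ?_) (Relation.ReflTransGen.single
          (⟨⟨by linarith, by linarith⟩, ⟨by linarith, by linarith⟩, hadj⟩ : Step S A x x'))
        rintro y ⟨hy1, hy2⟩
        exact ⟨by linarith, by linarith⟩
      · rw [if_neg hx, if_neg hx']
        have hx0 := not_le.1 hx
        have hx0' := not_le.1 hx'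
        refine (hR.two x x' hadj).mono ?_
        rintro y ⟨hy1, hy2⟩
        have h3 : l ≤ min (ht x) (ht x') := le_min hx1 hx1'
        have h4 : max (ht x) (ht x') ≤ θ := max_le hx0.le hx0'.le
        exact ⟨by linarith, by linarith⟩
  rwa [if_pos hb] at key

theorem raise_iter {c K : ℝ} {ups : G → G} (hc : 0 ≤ c) (hR : Raise S ht c K ups)
    {θ : ℝ} (n : ℕ) : ∀ {l H : ℝ} {a b : G}, θ - 2 * c ≤ l + n → θ ≤ ht a → ht a ≤ H → θ ≤ ht b →
    Chn S {x | l ≤ ht x ∧ ht x ≤ H} a b →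
    Chn S {x | θ - 2 * c ≤ ht x ∧ ht x ≤ max H (θ + K)} a b := by
  induction n with
  | zero =>
    intro l H a b hl ha haH hb h
    refine h.mono ?_
    rintro y ⟨hy1, hy2⟩
    push_cast at hl
    exact ⟨by linarith, hy2.trans (le_max_left _ _)⟩
  | succ n ih =>
    intro l H a b hl ha haH hb h
    have h1 := raise_step hc hR ha haH hb h
    push_cast at hl
    have h2 := ih (l := min (l + 1) (θ - 2 * c)) (H := max H (θ + K)) ?_ ha
      (haH.trans (le_max_left _ _)) hb h1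
    · refine h2.mono ?_
      rintro y ⟨hy1, hy2⟩
      refine ⟨hy1, hy2.trans ?_⟩
      exact max_le le_rfl (le_max_right _ _)
    · rcases min_choice (l + 1) (θ - 2 * c) with h3 | h3 <;> rw [h3]
      · linarith
      · have : (0 : ℝ) ≤ n := Nat.cast_nonneg n
        linarith

/-- connectedness of a slab -/
theorem slab [hM : M.Normal] [M.FiniteIndex] (hSf : S.Finite)
    (hS : Subgroup.closure S = ⊤) (hht : ∀ m ∈ M, ∀ x, ht (m * x) = chi m + ht x)
    (hne : ∃ m ∈ M, chi m ≠ 0) (hconn : Conn S ht) (hconn' : Conn S fun x => - ht x) :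
    ∃ E : ℝ, |ht 1| ≤ E ∧ ∀ n ∈ M, chi n = 0 → Chn S {x | |ht x| ≤ E} 1 n := by
  have hpos : ∃ m ∈ M, 0 < chi m := by
    obtain ⟨m, hm, h⟩ := hne
    rcases lt_or_gt_of_ne h with h | h
    · exact ⟨m⁻¹, M.inv_mem hm, by rw [chi_inv hht hm]; linarith⟩
    · exact ⟨m, hm, h⟩
  have hneg : ∃ m ∈ M, 0 < - chi m := by
    obtain ⟨m, hm, h⟩ := hpos
    exact ⟨m⁻¹, M.inv_mem hm, by rw [chi_inv hht hm]; linarith⟩
  have hht' : ∀ m ∈ M, ∀ x, -ht (m * x) = -chi m + -ht x := fun m hm x => by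
    rw [hht m hm]
    ring
  obtain ⟨c, K, ups, hc, hK, hR⟩ := exists_raise hSf hS hht hpos hconn
  obtain ⟨c', K', ups', hc', hK', hR'⟩ := exists_raise (ht := fun x => - ht x)
    (chi := fun x => - chi x) hSf hS hht' hneg hconn'
  set h0 := ht 1 with hh0
  set θ' := max h0 (h0 - 2 * c + K') with hθ'
  refine ⟨max |h0| (max |h0 - 2 * c| |θ' + 2 * c'|), le_max_left _ _, fun n hn hn0 => ?_⟩
  have hnh : ht n = h0 := by
    have := hht n hn 1
    rw [mul_one, hn0, zero_add] at this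
    exact this
  obtain ⟨l, u, hl, hu, hch⟩ := (chn_univ hS 1 n).bdd ht
  obtain ⟨N, hN⟩ := exists_nat_gt (h0 - 2 * c - l)
  have r1 := raise_iter hc hR (θ := h0) N (by linarith) le_rfl hu hnh.ge
    (hch.mono fun x hx => hx.2)
  set H := max u (h0 + K) with hH
  -- lower the upper part
  obtain ⟨N', hN'⟩ := exists_nat_gt (H - θ' - 2 * c')
  have r2 : Chn S {x | -H ≤ -ht x ∧ -ht x ≤ -(h0 - 2 * c)} 1 n := by
    refine r1.mono ?_
    rintro x ⟨hx1, hx2⟩
    exact ⟨by linarith, by linarith⟩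
  have hθ0 : h0 ≤ θ' := le_max_left _ _
  have r4 := raise_iter hc' hR' (θ := -θ') N' (l := -H) (H := -(h0 - 2 * c)) (a := 1) (b := n)
    (by linarith) (by show -θ' ≤ -ht 1; linarith) (by show -ht 1 ≤ _; linarith)
    (by show -θ' ≤ -ht n; linarith) r2
  refine r4.mono ?_
  intro x hx
  have hx1 : -θ' - 2 * c' ≤ -ht x := hx.1
  have hx2 : -ht x ≤ max (-(h0 - 2 * c)) (-θ' + K') := hx.2
  have h5 : -θ' + K' ≤ -(h0 - 2 * c) := by
    have := le_max_right h0 (h0 - 2 * c + K')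
    linarith
  rw [max_eq_left h5] at hx2
  have h6 := le_max_right |h0| (max |h0 - 2 * c| |θ' + 2 * c'|)
  show |ht x| ≤ _
  rw [abs_le]
  constructor
  · have := neg_abs_le (h0 - 2 * c)
    have := le_max_left |h0 - 2 * c| |θ' + 2 * c'|
    linarith
  · have := le_abs_self (θ' + 2 * c')
    have := le_max_right |h0 - 2 * c| |θ' + 2 * c'|
    linarith

/-- **The kernel is finitely generated.** -/
theorem ker_fg [hM : M.Normal] [M.FiniteIndex] (hSf : S.Finite)
    (hS : Subgroup.closure S = ⊤) (hht : ∀ m ∈ M, ∀ x, ht (m * x) = chi m + ht x)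
    (hne : ∃ m ∈ M, chi m ≠ 0) (hint : ∀ m ∈ M, ∃ k : ℤ, chi m = k)
    (hconn : Conn S ht) (hconn' : Conn S fun x => - ht x)
    {N : Subgroup G} (hN : ∀ x, x ∈ N ↔ x ∈ M ∧ chi x = 0) : N.FG := by
  classical
  obtain ⟨E, h1E, hE⟩ := slab hSf hS hht hne hconn hconn'
  obtain ⟨t, htf, htM, -⟩ := exists_rep M
  have hx : ∀ x, x * (t x)⁻¹ * t x = x := fun x => inv_mul_cancel_right _ _
  have hxt : ∀ x, ht x = chi (x * (t x)⁻¹) + ht (t x) := fun x => by
    rw [← hht _ (htM x), hx]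
  -- elements of `M` with given value
  let mk : ℤ → G := fun k => if h : ∃ m ∈ M, chi m = k then h.choose else 1
  have hmk : ∀ m ∈ M, ∀ k : ℤ, chi m = k → mk k ∈ M ∧ chi (mk k) = k := by
    intro m hm k hk
    have h : ∃ m ∈ M, chi m = k := ⟨m, hm, hk⟩
    have h1 : mk k = h.choose := dif_pos h
    rw [h1]
    exact h.choose_spec
  obtain ⟨B, hB⟩ := (htf.image fun x => |ht x|).bddAbove
  let F : Set G := (fun p : ℤ × G => mk p.1 * p.2) '' (Set.Icc (-⌈E + B⌉) ⌈E + B⌉ ×ˢ Set.range t)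
  have hF : F.Finite := ((Set.finite_Icc _ _).prod htf).image _
  have hdec : ∀ a, |ht a| ≤ E → ∃ n ∈ N, ∃ f ∈ F, a = n * f := by
    intro a ha
    obtain ⟨k, hk⟩ := hint _ (htM a)
    obtain ⟨h1, h2⟩ := hmk _ (htM a) k hk
    refine ⟨a * (t a)⁻¹ * (mk k)⁻¹, ?_, mk k * t a, ⟨(k, t a), ⟨?_, ⟨a, rfl⟩⟩, rfl⟩, by group⟩
    · rw [hN]
      refine ⟨M.mul_mem (htM a) (M.inv_mem h1), ?_⟩
      rw [chi_mul hht (htM a) (M.inv_mem h1), chi_inv hht h1, h2, hk]
      ring
    · have h3 := hxt a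
      rw [hk] at h3
      have h4 : |ht (t a)| ≤ B := hB ⟨t a, ⟨a, rfl⟩, rfl⟩
      have h5 : |(k : ℝ)| ≤ E + B := by
        have h6 : (k : ℝ) = ht a - ht (t a) := by linarith
        rw [h6]
        exact (abs_sub _ _).trans (by linarith)
      have h7 := abs_le.1 h5
      constructor
      · have h8 : -(E + B) ≤ (k : ℝ) := h7.1
        have h9 : E + B ≤ (⌈E + B⌉ : ℝ) := Int.le_ceil _
        have h10 : ((-⌈E + B⌉ : ℤ) : ℝ) ≤ (k : ℝ) := by push_cast; linarith
        exact_mod_cast h10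
      · have h9 : E + B ≤ (⌈E + B⌉ : ℝ) := Int.le_ceil _
        have h10 : (k : ℝ) ≤ ((⌈E + B⌉ : ℤ) : ℝ) := by linarith [h7.2]
        exact_mod_cast h10
  -- the generating set
  let T : Set G := {n | n ∈ N ∧ ∃ f ∈ F, ∃ s ∈ S, ∃ f' ∈ F, n = f * s * f'⁻¹ ∨ n = f * s⁻¹ * f'⁻¹} ∪
    {n | n ∈ N ∧ n ∈ F}
  have hTfin : T.Finite := by
    refine Set.Finite.union ?_ (hF.subset fun x hx => hx.2)
    have h1 : ((fun p : G × G × G => p.1 * p.2.1 * p.2.2⁻¹) '' (F ×ˢ S ×ˢ F) ∪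
        (fun p : G × G × G => p.1 * p.2.1⁻¹ * p.2.2⁻¹) '' (F ×ˢ S ×ˢ F)).Finite :=
      ((hF.prod (hSf.prod hF)).image _).union ((hF.prod (hSf.prod hF)).image _)
    refine h1.subset ?_
    rintro n ⟨-, f, hf, s, hs, f', hf', h | h⟩
    · exact Or.inl ⟨(f, s, f'), ⟨hf, hs, hf'⟩, h.symm⟩
    · exact Or.inr ⟨(f, s, f'), ⟨hf, hs, hf'⟩, h.symm⟩
  have hTN : Subgroup.closure T ≤ N := by
    rw [Subgroup.closure_le]
    rintro n (hn | hn)
    · exact hn.1
    · exact hn.1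
  refine (Subgroup.fg_iff N).2 ⟨T, le_antisymm hTN ?_, hTfin⟩
  intro n hn
  have hnM := (hN n).1 hn
  have hch := hE n hnM.1 hnM.2
  have key : ∀ b, Chn S {x | |ht x| ≤ E} 1 b →
      |ht b| ≤ E ∧ ∃ n' ∈ Subgroup.closure T, ∃ f ∈ F, b = n' * f := by
    intro b hb
    induction hb with
    | refl =>
      refine ⟨h1E, ?_⟩
      obtain ⟨n', hn', f, hf, h⟩ := hdec 1 h1E
      have h2 : f = n'⁻¹ := eq_inv_of_mul_eq_one_right h.symm
      have hfN : f ∈ N := h2 ▸ N.inv_mem hn'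
      refine ⟨f⁻¹, (Subgroup.closure T).inv_mem (Subgroup.subset_closure (Or.inr ⟨hfN, hf⟩)),
        f, hf, by group⟩
    | @tail b b' _ h2 ih =>
      obtain ⟨_, n', hn', f, hf, h⟩ := ih
      have hb' : |ht b'| ≤ E := h2.2.1
      refine ⟨hb', ?_⟩
      obtain ⟨m, hm, f', hf', h'⟩ := hdec b' hb'
      refine ⟨m, ?_, f', hf', h'⟩
      have hn'N : n' ∈ N := hTN hn'
      have hq : n'⁻¹ * m ∈ N := N.mul_mem (N.inv_mem hn'N) hm
      have hqT : n'⁻¹ * m ∈ T := by
        refine Or.inl ⟨hq, f, hf, ?_⟩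
        rcases h2.2.2 with hs | hs
        · refine ⟨_, hs, f', hf', Or.inl ?_⟩
          rw [h, h']
          group
        · refine ⟨_, hs, f', hf', Or.inr ?_⟩
          rw [h, h']
          group
      have h3 := (Subgroup.closure T).mul_mem hn' (Subgroup.subset_closure hqT)
      rwa [mul_inv_cancel_left] at h3
  obtain ⟨-, n', hn', f, hf, h⟩ := key n hch
  have hfN : f ∈ N := by
    have : f = n'⁻¹ * n := by rw [h]; group
    rw [this]
    exact N.mul_mem (N.inv_mem (hTN hn')) hn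
  rw [h]
  exact (Subgroup.closure T).mul_mem hn' (Subgroup.subset_closure (Or.inr ⟨hfN, hf⟩))

end Pool.Agent.H.MP_ee9c6f_al.Asc
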