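import Pool.Agent.H.MP_ee9c6f_al.Asc.Basic

/-!
MP_ee9c6f_al / Asc (helper38). Superlevel sets of cosets of a product of two commuting subgroups.
-/

set_option autoImplicit false

namespace Pool.Agent.H.MP_ee9c6f_al.Asc

variable {G : Type*} [Group G] {M : Subgroup G} {S : Set G} {ht chi : G → ℝ}

theorem chi_mul (hht : ∀ m ∈ M, ∀ x, ht (m * x) = chi m + ht x) {a b : G} (ha : a ∈ M)
    (hb : b ∈ M) : chi (a * b) = chi a + chi b := by
  have h1 := hht (a * b) (M.mul_mem ha hb) 1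
  have h2 := hht a ha (b * 1)
  have h3 := hht b hb 1
  rw [← mul_assoc] at h2
  linarith

theorem chi_one (hht : ∀ m ∈ M, ∀ x, ht (m * x) = chi m + ht x) : chi 1 = 0 := by
  have h1 := hht 1 M.one_mem 1
  rw [mul_one] at h1
  linarith

theorem chi_inv (hht : ∀ m ∈ M, ∀ x, ht (m * x) = chi m + ht x) {a : G} (ha : a ∈ M) :
    chi a⁻¹ = - chi a := by
  have h1 := chi_mul hht ha (M.inv_mem ha)
  rw [mul_inv_cancel, chi_one hht] at h1
  linarith

theorem chi_pow (hht : ∀ m ∈ M, ∀ x, ht (m * x) = chi m + ht x) {a : G} (ha : a ∈ M) (n : ℕ) :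
    chi (a ^ n) = n * chi a := by
  induction n with
  | zero => simp [chi_one hht]
  | succ n ih =>
    rw [pow_succ, chi_mul hht (M.pow_mem ha n) ha, ih]
    push_cast
    ring

/-- conjugation by `M` does not change `chi` -/
theorem chi_conj [hM : M.Normal] (hht : ∀ m ∈ M, ∀ x, ht (m * x) = chi m + ht x) {m b : G}
    (hm : m ∈ M) (x : G) (hb : b ∈ M) :
    chi (m * x * b * (m * x)⁻¹) = chi (x * b * x⁻¹) := by
  have h1 : x * b * x⁻¹ ∈ M := hM.conj_mem _ hb x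
  have h2 : m * x * b * (m * x)⁻¹ = m * (x * b * x⁻¹) * m⁻¹ := by group
  rw [h2, chi_mul hht (M.mul_mem hm h1) (M.inv_mem hm), chi_mul hht hm h1, chi_inv hht hm]
  ring

/-- Paths for finitely many elements, with a uniform bound. -/
theorem dips [M.Normal] [M.FiniteIndex] (hS : Subgroup.closure S = ⊤)
    (hht : ∀ m ∈ M, ∀ x, ht (m * x) = chi m + ht x) {F : Set G} (hF : F.Finite) :
    ∃ C : ℝ, 0 ≤ C ∧ ∀ x, ∀ b ∈ F, Chn S {y | ht x - C ≤ ht y ∧ ht y ≤ ht x + C} x (x * b) := by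
  classical
  obtain ⟨t, htf, htM, -⟩ := exists_rep M
  have h1 : ∀ p : G × G, ∃ C : ℝ,
      Chn S {y | ht p.1 - C ≤ ht y ∧ ht y ≤ ht p.1 + C} p.1 (p.1 * p.2) := by
    intro p
    obtain ⟨l, u, hl, hu, hc⟩ := (chn_univ hS p.1 (p.1 * p.2)).bdd ht
    refine ⟨max (ht p.1 - l) (u - ht p.1), hc.mono ?_⟩
    rintro x ⟨-, hx1, hx2⟩
    have h3 := le_max_left (ht p.1 - l) (u - ht p.1)
    have h4 := le_max_right (ht p.1 - l) (u - ht p.1)
    exact ⟨by linarith, by linarith⟩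
  choose C hC using h1
  obtain ⟨D, hD⟩ := ((htf.prod hF).image C).bddAbove
  refine ⟨max D 0, le_max_right _ _, fun x b hb => ?_⟩
  have h2 := hC (t x, b)
  have h3 : C (t x, b) ≤ D := hD ⟨_, ⟨⟨x, rfl⟩, hb⟩, rfl⟩
  have h4 := h2.shift hht (htM x)
  simp only at h4
  rw [← mul_assoc, inv_mul_cancel_right] at h4
  have h5 := hht _ (htM x) (t x)
  rw [inv_mul_cancel_right] at h5
  refine h4.mono ?_
  rintro y ⟨hy1, hy2⟩
  have h6 := le_max_left D 0
  exact ⟨by linarith, by linarith⟩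

/-- climbing with the powers of `b` -/
theorem climb [hM : M.Normal] (hht : ∀ m ∈ M, ∀ x, ht (m * x) = chi m + ht x) {C : ℝ} {x b : G}
    (hb : b ∈ M) (hpos : 0 ≤ chi (x * b * x⁻¹))
    (h : Chn S {y | ht x - C ≤ ht y ∧ ht y ≤ ht x + C} x (x * b)) (n : ℕ) :
    Chn S (up ht (ht x - C)) x (x * b ^ n) := by
  have hbM : x * b * x⁻¹ ∈ M := hM.conj_mem _ hb x
  induction n with
  | zero => rw [pow_zero, mul_one]; exact Chn.refl _
  | succ n ih =>
    refine ih.trans ?_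
    have h1 := h.shift hht (M.pow_mem hbM n)
    have e1 : (x * b * x⁻¹) ^ n * x = x * b ^ n := by rw [conj_pow]; group
    have e2 : (x * b * x⁻¹) ^ n * (x * b) = x * b ^ (n + 1) := by
      rw [conj_pow, pow_succ]; group
    rw [e1, e2, chi_pow hht hbM] at h1
    refine h1.mono ?_
    rintro y ⟨hy, -⟩
    show ht x - C ≤ ht y
    have : (0 : ℝ) ≤ n * chi (x * b * x⁻¹) := mul_nonneg (Nat.cast_nonneg n) hpos
    linarith

/-- **Line groups.** `K₁` and `K₂` commute, and both contain elements of `M` on which `chi`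
does not vanish, for all conjugates. Then the elements of high height of a coset of `K₁ K₂` are
joined at high height. -/
theorem line [hM : M.Normal] [M.FiniteIndex] (hS : Subgroup.closure S = ⊤)
    (hht : ∀ m ∈ M, ∀ x, ht (m * x) = chi m + ht x) {K₁ K₂ : Subgroup G}
    (hc : ∀ a ∈ K₁, ∀ b ∈ K₂, Commute a b)
    (h₁ : ∀ g : G, ∃ b ∈ K₁, b ∈ M ∧ chi (g * b * g⁻¹) ≠ 0)
    (h₂ : ∀ g : G, ∃ b ∈ K₂, b ∈ M ∧ chi (g * b * g⁻¹) ≠ 0) :
    ∃ D : ℝ, 0 ≤ D ∧ ∀ (r : ℝ) (x k₁ k₂ : G), k₁ ∈ K₁ → k₂ ∈ K₂ → r ≤ ht x → r ≤ ht (x * k₁ * k₂) →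
      Chn S (up ht (r - D)) x (x * k₁ * k₂) := by
  classical
  obtain ⟨t, htf, htM, -⟩ := exists_rep M
  have hpos : ∀ K : Subgroup G, (∀ g : G, ∃ b ∈ K, b ∈ M ∧ chi (g * b * g⁻¹) ≠ 0) →
      ∀ g : G, ∃ b ∈ K, b ∈ M ∧ 0 < chi (g * b * g⁻¹) := by
    intro K hK g
    obtain ⟨b, hb, hbM, hne⟩ := hK g
    rcases lt_or_gt_of_ne hne with h | h
    · refine ⟨b⁻¹, K.inv_mem hb, M.inv_mem hbM, ?_⟩
      have h1 : g * b⁻¹ * g⁻¹ = (g * b * g⁻¹)⁻¹ := by group
      rw [h1, chi_inv hht (hM.conj_mem _ hbM g)]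
      linarith
    · exact ⟨b, hb, hbM, h⟩
  choose β₁ hβ₁K hβ₁M hβ₁ using hpos K₁ h₁
  choose β₂ hβ₂K hβ₂M hβ₂ using hpos K₂ h₂
  -- positivity depends only on the coset
  have hx₁ : ∀ x, 0 < chi (x * β₁ (t x) * x⁻¹) := fun x => by
    have h := chi_conj hht (htM x) (t x) (hβ₁M (t x))
    rw [inv_mul_cancel_right] at h
    rw [h]
    exact hβ₁ _
  have hx₂ : ∀ x, 0 < chi (x * β₂ (t x) * x⁻¹) := fun x => by
    have h := chi_conj hht (htM x) (t x) (hβ₂M (t x))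
    rw [inv_mul_cancel_right] at h
    rw [h]
    exact hβ₂ _
  obtain ⟨C, hC0, hC⟩ := dips hS hht ((htf.image β₁).union (htf.image β₂))
  refine ⟨C, hC0, fun r x k₁ k₂ hk₁ hk₂ hx hy => ?_⟩
  set y := x * k₁ * k₂ with hydef
  -- first climb with `b' ∈ K₂`
  set b' := β₂ (t x) with hb'
  have hb'F : b' ∈ (β₁ '' Set.range t) ∪ (β₂ '' Set.range t) := Or.inr ⟨_, ⟨x, rfl⟩, rfl⟩
  have hb'M : b' ∈ M := hβ₂M _
  have hb'K : b' ∈ K₂ := hβ₂K _
  have hb'c : x * b' * x⁻¹ ∈ M := hM.conj_mem _ hb'M x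
  obtain ⟨l, u, -, -, hP1⟩ := (chn_univ hS x (x * k₁)).bdd ht
  obtain ⟨n, hn⟩ := exists_nat_gt ((r - l) / chi (x * b' * x⁻¹))
  have hn' : r ≤ n * chi (x * b' * x⁻¹) + l := by
    have := (div_lt_iff₀ (hx₂ x)).1 hn
    linarith
  have s1 : Chn S (up ht (r - C)) x (x * b' ^ n) :=
    (climb hht hb'M (hx₂ x).le (hC x b' hb'F) n).mono fun z hz => by
      have : ht x - C ≤ ht z := hz
      show r - C ≤ ht z
      linarith
  have s2 : Chn S (up ht r) (x * b' ^ n) (x * b' ^ n * k₁) := by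
    have h1 : Chn S {z | l ≤ ht z ∧ ht z ≤ u} x (x * k₁) := hP1.mono fun z hz => hz.2
    have h2 := h1.shift hht (M.pow_mem hb'c n)
    have e1 : (x * b' * x⁻¹) ^ n * x = x * b' ^ n := by rw [conj_pow]; group
    have e2 : (x * b' * x⁻¹) ^ n * (x * k₁) = x * b' ^ n * k₁ := by rw [conj_pow]; group
    rw [e1, e2, chi_pow hht hb'c] at h2
    exact h2.mono fun z hz => by
      show r ≤ ht z
      linarith [hz.1]
  set w := x * b' ^ n * k₁ with hw
  have hwr : r ≤ ht w := by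
    have h1 : x * b' ^ n ∈ up ht r := by
      have h2 : ht (x * b' ^ n) = n * chi (x * b' * x⁻¹) + ht x := by
        have e1 : x * b' ^ n = (x * b' * x⁻¹) ^ n * x := by rw [conj_pow]; group
        rw [e1, hht _ (M.pow_mem hb'c n), chi_pow hht hb'c]
      show r ≤ ht _
      rw [h2]
      have : (0 : ℝ) ≤ n * chi (x * b' * x⁻¹) := mul_nonneg (Nat.cast_nonneg n) (hx₂ x).le
      linarith
    exact s2.mem_right h1
  -- then climb with `b ∈ K₁`
  set b := β₁ (t w) with hb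
  have hbF : b ∈ (β₁ '' Set.range t) ∪ (β₂ '' Set.range t) := Or.inl ⟨_, ⟨w, rfl⟩, rfl⟩
  have hbM : b ∈ M := hβ₁M _
  have hbK : b ∈ K₁ := hβ₁K _
  have hbc : w * b * w⁻¹ ∈ M := hM.conj_mem _ hbM w
  have hwy : y * b * y⁻¹ = w * b * w⁻¹ := by
    have c1 : Commute b k₂ := hc b hbK k₂ hk₂
    have c2 : Commute b (b' ^ n) := hc b hbK _ (K₂.pow_mem hb'K n)
    have c3 : Commute k₁ (b' ^ n) := hc k₁ hk₁ _ (K₂.pow_mem hb'K n)
    have e1 : w = x * k₁ * b' ^ n := by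
      rw [hw, mul_assoc, ← c3.eq, mul_assoc]
    have e2 : b' ^ n * b * (b' ^ n)⁻¹ = b := by
      rw [← c2.eq]; group
    have e3 : k₂ * b * k₂⁻¹ = b := by
      rw [← c1.eq]; group
    calc y * b * y⁻¹ = x * k₁ * (k₂ * b * k₂⁻¹) * (x * k₁)⁻¹ := by rw [hydef]; group
      _ = x * k₁ * (b' ^ n * b * (b' ^ n)⁻¹) * (x * k₁)⁻¹ := by rw [e2, e3]
      _ = w * b * w⁻¹ := by rw [e1]; group
  obtain ⟨l2, u2, -, -, hP2⟩ := (chn_univ hS w y).bdd ht
  obtain ⟨m, hm⟩ := exists_nat_gt ((r - l2) / chi (w * b * w⁻¹))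
  have hm' : r ≤ m * chi (w * b * w⁻¹) + l2 := by
    have := (div_lt_iff₀ (hx₁ w)).1 hm
    linarith
  have s3 : Chn S (up ht (r - C)) w (w * b ^ m) :=
    (climb hht hbM (hx₁ w).le (hC w b hbF) m).mono fun z hz => by
      have : ht w - C ≤ ht z := hz
      show r - C ≤ ht z
      linarith
  have s4 : Chn S (up ht r) (w * b ^ m) (y * b ^ m) := by
    have h1 : Chn S {z | l2 ≤ ht z ∧ ht z ≤ u2} w y := hP2.mono fun z hz => hz.2
    have h2 := h1.shift hht (M.pow_mem hbc m)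
    have e1 : (w * b * w⁻¹) ^ m * w = w * b ^ m := by rw [conj_pow]; group
    have e2 : (w * b * w⁻¹) ^ m * y = y * b ^ m := by rw [← hwy, conj_pow]; group
    rw [e1, e2, chi_pow hht hbc] at h2
    exact h2.mono fun z hz => by
      show r ≤ ht z
      linarith [hz.1]
  have s5 : Chn S (up ht (r - C)) y (y * b ^ m) :=
    (climb hht hbM (by rw [hwy]; exact (hx₁ w).le) (hC y b hbF) m).mono fun z hz => by
      have : ht y - C ≤ ht z := hz
      show r - C ≤ ht z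
      linarith
  have hmono : up ht r ⊆ up ht (r - C) := fun z hz => by
    have : r ≤ ht z := hz
    show r - C ≤ ht z
    linarith
  exact (((s1.trans (s2.mono hmono)).trans s3).trans (s4.mono hmono)).trans s5.symm

end Pool.Agent.H.MP_ee9c6f_al.Asc
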