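import Pool.Agent.H.MP_ee9c6f_al.Asc.Appl

/-!
MP_ee9c6f_al / Asc (helper38). The criterion with links of vertices: the vertices are the cosets of a
finitely generated group `K` which fixes a point, the edges join `g K` and `g t K`.
-/

set_option autoImplicit false

namespace Pool.Agent.H.MP_ee9c6f_al.Asc

open Relation

section

variable {G : Type} [Group G]

/-- steps of the graph through elements which satisfy `P` -/
def VStep (K : Subgroup G) (t : G) (P : G → Prop) (x y : G) : Prop :=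
  P y ∧ (x⁻¹ * y ∈ K ∨ x⁻¹ * y = t ∨ x⁻¹ * y = t⁻¹)

/-- a path in a coset of `K` -/
theorem chn_coset {SK : Set G} {S : Set G} (hSK : SK ⊆ S) {h : G → ℤ}
    (hK : ∀ g, ∀ k ∈ Subgroup.closure SK, h (g * k) = h g) {r : ℤ} (x : G) (hx : r ≤ h x) {κ : G}
    (hκ : κ ∈ Subgroup.closure SK) : Chn S {z | r ≤ h z} x (x * κ) := by
  refine Subgroup.closure_induction_right
    (p := fun g _ => Chn S {z | r ≤ h z} x (x * g)) ?_ ?_ ?_ hκ
  · rw [mul_one]
    exact Chn.refl _
  · intro g hg y hy ih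
    refine ih.tail ⟨?_, ?_, Or.inl ?_⟩
    · show r ≤ h (x * g)
      rwa [hK x g hg]
    · show r ≤ h (x * (g * y))
      rwa [hK x _ (Subgroup.mul_mem _ hg (Subgroup.subset_closure hy))]
    · have : (x * g)⁻¹ * (x * (g * y)) = y := by group
      rw [this]
      exact hSK hy
  · intro g hg y hy ih
    refine ih.tail ⟨?_, ?_, Or.inr ?_⟩
    · show r ≤ h (x * g)
      rwa [hK x g hg]
    · show r ≤ h (x * (g * y⁻¹))
      rwa [hK x _ (Subgroup.mul_mem _ hg (Subgroup.inv_mem _ (Subgroup.subset_closure hy)))]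
    · have : (x * (g * y⁻¹))⁻¹ * (x * g) = y := by group
      rw [this]
      exact hSK hy

/-- Links of vertices: half spaces are connected. -/
theorem conn_of_link {SK : Set G} {t : G} (hS : Subgroup.closure (SK ∪ {t}) = ⊤) {h : G → ℤ}
    (hK : ∀ g, ∀ k ∈ Subgroup.closure SK, h (g * k) = h g) (hne : ∀ g, h (g * t) ≠ h g)
    (link : ∀ g, ∀ k ∈ Subgroup.closure SK, ∀ s s' : G, (s = t ∨ s = t⁻¹) → (s' = t ∨ s' = t⁻¹) →
      h g < h (g * (k * s)) → h g < h (g * s') →
      ReflTransGen (VStep (Subgroup.closure SK) t fun z => h g < h z) (g * (k * s)) (g * s'))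
    (r : ℤ) (x y : G) (hx : r ≤ h x) (hy : r ≤ h y) :
    Chn (SK ∪ {t}) {z | r ≤ h z} x y := by
  set S := SK ∪ {t} with hSdef
  set K := Subgroup.closure SK with hKdef
  have hne' : ∀ g s, (s = t ∨ s = t⁻¹) → h (g * s) ≠ h g := by
    rintro g s (rfl | rfl)
    · exact hne g
    · intro h0
      have := hne (g * t⁻¹)
      rw [inv_mul_cancel_right] at this
      exact this h0.symm
  -- a step with `t` or its inverse
  have ht : ∀ {ℓ : ℤ} (a s : G), (s = t ∨ s = t⁻¹) → ℓ ≤ h a → ℓ ≤ h (a * s) →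
      Chn S {z | ℓ ≤ h z} a (a * s) := by
    rintro ℓ a s (rfl | rfl) h1 h2
    · refine ReflTransGen.single ⟨h1, h2, Or.inl ?_⟩
      rw [inv_mul_cancel_left]
      exact Or.inr rfl
    · refine ReflTransGen.single ⟨h1, h2, Or.inr ?_⟩
      have : (a * t⁻¹)⁻¹ * a = t := by group
      rw [this]
      exact Or.inr rfl
  -- conversion of chains
  have hconv : ∀ {ℓ : ℤ} {a b : G}, ℓ ≤ h a →
      ReflTransGen (VStep K t fun z => ℓ ≤ h z) a b → ℓ ≤ h b ∧ Chn S {z | ℓ ≤ h z} a b := by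
    intro ℓ a b ha hab
    induction hab with
    | refl => exact ⟨ha, Chn.refl _⟩
    | @tail b c _ h2 ih =>
      refine ⟨h2.1, ih.2.trans ?_⟩
      have e : c = b * (b⁻¹ * c) := by group
      rcases h2.2 with h3 | h3 | h3
      · rw [e]
        exact chn_coset Set.subset_union_left hK b ih.1 h3
      · have h4 : c = b * t := by rw [← h3]; group
        subst h4
        exact ht b t (Or.inl rfl) ih.1 h2.1
      · have h4 : c = b * t⁻¹ := by rw [← h3]; group
        subst h4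
        exact ht b t⁻¹ (Or.inr rfl) ih.1 h2.1
  -- raise by one
  have raise : ∀ (ℓ : ℤ) (x y : G), ℓ + 1 ≤ h x → ℓ + 1 ≤ h y → Chn S {z | ℓ ≤ h z} x y →
      Chn S {z | ℓ + 1 ≤ h z} x y := by
    intro ℓ x y hx hy hxy
    have inv : ∀ z, Chn S {z | ℓ ≤ h z} x z →
        (ℓ + 1 ≤ h z ∧ Chn S {z | ℓ + 1 ≤ h z} x z) ∨
        (h z = ℓ ∧ ∃ k ∈ K, ∃ s, (s = t ∨ s = t⁻¹) ∧ ℓ + 1 ≤ h (z * (k * s)) ∧
          Chn S {z | ℓ + 1 ≤ h z} x (z * (k * s))) := by
      intro z hz
      induction hz with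
      | refl => exact Or.inl ⟨hx, Chn.refl _⟩
      | @tail a b _ h2 ih =>
        have hb : ℓ ≤ h b := h2.2.1
        have e : b = a * (a⁻¹ * b) := by group
        have hcase : a⁻¹ * b ∈ K ∨ ∃ s, (s = t ∨ s = t⁻¹) ∧ b = a * s := by
          rcases h2.2.2 with (h3 | h3) | (h3 | h3)
          · exact Or.inl (Subgroup.subset_closure h3)
          · exact Or.inr ⟨t, Or.inl rfl, by rw [← (h3 : a⁻¹ * b = t)]; group⟩
          · left
            have : a⁻¹ * b = (b⁻¹ * a)⁻¹ := by group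
            rw [this]
            exact K.inv_mem (Subgroup.subset_closure h3)
          · exact Or.inr ⟨t⁻¹, Or.inr rfl, by rw [← (h3 : b⁻¹ * a = t)]; group⟩
        rcases hcase with hκ | ⟨s', hs', rfl⟩
        · have hab : h b = h a := by rw [e]; exact hK a _ hκ
          rcases ih with ⟨i1, i2⟩ | ⟨i1, k, hk, s, hs, i2, i3⟩
          · refine Or.inl ⟨by rw [hab]; exact i1, i2.trans ?_⟩
            rw [e]
            exact chn_coset Set.subset_union_left hK a i1 hκ
          · refine Or.inr ⟨by rw [hab]; exact i1, (a⁻¹ * b)⁻¹ * k,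
              K.mul_mem (K.inv_mem hκ) hk, s, hs, ?_⟩
            have e2 : b * ((a⁻¹ * b)⁻¹ * k * s) = a * (k * s) := by group
            rw [e2]
            exact ⟨i2, i3⟩
        · rcases ih with ⟨i1, i2⟩ | ⟨i1, k, hk, s, hs, i2, i3⟩
          · rcases hb.lt_or_eq with hlt | heq
            · refine Or.inl ⟨hlt, i2.trans (ht a s' hs' i1 hlt)⟩
            · refine Or.inr ⟨heq.symm, 1, K.one_mem, s'⁻¹, ?_, ?_⟩
              · rcases hs' with rfl | rfl
                · exact Or.inr rfl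
                · exact Or.inl (inv_inv t)
              · have e2 : a * s' * (1 * s'⁻¹) = a := by group
                rw [e2]
                exact ⟨i1, i2⟩
          · have h3 : ℓ < h (a * s') := by
              rcases hb.lt_or_eq with hlt | heq
              · exact hlt
              · exact absurd (by rw [i1, heq]) (hne' a s' hs').symm
            refine Or.inl ⟨h3, i3.trans ?_⟩
            have h4 := link a k hk s s' hs hs' (by rw [i1]; exact i2) (by rw [i1]; exact h3)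
            rw [i1] at h4
            exact (hconv i2 h4).2
    rcases inv y hxy with ⟨-, h1⟩ | ⟨h1, -⟩
    · exact h1
    · omega
  -- a chain without restriction
  obtain ⟨n, hn⟩ : ∃ n : ℕ, Chn S {z | r - n ≤ h z} x y := by
    have h0 := chn_univ hS x y
    clear hx hy
    induction h0 with
    | refl => exact ⟨0, Chn.refl _⟩
    | @tail b c _ h2 ih =>
      obtain ⟨n, hn⟩ := ih
      refine ⟨n + (r - h b).toNat + (r - h c).toNat, ?_⟩
      have m1 := Int.self_le_toNat (r - h b)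
      have m2 := Int.self_le_toNat (r - h c)
      refine (hn.mono fun z (hz : r - n ≤ h z) => ?_).trans
        (ReflTransGen.single ⟨?_, ?_, h2.2.2⟩)
      · show r - ((n + (r - h b).toNat + (r - h c).toNat : ℕ) : ℤ) ≤ h z
        push_cast
        omega
      · show r - ((n + (r - h b).toNat + (r - h c).toNat : ℕ) : ℤ) ≤ h b
        push_cast
        omega
      · show r - ((n + (r - h b).toNat + (r - h c).toNat : ℕ) : ℤ) ≤ h c
        push_cast
        omega
  have key : ∀ n : ℕ, Chn S {z | r - n ≤ h z} x y → Chn S {z | r ≤ h z} x y := by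
    intro n
    induction n with
    | zero =>
      intro h1
      simpa using h1
    | succ n ih =>
      intro h1
      apply ih
      have h2 := raise (r - (n + 1 : ℕ)) x y (by push_cast; omega) (by push_cast; omega) h1
      have e : r - ((n + 1 : ℕ) : ℤ) + 1 = r - n := by push_cast; ring
      rwa [e] at h2
  exact key n hn

end

section

theorem fg_map {G G' : Type} [Group G] [Group G'] {P : Subgroup G} (h : P.FG) (e : G →* G') :
    (P.map e).FG := by
  classical
  obtain ⟨S, hS⟩ := h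
  refine ⟨S.image e, ?_⟩
  rw [Finset.coe_image, ← MonoidHom.map_closure, hS]

/-- Transfer from a subgroup of finite index. -/
theorem twoEnds_transfer {Γ : Type} [Group Γ] (G : Subgroup Γ) [G.FiniteIndex]
    (M : Subgroup G) [M.FiniteIndex] (f : M →* Multiplicative ℤ) (hne : ∃ m, f m ≠ 1)
    (hfg : (f.ker.map M.subtype).FG) : Wajnryb.TwoEnds Γ := by
  classical
  have hinj : Function.Injective G.subtype := G.subtype_injective
  let M₁ : Subgroup Γ := M.map G.subtype
  have hM₁ : M₁.FiniteIndex := by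
    refine ⟨?_⟩
    rw [Subgroup.index_map_subtype]
    exact mul_ne_zero Subgroup.FiniteIndex.index_ne_zero Subgroup.FiniteIndex.index_ne_zero
  let M' : Subgroup Γ := M₁.normalCore
  have hM' : M'.FiniteIndex := inferInstance
  let e : M ≃* M₁ := M.equivMapOfInjective G.subtype hinj
  let f' : M' →* Multiplicative ℤ :=
    f.comp (e.symm.toMonoidHom.comp (Subgroup.inclusion M₁.normalCore_le))
  have he : ∀ x : M₁, (((e.symm x : M) : G) : Γ) = x := by
    intro x
    have := e.apply_symm_apply x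
    exact congrArg Subtype.val this
  have hne' : ∃ m, f' m ≠ 1 := by
    obtain ⟨m, hm⟩ := hne
    obtain ⟨k, hk, -, hkm⟩ := Subgroup.exists_pow_mem_of_index_ne_zero
      (H := M') Subgroup.FiniteIndex.index_ne_zero ((m : G) : Γ)
    refine ⟨⟨((m : G) : Γ) ^ k, hkm⟩, ?_⟩
    have e1 : e.symm (Subgroup.inclusion M₁.normalCore_le ⟨((m : G) : Γ) ^ k, hkm⟩) = m ^ k := by
      apply Subtype.ext
      apply Subtype.ext
      rw [he]
      rfl
    have e2 : f' ⟨((m : G) : Γ) ^ k, hkm⟩ = f m ^ k := by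
      rw [← map_pow, ← e1]
      rfl
    rw [e2]
    intro h1
    apply hm
    have h2 : (k : ℤ) * Multiplicative.toAdd (f m) = 0 := by
      have := congrArg Multiplicative.toAdd h1
      rw [toAdd_pow, toAdd_one, nsmul_eq_mul] at this
      exact this
    exact (mul_eq_zero.1 h2).resolve_left (by exact_mod_cast hk.ne')
  have hker : f'.ker.map M'.subtype = (f.ker.map M.subtype).map G.subtype ⊓ M' := by
    ext x
    constructor
    · rintro ⟨y, hy, rfl⟩
      refine ⟨?_, y.2⟩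
      refine ⟨((e.symm (Subgroup.inclusion M₁.normalCore_le y) : M) : G), ⟨_, hy, rfl⟩, ?_⟩
      exact he _
    · rintro ⟨⟨_, ⟨m, hm, rfl⟩, rfl⟩, hx'⟩
      refine ⟨⟨((m : G) : Γ), hx'⟩, ?_, rfl⟩
      have e1 : e.symm (Subgroup.inclusion M₁.normalCore_le ⟨((m : G) : Γ), hx'⟩) = m := by
        apply Subtype.ext
        apply Subtype.ext
        rw [he]
        rfl
      change f (e.symm (Subgroup.inclusion M₁.normalCore_le ⟨((m : G) : Γ), hx'⟩)) = 1
      rw [e1]
      exact hm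
  have hfg' : (f'.ker.map M'.subtype).FG := by
    rw [hker]
    set N₁ : Subgroup Γ := (f.ker.map M.subtype).map G.subtype with hN₁
    have h1 : N₁.FG := fg_map hfg _
    have h2 : Group.FG N₁ := (Group.fg_iff_subgroup_fg N₁).2 h1
    have h3 : (M'.subgroupOf N₁).FiniteIndex := inferInstance
    have h4 : Group.FG (M'.subgroupOf N₁) := inferInstance
    have h5 : (M'.subgroupOf N₁).FG := (Group.fg_iff_subgroup_fg _).1 h4
    have h6 := fg_map h5 N₁.subtype
    rw [Subgroup.subgroupOf_map_subtype, inf_comm] at h6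
    exact h6
  obtain ⟨g, hg, hgk⟩ := E4.exists_surj f' hne'
  refine ⟨M', M₁.normalCore_normal, hM', g, hg, ?_, ?_⟩
  · rw [hgk]
    exact hfg'
  · intro S hfin hS
    rw [hgk]
    exact E4.relEnds_ker M' f' hne' hfin hS

end

section

variable {V : Type} [AddCommGroup V] [Module ℚ V]

/-- a common denominator of all heights -/
theorem exists_den' {G : Type} [Group G] [Group.FG G] {A : G →* Equiv.Perm V}
    {lin : G → V →ₗ[ℚ] V} (h : IsAff A lin) (hfin : (Set.range lin).Finite) (μ : V →ₗ[ℚ] ℚ)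
    (p : V) : ∃ D : ℕ, 0 < D ∧ ∀ g, ∃ k : ℤ, (D : ℚ) * μ (A g p) = k := by
  classical
  have hMn := h.tr_normal
  have hMf := h.tr_finiteIndex hfin
  have hfg : Group.FG h.tr := inferInstance
  have hmul : ∀ m ∈ h.tr, ∀ x q, A (m * x) q = A x q + A m 0 := by
    intro m hm x q
    rw [map_mul, Equiv.Perm.mul_apply, h.tr_apply hm]
  obtain ⟨D, hD, hDk⟩ := exists_den (M := h.tr) (fun m => μ (A m.1 0)) (fun x y => by
    change μ (A (x.1 * y.1) 0) = _
    rw [hmul _ x.2, map_add, add_comm])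
  obtain ⟨t, htf, htM, -⟩ := exists_rep h.tr
  let E : ℕ := ∏ s ∈ htf.toFinset, (μ (A s p)).den
  have hE : E ≠ 0 := Finset.prod_ne_zero_iff.2 fun s _ => (μ (A s p)).den_nz
  refine ⟨D * E, Nat.mul_pos hD (Nat.pos_of_ne_zero hE), fun g => ?_⟩
  obtain ⟨a, ha⟩ := hDk ⟨g * (t g)⁻¹, htM g⟩
  obtain ⟨b, hb⟩ : ∃ b : ℤ, (E : ℚ) * μ (A (t g) p) = b := by
    obtain ⟨e, he⟩ : (μ (A (t g) p)).den ∣ E :=
      Finset.dvd_prod_of_mem (fun s => (μ (A s p)).den) (htf.mem_toFinset.2 ⟨g, rfl⟩)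
    refine ⟨e * (μ (A (t g) p)).num, ?_⟩
    have : μ (A (t g) p) * ((μ (A (t g) p)).den : ℚ) = (μ (A (t g) p)).num :=
      Rat.mul_den_eq_num _
    rw [he]
    push_cast
    linear_combination (e : ℚ) * this
  have e1 : A g p = A (t g) p + A (g * (t g)⁻¹) 0 := by
    rw [← hmul _ (htM g), inv_mul_cancel_right]
  refine ⟨a * E + D * b, ?_⟩
  rw [e1, map_add]
  have ha' : (D : ℚ) * μ (A (g * (t g)⁻¹) 0) = a := ha
  push_cast
  rw [← ha', ← hb]
  ring

/-- **The criterion with links of vertices.** -/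
theorem twoEnds_of_link {Γ : Type} [Group Γ] [Group.FG Γ] (G : Subgroup Γ) [G.FiniteIndex]
    {A : G →* Equiv.Perm V} {lin : G → V →ₗ[ℚ] V} (h : IsAff A lin)
    (hfin : (Set.range lin).Finite) (K : Subgroup G) (hKfg : K.FG) (t : G)
    (hgen : Subgroup.closure ((K : Set G) ∪ {t}) = ⊤) (p : V) (hKp : ∀ k ∈ K, A k p = p)
    (hinf : ∃ b : G, ∃ x, ∀ n : ℕ, 0 < n → A (b ^ n) x ≠ x)
    {τ : Type} [Finite τ] (n : τ → V) (hn : ∀ i, n i ≠ 0) (htp : A t p ≠ p)
    (link : ∀ ν : V →ₗ[ℚ] ℚ, (∀ g, ν (lin g (A t p - p)) ≠ 0) → (∀ g i, ν (lin g (n i)) ≠ 0) →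
      ∀ k ∈ K, ∀ s s' : G, (s = t ∨ s = t⁻¹) → (s' = t ∨ s' = t⁻¹) →
        ν p < ν (A (k * s) p) → ν p < ν (A s' p) →
        ReflTransGen (VStep K t fun z => ν p < ν (A z p)) (k * s) s') :
    Wajnryb.TwoEnds Γ := by
  classical
  have hGfg : Group.FG G := inferInstance
  have hMn := h.tr_normal
  have hMf := h.tr_finiteIndex hfin
  -- a translation
  obtain ⟨b, hbM, hbt⟩ : ∃ b : G, b ∈ h.tr ∧ A b 0 ≠ 0 := by
    obtain ⟨b, x, hx⟩ := hinf
    obtain ⟨k, hk, -, hkM⟩ := Subgroup.exists_pow_mem_of_index_ne_zero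
      (H := h.tr) Subgroup.FiniteIndex.index_ne_zero b
    refine ⟨b ^ k, hkM, fun h0 => hx k hk ?_⟩
    rw [h.tr_apply hkM, h0, add_zero]
  -- a generic functional
  have : Finite (Set.range lin) := hfin.to_subtype
  obtain ⟨μ, hμ⟩ := Module.exists_dual_forall_apply_ne_zero (K := ℚ)
    (v := fun x : Set.range lin × (τ ⊕ Bool) =>
      x.1.1 (Sum.elim n (fun c => bif c then A b 0 else A t p - p) x.2)) (by
    rintro ⟨⟨_, ⟨g, rfl⟩⟩, i | c⟩
    · exact h.inj g (hn i)
    · rcases c with _ | _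
      · exact h.inj g (sub_ne_zero.2 htp)
      · exact h.inj g hbt)
  have hμn : ∀ g i, μ (lin g (n i)) ≠ 0 := fun g i => hμ (⟨lin g, g, rfl⟩, Sum.inl i)
  have hμb : ∀ g, μ (lin g (A b 0)) ≠ 0 := fun g => hμ (⟨lin g, g, rfl⟩, Sum.inr true)
  have hμt : ∀ g, μ (lin g (A t p - p)) ≠ 0 := fun g => hμ (⟨lin g, g, rfl⟩, Sum.inr false)
  -- heights
  obtain ⟨D, hD, hDk⟩ := exists_den' h hfin μ p
  choose ht hht using hDk
  have hD' : (0 : ℚ) < D := by exact_mod_cast hD
  have hlt : ∀ x y : G, ht x < ht y ↔ μ (A x p) < μ (A y p) := by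
    intro x y
    have : (ht x : ℚ) < ht y ↔ μ (A x p) < μ (A y p) := by
      rw [← hht, ← hht]
      exact mul_lt_mul_iff_of_pos_left hD'
    rw [← this]
    exact Int.cast_lt.symm
  have hA : ∀ g v, A g v = lin g v + A g 0 := fun g v => by
    have := h g v 0
    rwa [add_zero] at this
  have hKh : ∀ g, ∀ k ∈ K, ht (g * k) = ht g := by
    intro g k hk
    have : (ht (g * k) : ℚ) = ht g := by
      rw [← hht, ← hht, map_mul, Equiv.Perm.mul_apply, hKp k hk]
    exact_mod_cast this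
  have hneh : ∀ g, ht (g * t) ≠ ht g := by
    intro g h0
    have h1 : (ht (g * t) : ℚ) = ht g := by exact_mod_cast h0
    rw [← hht, ← hht, map_mul, Equiv.Perm.mul_apply] at h1
    have h2 := mul_left_cancel₀ hD'.ne' h1
    apply hμt g
    rw [h.sub, map_sub, h2, sub_self]
  obtain ⟨SK, hSK⟩ := hKfg
  have hSK' : Subgroup.closure (SK : Set G) = K := hSK
  set S : Set G := (SK : Set G) ∪ {t} with hS
  have hSf : S.Finite := (SK.finite_toSet).union (Set.finite_singleton t)
  have hScl : Subgroup.closure S = ⊤ := by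
    rw [eq_top_iff, ← hgen, Subgroup.closure_le]
    rintro x (hx | hx)
    · have h1 : x ∈ Subgroup.closure (SK : Set G) := by rw [hSK']; exact hx
      exact Subgroup.closure_mono Set.subset_union_left h1
    · exact Subgroup.subset_closure (Or.inr hx)
  -- the two directions
  have hdir : ∀ (σ : ℚ) (η : G → ℤ), (σ = 1 ∨ σ = -1) →
      (∀ x y, η x < η y ↔ (σ • μ) (A x p) < (σ • μ) (A y p)) →
      (∀ g, ∀ k ∈ K, η (g * k) = η g) → (∀ g, η (g * t) ≠ η g) →
      ∀ (r : ℤ) (x y : G), r ≤ η x → r ≤ η y → Chn S {z | r ≤ η z} x y := by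
    intro σ η hσ hη hηK hηt
    have hσ0 : σ ≠ 0 := by rcases hσ with rfl | rfl <;> norm_num
    refine conn_of_link hScl (by rw [hSK']; exact hηK) hηt ?_
    rw [hSK']
    intro g k hk s s' hs hs' h1 h2
    have hνt : ∀ g', ((σ • μ) ∘ₗ lin g) (lin g' (A t p - p)) ≠ 0 := by
      intro g'
      show σ * μ (lin g (lin g' (A t p - p))) ≠ 0
      rw [← Module.End.mul_apply, ← h.mul]
      exact mul_ne_zero hσ0 (hμt _)
    have hνn : ∀ g' i, ((σ • μ) ∘ₗ lin g) (lin g' (n i)) ≠ 0 := by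
      intro g' i
      show σ * μ (lin g (lin g' (n i))) ≠ 0
      rw [← Module.End.mul_apply, ← h.mul]
      exact mul_ne_zero hσ0 (hμn _ _)
    have htr : ∀ z, ((σ • μ) ∘ₗ lin g) p < ((σ • μ) ∘ₗ lin g) (A z p) ↔ η g < η (g * z) := by
      intro z
      rw [hη, map_mul, Equiv.Perm.mul_apply, hA g p, hA g (A z p), map_add, map_add]
      show (σ • μ) (lin g p) < (σ • μ) (lin g (A z p)) ↔ _
      rw [add_lt_add_iff_right]
    have hl := link ((σ • μ) ∘ₗ lin g) hνt hνn k hk s s' hs hs' ((htr _).2 h1) ((htr _).2 h2)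
    refine ReflTransGen.lift (fun x => g * x) ?_ _ _ hl
    rintro a c ⟨h3, h4⟩
    refine ⟨(htr _).1 h3, ?_⟩
    have e1 : (g * a)⁻¹ * (g * c) = a⁻¹ * c := by group
    rwa [e1]
  have hup : ∀ (r : ℤ) (x y : G), r ≤ ht x → r ≤ ht y → Chn S {z | r ≤ ht z} x y :=
    hdir 1 ht (Or.inl rfl) (fun x y => by rw [one_smul]; exact hlt x y) hKh hneh
  have hdn : ∀ (r : ℤ) (x y : G), r ≤ -ht x → r ≤ -ht y → Chn S {z | r ≤ -ht z} x y :=
    hdir (-1) (fun g => -ht g) (Or.inr rfl) (fun x y => by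
      rw [neg_one_smul, LinearMap.neg_apply, LinearMap.neg_apply, neg_lt_neg_iff, neg_lt_neg_iff]
      exact hlt y x) (fun g k hk => by
      show -ht (g * k) = -ht g
      rw [hKh g k hk]) (fun g h0 => hneh g (neg_injective h0))
  -- the real heights
  let H : G → ℝ := fun g => (ht g : ℝ)
  have hint : ∀ m ∈ h.tr, ht m - ht 1 + ht 1 = ht m := fun m _ => by ring
  let chi : G → ℝ := fun m => ((ht m - ht 1 : ℤ) : ℝ)
  have hchi : ∀ m ∈ h.tr, ∀ x, ht (m * x) = (ht m - ht 1) + ht x := by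
    intro m hm x
    have : (ht (m * x) : ℚ) = (ht m - ht 1) + ht x := by
      rw [← hht, ← hht, ← hht, ← hht, map_mul, Equiv.Perm.mul_apply, h.tr_apply hm (A x p),
        h.tr_apply hm p, map_one, Equiv.Perm.one_apply, map_add, map_add]
      ring
    exact_mod_cast this
  have hH : ∀ m ∈ h.tr, ∀ x, H (m * x) = chi m + H x := by
    intro m hm x
    simp only [H, chi]
    rw [hchi m hm]
    push_cast
    ring
  have hchib : ∀ m ∈ h.tr, (((ht m - ht 1 : ℤ) : ℚ)) = D * μ (A m 0) := by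
    intro m hm
    push_cast
    rw [← hht, ← hht, h.tr_apply hm p, map_one, Equiv.Perm.one_apply, map_add]
    ring
  have hne : ∃ m ∈ h.tr, chi m ≠ 0 := by
    refine ⟨b, hbM, fun h0 => ?_⟩
    have h1 : (ht b - ht 1 : ℤ) = 0 := by
      have h0' : ((ht b - ht 1 : ℤ) : ℝ) = 0 := h0
      exact_mod_cast h0'
    have h2 := hchib b hbM
    rw [h1] at h2
    have h3 := hμb 1
    rw [h.one] at h3
    have h4 : (D : ℚ) * μ (A b 0) ≠ 0 := mul_ne_zero hD'.ne' h3
    exact h4 (by rw [← h2]; simp)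
  have c1 : Conn S H := by
    refine ⟨1, fun r x y hx hy => ?_⟩
    have h1 := hup ⌊r⌋ x y (by
      have : (⌊r⌋ : ℝ) ≤ ht x := (Int.floor_le r).trans hx
      exact_mod_cast this) (by
      have : (⌊r⌋ : ℝ) ≤ ht y := (Int.floor_le r).trans hy
      exact_mod_cast this)
    refine h1.mono fun z (hz : ⌊r⌋ ≤ ht z) => ?_
    show r - 1 ≤ (ht z : ℝ)
    have h2 : ((⌊r⌋ : ℤ) : ℝ) ≤ ht z := by exact_mod_cast hz
    have h3 := Int.lt_floor_add_one r
    linarith
  have c2 : Conn S fun x => -H x := by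
    refine ⟨1, fun r x y hx hy => ?_⟩
    have h1 := hdn ⌊r⌋ x y (by
      have : (⌊r⌋ : ℝ) ≤ -(ht x : ℝ) := (Int.floor_le r).trans hx
      exact_mod_cast this) (by
      have : (⌊r⌋ : ℝ) ≤ -(ht y : ℝ) := (Int.floor_le r).trans hy
      exact_mod_cast this)
    refine h1.mono fun z (hz : ⌊r⌋ ≤ -ht z) => ?_
    show r - 1 ≤ -(ht z : ℝ)
    have h2 : ((⌊r⌋ : ℤ) : ℝ) ≤ ((-ht z : ℤ) : ℝ) := by exact_mod_cast hz
    push_cast at h2
    have h3 := Int.lt_floor_add_one r
    linarith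
  -- the kernel
  let χ : h.tr →* Multiplicative ℤ :=
    { toFun := fun x => Multiplicative.ofAdd (ht x.1 - ht 1)
      map_one' := by
        change Multiplicative.ofAdd (ht 1 - ht 1) = 1
        rw [sub_self]
        rfl
      map_mul' := by
        intro x y
        change Multiplicative.ofAdd (ht (x.1 * y.1) - ht 1) = _
        rw [hchi x.1 x.2, add_sub_assoc]
        rfl }
  have hχ : ∀ x : h.tr, χ x = 1 ↔ chi x.1 = 0 := by
    intro x
    have h1 : χ x = 1 ↔ ht x.1 - ht 1 = 0 := Iff.rfl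
    rw [h1]
    simp only [chi]
    exact Int.cast_eq_zero.symm
  have hfg : (χ.ker.map h.tr.subtype).FG := by
    refine ker_fg hSf hScl hH hne (fun m _ => ⟨_, rfl⟩) c1 c2 ?_
    intro x
    constructor
    · rintro ⟨y, hy, rfl⟩
      exact ⟨y.2, (hχ y).1 hy⟩
    · rintro ⟨hx, hx'⟩
      exact ⟨⟨x, hx⟩, (hχ ⟨x, hx⟩).2 hx', rfl⟩
  refine twoEnds_transfer G h.tr χ ?_ hfg
  obtain ⟨m, hm, hm'⟩ := hne
  exact ⟨⟨m, hm⟩, fun h0 => hm' ((hχ ⟨m, hm⟩).1 h0)⟩

end

end Pool.Agent.H.MP_ee9c6f_al.Asc
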