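import Pool.Agent.H.MP_ee9c6f_al.Asc.Total
import Pool.Agent.H.MP_ee9c6f_al.Asc.Vert

/-!
MP_ee9c6f_al / Asc (helper38). The affine action of a subgroup which preserves one fibre.
-/

set_option autoImplicit false

namespace Pool.Agent.H.MP_ee9c6f_al.Asc

open E3Rep Matrix Relation

section

variable {K : Type} [Field K] [CharZero K] {J : Type} [Fintype J] [DecidableEq J] {Q : Type}
  {Γ : Type} [Group Γ] {ρ : Γ →* Equiv.Perm (Q × (J → K))} {N : Subgroup (GL J K)}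

omit [CharZero K] in
/-- the stabiliser of a fibre -/
def stab (hblk : ∀ g, IsBlk N (ρ g)) (q₀ : Q) : Subgroup Γ where
  carrier := {g | fib ρ g q₀ = q₀}
  one_mem' := fib_one q₀
  mul_mem' := by
    intro a b ha hb
    show fib ρ (a * b) q₀ = q₀
    rw [fib_mul hblk]
    have ha' : fib ρ a q₀ = q₀ := ha
    have hb' : fib ρ b q₀ = q₀ := hb
    rw [hb', ha']
  inv_mem' := by
    intro a ha
    show fib ρ a⁻¹ q₀ = q₀
    have ha' : fib ρ a q₀ = q₀ := ha
    conv_lhs => rw [← ha']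
    rw [← fib_mul hblk, inv_mul_cancel, fib_one]

omit [CharZero K] in
theorem mem_stab {hblk : ∀ g, IsBlk N (ρ g)} {q₀ : Q} {g : Γ} :
    g ∈ stab hblk q₀ ↔ fib ρ g q₀ = q₀ := Iff.rfl

omit [CharZero K] in
theorem stab_finiteIndex [Finite Q] (hblk : ∀ g, IsBlk N (ρ g)) (q₀ : Q) :
    (stab hblk q₀).FiniteIndex := by
  classical
  let F : Γ ⧸ stab hblk q₀ → Q := fun x => fib ρ x.out q₀
  have hF : Function.Injective F := by
    intro x y hxy
    rw [← QuotientGroup.out_eq' x, ← QuotientGroup.out_eq' y, QuotientGroup.eq, mem_stab,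
      fib_mul hblk]
    have h1 : fib ρ x.out q₀ = fib ρ y.out q₀ := hxy
    rw [← h1, ← fib_mul hblk, inv_mul_cancel, fib_one]
  have : Finite (Γ ⧸ stab hblk q₀) := Finite.of_injective F hF
  exact Subgroup.finiteIndex_of_finite_quotient

omit [CharZero K] in
/-- the action on one fibre, as a monoid homomorphism -/
def oneE (hblk : ∀ g, IsBlk N (ρ g)) {q₀ : Q} {G : Subgroup Γ} (hG : G ≤ stab hblk q₀) :
    G →* Function.End (J → K) where
  toFun g v := (ρ g.1 (q₀, v)).2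
  map_one' := by
    funext v
    change (ρ 1 (q₀, v)).2 = v
    rw [map_one]
    rfl
  map_mul' g g' := by
    funext v
    change (ρ (g.1 * g'.1) (q₀, v)).2 = (ρ g.1 (q₀, (ρ g'.1 (q₀, v)).2)).2
    rw [map_mul, Equiv.Perm.mul_apply, apply_eq hblk g'.1 q₀ v, mem_stab.1 (hG g'.2)]

omit [CharZero K] in
/-- the action of a subgroup on one fibre -/
def oneA (hblk : ∀ g, IsBlk N (ρ g)) {q₀ : Q} {G : Subgroup Γ} (hG : G ≤ stab hblk q₀) :
    G →* Equiv.Perm (J → K) := (oneE hblk hG).toHomPerm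

omit [CharZero K] in
theorem oneA_apply (hblk : ∀ g, IsBlk N (ρ g)) {q₀ : Q} {G : Subgroup Γ}
    (hG : G ≤ stab hblk q₀) (g : G) (v : J → K) : oneA hblk hG g v = (ρ g.1 (q₀, v)).2 := rfl

omit [CharZero K] in
theorem rho_one (hblk : ∀ g, IsBlk N (ρ g)) {q₀ : Q} {G : Subgroup Γ}
    (hG : G ≤ stab hblk q₀) (g : G) (v : J → K) : ρ g.1 (q₀, v) = (q₀, oneA hblk hG g v) := by
  rw [apply_eq hblk g.1 q₀ v, mem_stab.1 (hG g.2)]
  rfl

/-- the linear parts -/
theorem one_lin (hblk : ∀ g, IsBlk N (ρ g)) [Finite N] {q₀ : Q} {G : Subgroup Γ}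
    (hG : G ≤ stab hblk q₀) :
    ∃ lin : G → (J → K) →ₗ[ℚ] (J → K), IsAff (oneA hblk hG) lin ∧ (Set.range lin).Finite ∧
      ∀ g, ∃ T : N, ∀ v, lin g v = ((T : GL J K) : Matrix J J K) *ᵥ v := by
  have h' : ∀ g : G, ∃ A : N, ∃ t : J → K, ∀ v : J → K,
      oneA hblk hG g v = ((A : GL J K) : Matrix J J K) *ᵥ v + t := by
    intro g
    obtain ⟨σ, hσ⟩ := hblk g.1
    obtain ⟨A, hA, t, ht⟩ := hσ q₀
    refine ⟨⟨A, hA⟩, t, fun v => ?_⟩
    rw [oneA_apply, ht]
  choose A t ht using h'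
  refine ⟨fun g => (Matrix.mulVecLin ((A g : GL J K) : Matrix J J K)).restrictScalars ℚ,
    ?_, ?_, fun g => ⟨A g, fun v => rfl⟩⟩
  · intro g v w
    rw [ht, ht, Matrix.mulVec_add, add_assoc]
    rfl
  · refine (Set.finite_range fun x : N =>
      (Matrix.mulVecLin ((x : GL J K) : Matrix J J K)).restrictScalars ℚ).subset ?_
    rintro _ ⟨g, rfl⟩
    exact ⟨A g, rfl⟩

/-- the linear part determined by the action -/
theorem one_lin_smul (hblk : ∀ g, IsBlk N (ρ g)) {q₀ : Q} {G : Subgroup Γ}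
    (hG : G ≤ stab hblk q₀) {lin : G → (J → K) →ₗ[ℚ] (J → K)}
    (h : IsAff (oneA hblk hG) lin) (g : G) (c : K) (v : J → K) : lin g (c • v) = c • lin g v := by
  obtain ⟨σ, hσ⟩ := hblk g.1
  obtain ⟨A, -, t, ht⟩ := hσ q₀
  have e : ∀ w, lin g w = (A : Matrix J J K) *ᵥ w := by
    intro w
    rw [h.lin_eq, oneA_apply, oneA_apply, ht, ht, Matrix.mulVec_zero]
    change (A : Matrix J J K) *ᵥ w + t - (0 + t) = _
    abel
  rw [e, e, Matrix.mulVec_smul]

end

end Pool.Agent.H.MP_ee9c6f_al.Asc
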