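import Pool.Agent.H.MP_ee9c6f_al.Asc.Rev

/-!
MP_ee9c6f_al / Asc (helper38). Genus 3: identities which follow from the braid relations alone.
-/

set_option autoImplicit false

namespace Pool.Agent.H.MP_ee9c6f_al.Asc.R

section

variable {G : Type*} [Group G]

/-- `t₁ = a₂ a₃ a₁ a₂` exchanges `a₁` and `a₃`. -/
def t1 (a : Fin 7 → G) : G := a 2 * a 3 * a 1 * a 2
/-- `t₂ = a₄ a₅ a₃ a₄` exchanges `a₃` and `a₅`. -/
def t2 (a : Fin 7 → G) : G := a 4 * a 5 * a 3 * a 4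
/-- `A₅ = a₄ a₃ a₂ a₁ a₁ a₂ a₃ a₄`. -/
def A5 (a : Fin 7 → G) : G := a 4 * a 3 * a 2 * a 1 * a 1 * a 2 * a 3 * a 4
/-- `b₀ = A₅ a₀ A₅⁻¹`. -/
def b0 (a : Fin 7 → G) : G := A5 a * a 0 * (A5 a)⁻¹
/-- `b₁ = t₂⁻¹ a₀ t₂`. -/
def b1 (a : Fin 7 → G) : G := (t2 a)⁻¹ * a 0 * t2 a
/-- `b₂ = t₁⁻¹ b₁ t₁`. -/
def b2 (a : Fin 7 → G) : G := (t1 a)⁻¹ * b1 a * t1 a
/-- `u = (a₆ a₅)⁻¹ b₁ (a₆ a₅)`. -/
def uu (a : Fin 7 → G) : G := (a 6 * a 5)⁻¹ * b1 a * (a 6 * a 5)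
/-- `v = a₆ a₅ a₄ a₃ a₂ u a₁⁻¹ a₂⁻¹ a₃⁻¹ a₄⁻¹`. -/
def vv (a : Fin 7 → G) : G :=
  a 6 * a 5 * a 4 * a 3 * a 2 * uu a * (a 1)⁻¹ * (a 2)⁻¹ * (a 3)⁻¹ * (a 4)⁻¹
/-- `b₃ = v a₀ v⁻¹`. -/
def b3 (a : Fin 7 → G) : G := vv a * a 0 * (vv a)⁻¹
/-- `b₁' = t₂⁻¹ b₀ t₂`. -/
def b1' (a : Fin 7 → G) : G := (t2 a)⁻¹ * b0 a * t2 a
/-- `e₂ = t₁⁻¹ b₁' t₁`. -/
def e2 (a : Fin 7 → G) : G := (t1 a)⁻¹ * b1' a * t1 a
/-- `γ = a₆ a₅ a₄ a₀ a₃ a₄ a₅ a₆`. -/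
def ga (a : Fin 7 → G) : G := a 6 * a 5 * a 4 * a 0 * a 3 * a 4 * a 5 * a 6
/-- `κ = (a₅ a₆)³`. -/
def ka (a : Fin 7 → G) : G := (a 5 * a 6) ^ 3
/-- `ι = a₆ a₅ A₅ a₅ a₆`. -/
def io (a : Fin 7 → G) : G := a 6 * a 5 * A5 a * (a 5 * a 6)
/-- `t₃ = a₆ b₃ a₅ a₆`. -/
def t3 (a : Fin 7 → G) : G := a 6 * b3 a * a 5 * a 6
/-- `x = t₂ t₁ t₃ t₂`. -/
def xx (a : Fin 7 → G) : G := t2 a * t1 a * t3 a * t2 a

/-! ### Words -/

/-- a positive word -/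
def pw (l : List (Fin 7)) : List (Fin 7 × Bool) := l.map fun i => (i, true)

/-- word of `t₁` -/
def wt1 : List (Fin 7 × Bool) := pw [2, 3, 1, 2]
/-- word of `t₂` -/
def wt2 : List (Fin 7 × Bool) := pw [4, 5, 3, 4]
/-- word of `A₅` -/
def wA5 : List (Fin 7 × Bool) := pw [4, 3, 2, 1, 1, 2, 3, 4]
/-- word of `b₀` -/
def wb0 : List (Fin 7 × Bool) := wA5 ++ pw [0] ++ ivw wA5
/-- word of `b₁` -/
def wb1 : List (Fin 7 × Bool) := ivw wt2 ++ pw [0] ++ wt2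
/-- word of `b₂` -/
def wb2 : List (Fin 7 × Bool) := ivw wt1 ++ wb1 ++ wt1
/-- word of `u` -/
def wuu : List (Fin 7 × Bool) := ivw (pw [6, 5]) ++ wb1 ++ pw [6, 5]
/-- word of `v` -/
def wvv : List (Fin 7 × Bool) := pw [6, 5, 4, 3, 2] ++ wuu ++ ivw (pw [4, 3, 2, 1])
/-- word of `b₃` -/
def wb3 : List (Fin 7 × Bool) := wvv ++ pw [0] ++ ivw wvv
/-- word of `b₁'` -/
def wb1' : List (Fin 7 × Bool) := ivw wt2 ++ wb0 ++ wt2
/-- word of `e₂` -/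
def we2 : List (Fin 7 × Bool) := ivw wt1 ++ wb1' ++ wt1
/-- word of `γ` -/
def wga : List (Fin 7 × Bool) := pw [6, 5, 4, 0, 3, 4, 5, 6]
/-- word of `κ` -/
def wka : List (Fin 7 × Bool) := pw [5, 6, 5, 6, 5, 6]
/-- word of `t₃` -/
def wt3 : List (Fin 7 × Bool) := pw [6] ++ wb3 ++ pw [5, 6]

variable {a : Fin 7 → G}

theorem wv_pw1 (i : Fin 7) : wv a (pw [i]) = a i := by simp [pw, wv]

theorem wv_t1 : wv a wt1 = t1 a := by simp [wt1, pw, wv, t1, mul_assoc]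

theorem wv_t2 : wv a wt2 = t2 a := by simp [wt2, pw, wv, t2, mul_assoc]

theorem wv_A5 : wv a wA5 = A5 a := by simp [wA5, pw, wv, A5, mul_assoc]

theorem wv_b0 : wv a wb0 = b0 a := by
  simp only [wb0, wv_append, wv_ivw, wv_A5, wv_pw1, b0]

theorem wv_b1 : wv a wb1 = b1 a := by
  simp only [wb1, wv_append, wv_ivw, wv_t2, wv_pw1, b1]

theorem wv_b2 : wv a wb2 = b2 a := by
  simp only [wb2, wv_append, wv_ivw, wv_t1, wv_b1, b2]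

theorem wv_65 : wv a (pw [6, 5]) = a 6 * a 5 := by simp [pw, wv]

theorem wv_uu : wv a wuu = uu a := by
  simp only [wuu, wv_append, wv_ivw, wv_b1, wv_65, uu]

theorem wv_vv : wv a wvv = vv a := by
  simp only [wvv, wv_append, wv_ivw, wv_uu, vv]
  simp [pw, wv, mul_assoc]

theorem wv_b3 : wv a wb3 = b3 a := by
  simp only [wb3, wv_append, wv_ivw, wv_vv, wv_pw1, b3]

theorem wv_b1' : wv a wb1' = b1' a := by
  simp only [wb1', wv_append, wv_ivw, wv_t2, wv_b0, b1']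

theorem wv_e2 : wv a we2 = e2 a := by
  simp only [we2, wv_append, wv_ivw, wv_t1, wv_b1', e2]

theorem wv_ga : wv a wga = ga a := by simp [wga, pw, wv, ga, mul_assoc]

theorem wv_ka : wv a wka = ka a := by
  simp [wka, pw, wv, ka, pow_succ, mul_assoc]

theorem wv_t3 : wv a wt3 = t3 a := by
  simp only [wt3, wv_append, wv_b3, wv_pw1, t3]
  simp [pw, wv, mul_assoc]

/-! ### Identities -/

namespace Artin

variable (h : Artin a)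

include h

/-- (R3) the pentagon -/
theorem pentagon : ka a * (t1 a)⁻¹ * (ga a)⁻¹ =
    ga a * (t1 a)⁻¹ * (ga a)⁻¹ * (t1 a)⁻¹ * a 5 ^ 2 := by
  have := eqA h 300 (w := wka ++ ivw wt1 ++ ivw wga)
    (w' := wga ++ ivw wt1 ++ ivw wga ++ ivw wt1 ++ (pw [5] ++ pw [5])) (by decide +kernel)
  simpa only [wv_append, wv_ivw, wv_ka, wv_t1, wv_ga, wv_pw1, pow_two] using this

/-- `γ e₂ γ⁻¹ = a₁ b₃ a₁⁻¹` -/
theorem ga_e2 : ga a * e2 a * (ga a)⁻¹ = a 1 * b3 a * (a 1)⁻¹ := by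
  have := eqA h 300 (w := wga ++ we2 ++ ivw wga) (w' := pw [1] ++ wb3 ++ ivw (pw [1]))
    (by decide +kernel)
  simpa only [wv_append, wv_ivw, wv_e2, wv_ga, wv_b3, wv_pw1] using this

/-- (R5) -/
theorem br_b3_6 : b3 a * a 6 * b3 a = a 6 * b3 a * a 6 := by
  have := eqA h 300 (w := wb3 ++ pw [6] ++ wb3) (w' := pw [6] ++ wb3 ++ pw [6])
    (by decide +kernel)
  simpa only [wv_append, wv_b3, wv_pw1] using this

/-- the star relation, in the Artin group -/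
theorem star_word : a 0 * t2 a * a 0 * t2 a * (a 3 * a 5) = (a 0 * a 3 * a 5 * a 4) ^ 3 := by
  have := eqA h 300 (w := pw [0] ++ wt2 ++ pw [0] ++ wt2 ++ (pw [3] ++ pw [5]))
    (w' := (pw [0] ++ pw [3] ++ pw [5] ++ pw [4]) ++ (pw [0] ++ pw [3] ++ pw [5] ++ pw [4]) ++
      (pw [0] ++ pw [3] ++ pw [5] ++ pw [4])) (by decide +kernel)
  rw [pow_succ, pow_two]
  simpa only [wv_append, wv_t2, wv_pw1] using this

theorem ga_star : Commute (ga a) ((a 0 * a 3 * a 5 * a 4) ^ 3) := by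
  have := eqA h 300 (w := wga ++ ((pw [0] ++ pw [3] ++ pw [5] ++ pw [4]) ++
      (pw [0] ++ pw [3] ++ pw [5] ++ pw [4]) ++ (pw [0] ++ pw [3] ++ pw [5] ++ pw [4])))
    (w' := ((pw [0] ++ pw [3] ++ pw [5] ++ pw [4]) ++ (pw [0] ++ pw [3] ++ pw [5] ++ pw [4]) ++
      (pw [0] ++ pw [3] ++ pw [5] ++ pw [4])) ++ wga) (by decide +kernel)
  rw [pow_succ, pow_two]
  show _ * _ = _ * _
  simpa only [wv_append, wv_ga, wv_pw1] using this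

theorem ga_1 : Commute (ga a) (a 1) := by
  have := eqA h 300 (w := wga ++ pw [1]) (w' := pw [1] ++ wga) (by decide +kernel)
  show _ * _ = _ * _
  simpa only [wv_append, wv_ga, wv_pw1] using this

end Artin

end

end Pool.Agent.H.MP_ee9c6f_al.Asc.R
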