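import Pool.Agent.H.MP_ee9c6f_al.Asc.RA

/-!
MP_ee9c6f_al / Asc (helper38). Genus 3: consequences of the braid, 3-chain and lantern relations.
-/

set_option autoImplicit false

namespace Pool.Agent.H.MP_ee9c6f_al.Asc.R

section

variable {G : Type*} [Group G]

theorem sb_inv {g x y : G} (h : SemiconjBy g x y) : SemiconjBy g⁻¹ y x := h.inv_symm_left

theorem sb_cj {g x y : G} (h : SemiconjBy g x y) : g * x * g⁻¹ = y := by
  rw [h.eq, mul_inv_cancel_right]

theorem sb_of_cj {g x y : G} (h : g * x * g⁻¹ = y) : SemiconjBy g x y := by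
  change g * x = y * g
  rw [← h]; group

/-- transport of a commutation -/
theorem cm_of_sb {g x y x' y' : G} (hx : SemiconjBy g x x') (hy : SemiconjBy g y y')
    (h : Commute x y) : Commute x' y' := by
  rw [← sb_cj hx, ← sb_cj hy]
  exact (Commute.conj_iff g).2 h

theorem sb_cj_self (g x : G) : SemiconjBy g x (g * x * g⁻¹) := by
  change g * x = g * x * g⁻¹ * g
  group

theorem sb_cji_self (g x : G) : SemiconjBy g (g⁻¹ * x * g) x := by
  change g * (g⁻¹ * x * g) = x * g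
  group

variable {a : Fin 7 → G}

/-- semiconjugation by the check of words -/
theorem sbA (h : Artin a) (n : ℕ) {g x y : List (Fin 7 × Bool)}
    (hw : chkA n ((g ++ x) ++ ivw (y ++ g)) = true) :
    SemiconjBy (wv a g) (wv a x) (wv a y) := by
  have := eqA h n hw
  rw [wv_append, wv_append] at this
  exact this

namespace Artin

variable (h : Artin a)

include h

theorem cm' {i j : Fin 7} (hij : adj i j = false) : Commute (a i) (a j) := h.cm i j hij

theorem t1_1 : SemiconjBy (t1 a) (a 1) (a 3) := by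
  have := sbA h 100 (g := wt1) (x := pw [1]) (y := pw [3]) (by decide +kernel)
  simp only [wv_t1, wv_pw1] at this
  exact this

theorem t1_3 : SemiconjBy (t1 a) (a 3) (a 1) := by
  have := sbA h 100 (g := wt1) (x := pw [3]) (y := pw [1]) (by decide +kernel)
  simp only [wv_t1, wv_pw1] at this
  exact this

theorem t1_0 : Commute (t1 a) (a 0) := by
  have := sbA h 100 (g := wt1) (x := pw [0]) (y := pw [0]) (by decide +kernel)
  simp only [wv_t1, wv_pw1] at this
  exact this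

theorem t1_5 : Commute (t1 a) (a 5) := by
  have := sbA h 100 (g := wt1) (x := pw [5]) (y := pw [5]) (by decide +kernel)
  simp only [wv_t1, wv_pw1] at this
  exact this

theorem t2_1 : Commute (t2 a) (a 1) := by
  have := sbA h 100 (g := wt2) (x := pw [1]) (y := pw [1]) (by decide +kernel)
  simp only [wv_t2, wv_pw1] at this
  exact this

theorem t2_3 : SemiconjBy (t2 a) (a 3) (a 5) := by
  have := sbA h 100 (g := wt2) (x := pw [3]) (y := pw [5]) (by decide +kernel)
  simp only [wv_t2, wv_pw1] at this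
  exact this

theorem t2_5 : SemiconjBy (t2 a) (a 5) (a 3) := by
  have := sbA h 100 (g := wt2) (x := pw [5]) (y := pw [3]) (by decide +kernel)
  simp only [wv_t2, wv_pw1] at this
  exact this

theorem T_1 : SemiconjBy (t1 a * t2 a) (a 1) (a 3) := by
  have := sbA h 100 (g := wt1 ++ wt2) (x := pw [1]) (y := pw [3]) (by decide +kernel)
  simp only [wv_append, wv_t1, wv_t2, wv_pw1] at this
  exact this

theorem T_2 : SemiconjBy (t1 a * t2 a) (a 2) (a 4) := by
  have := sbA h 100 (g := wt1 ++ wt2) (x := pw [2]) (y := pw [4]) (by decide +kernel)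
  simp only [wv_append, wv_t1, wv_t2, wv_pw1] at this
  exact this

theorem T_3 : SemiconjBy (t1 a * t2 a) (a 3) (a 5) := by
  have := sbA h 100 (g := wt1 ++ wt2) (x := pw [3]) (y := pw [5]) (by decide +kernel)
  simp only [wv_append, wv_t1, wv_t2, wv_pw1] at this
  exact this

theorem tbr' : t1 a * t2 a * t1 a = t2 a * t1 a * t2 a := by
  have := eqA h 100 (w := wt1 ++ wt2 ++ wt1) (w' := wt2 ++ wt1 ++ wt2) (by decide +kernel)
  simp only [wv_append, wv_t1, wv_t2] at this
  exact this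

theorem A5_1 : Commute (A5 a) (a 1) := by
  have := sbA h 100 (g := wA5) (x := pw [1]) (y := pw [1]) (by decide +kernel)
  simp only [wv_A5, wv_pw1] at this
  exact this

theorem A5_2 : Commute (A5 a) (a 2) := by
  have := sbA h 100 (g := wA5) (x := pw [2]) (y := pw [2]) (by decide +kernel)
  simp only [wv_A5, wv_pw1] at this
  exact this

theorem A5_3 : Commute (A5 a) (a 3) := by
  have := sbA h 100 (g := wA5) (x := pw [3]) (y := pw [3]) (by decide +kernel)
  simp only [wv_A5, wv_pw1] at this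
  exact this

theorem b0_1 : Commute (b0 a) (a 1) :=
  cm_of_sb (sb_cj_self (A5 a) (a 0)) h.A5_1 (h.cm' (by decide))

theorem b0_2 : Commute (b0 a) (a 2) :=
  cm_of_sb (sb_cj_self (A5 a) (a 0)) h.A5_2 (h.cm' (by decide))

theorem b0_3 : Commute (b0 a) (a 3) :=
  cm_of_sb (sb_cj_self (A5 a) (a 0)) h.A5_3 (h.cm' (by decide))

theorem tttt : t2 a * t1 a * (t1 a * t2 a) * a 5 = A5 a * a 5 * A5 a := by
  have := eqA h 100 (w := wt2 ++ wt1 ++ (wt1 ++ wt2) ++ pw [5]) (w' := wA5 ++ pw [5] ++ wA5)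
    (by decide +kernel)
  simp only [wv_append, wv_t1, wv_t2, wv_A5, wv_pw1] at this
  exact this

omit h in
theorem wv_io : wv a (pw [6, 5] ++ wA5 ++ pw [5, 6]) = io a := by
  simp only [wv_append, wv_A5, wv_65, io]
  simp [pw, wv]

theorem io_1 : Commute (io a) (a 1) := by
  have := sbA h 100 (g := pw [6, 5] ++ wA5 ++ pw [5, 6]) (x := pw [1]) (y := pw [1])
    (by decide +kernel)
  simp only [wv_io, wv_pw1] at this
  exact this

theorem io_2 : Commute (io a) (a 2) := by
  have := sbA h 100 (g := pw [6, 5] ++ wA5 ++ pw [5, 6]) (x := pw [2]) (y := pw [2])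
    (by decide +kernel)
  simp only [wv_io, wv_pw1] at this
  exact this

theorem io_3 : Commute (io a) (a 3) := by
  have := sbA h 100 (g := pw [6, 5] ++ wA5 ++ pw [5, 6]) (x := pw [3]) (y := pw [3])
    (by decide +kernel)
  simp only [wv_io, wv_pw1] at this
  exact this

theorem io_4 : Commute (io a) (a 4) := by
  have := sbA h 100 (g := pw [6, 5] ++ wA5 ++ pw [5, 6]) (x := pw [4]) (y := pw [4])
    (by decide +kernel)
  simp only [wv_io, wv_pw1] at this
  exact this

theorem io_5 : Commute (io a) (a 5) := by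
  have := sbA h 100 (g := pw [6, 5] ++ wA5 ++ pw [5, 6]) (x := pw [5]) (y := pw [5])
    (by decide +kernel)
  simp only [wv_io, wv_pw1] at this
  exact this

theorem io_t1 : Commute (io a) (t1 a) :=
  ((h.io_2.mul_right h.io_3).mul_right h.io_1).mul_right h.io_2

theorem io_t2 : Commute (io a) (t2 a) :=
  ((h.io_4.mul_right h.io_5).mul_right h.io_3).mul_right h.io_4

omit h in
theorem b1_sb : SemiconjBy (t2 a) (b1 a) (a 0) := sb_cji_self _ _

omit h in
theorem b2_sb : SemiconjBy (t1 a) (b2 a) (b1 a) := sb_cji_self _ _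

omit h in
theorem b1'_sb : SemiconjBy (t2 a) (b1' a) (b0 a) := sb_cji_self _ _

omit h in
theorem e2_sb : SemiconjBy (t1 a) (e2 a) (b1' a) := sb_cji_self _ _

theorem b1_1 : Commute (b1 a) (a 1) :=
  cm_of_sb (sb_inv b1_sb) (sb_inv h.t2_1) (h.cm' (by decide))

theorem b1_3 : Commute (b1 a) (a 3) :=
  cm_of_sb (sb_inv b1_sb) (sb_inv h.t2_3) (h.cm' (by decide))

theorem b1_5 : Commute (b1 a) (a 5) :=
  cm_of_sb (sb_inv b1_sb) (sb_inv h.t2_5) (h.cm' (by decide))

theorem b2_1 : Commute (b2 a) (a 1) :=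
  cm_of_sb (sb_inv b2_sb) (sb_inv h.t1_1) h.b1_3

theorem b2_3 : Commute (b2 a) (a 3) :=
  cm_of_sb (sb_inv b2_sb) (sb_inv h.t1_3) h.b1_1

theorem b2_5 : Commute (b2 a) (a 5) :=
  cm_of_sb (sb_inv b2_sb) (sb_inv h.t1_5) h.b1_5

theorem b3_2 : Commute (b3 a) (a 2) := by
  have := sbA h 300 (g := wb3) (x := pw [2]) (y := pw [2]) (by decide +kernel)
  simp only [wv_b3, wv_pw1] at this
  exact this

theorem b3_4 : Commute (b3 a) (a 4) := by
  have := sbA h 300 (g := wb3) (x := pw [4]) (y := pw [4]) (by decide +kernel)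
  simp only [wv_b3, wv_pw1] at this
  exact this

theorem ch345 : (a 3 * a 4 * a 5) ^ 4 = t2 a * t2 a * (a 3 ^ 2 * a 5 ^ 2) := by
  have := eqA h 300 (w := (pw [3] ++ pw [4] ++ pw [5]) ++ (pw [3] ++ pw [4] ++ pw [5]) ++
    (pw [3] ++ pw [4] ++ pw [5]) ++ (pw [3] ++ pw [4] ++ pw [5]))
    (w' := wt2 ++ wt2 ++ ((pw [3] ++ pw [3]) ++ (pw [5] ++ pw [5]))) (by decide +kernel)
  rw [pow_succ, pow_succ, pow_two, pow_two, pow_two]
  simp only [wv_append, wv_t2, wv_pw1] at this
  exact this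

/-- the lantern curve in other terms, in the Artin group: `t₃⁻¹ b₁ t₃ = b₂` with
`b₃ = (a₁ a₃ a₅)⁻¹ b₁ a₀ b₂` -/
theorem r6_word : (a 6 * ((a 1 * a 3 * a 5)⁻¹ * (b1 a * a 0 * b2 a)) * a 5 * a 6)⁻¹ * b1 a *
    (a 6 * ((a 1 * a 3 * a 5)⁻¹ * (b1 a * a 0 * b2 a)) * a 5 * a 6) = b2 a := by
  have := eqA h 300 (w := ivw (pw [6] ++ (ivw (pw [1] ++ pw [3] ++ pw [5]) ++
      (wb1 ++ pw [0] ++ wb2)) ++ pw [5] ++ pw [6]) ++ wb1 ++
      (pw [6] ++ (ivw (pw [1] ++ pw [3] ++ pw [5]) ++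
      (wb1 ++ pw [0] ++ wb2)) ++ pw [5] ++ pw [6])) (w' := wb2) (by decide +kernel)
  simp only [wv_append, wv_ivw, wv_b1, wv_b2, wv_pw1] at this
  exact this

/-- (R9), the computation: `a₃⁻¹ a₄ a₃` in terms of `γ` -/
theorem r9_word : a 2 * ((a 6 * a 5)⁻¹ * ga a * (a 5 * a 6)⁻¹ * a 2 *
    ((a 6 * a 5)⁻¹ * ga a * (a 5 * a 6)⁻¹)⁻¹) * (a 2)⁻¹ = (a 3)⁻¹ * a 4 * a 3 := by
  have := eqA h 300 (w := pw [2] ++ (ivw (pw [6] ++ pw [5]) ++ wga ++ ivw (pw [5] ++ pw [6]) ++
      pw [2] ++ ivw (ivw (pw [6] ++ pw [5]) ++ wga ++ ivw (pw [5] ++ pw [6]))) ++ ivw (pw [2]))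
      (w' := ivw (pw [3]) ++ pw [4] ++ pw [3]) (by decide +kernel)
  simp only [wv_append, wv_ivw, wv_ga, wv_pw1] at this
  exact this

end Artin

/-- Braid relations, 3-chain relation and lantern relation. -/
structure Rels (a : Fin 7 → G) : Prop extends Artin a where
  chain : (a 1 * a 2 * a 3) ^ 4 = a 0 * b0 a
  lantern : a 0 * b2 a * b1 a = a 1 * a 3 * a 5 * b3 a

end

end Pool.Agent.H.MP_ee9c6f_al.Asc.R
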