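import Pool.Agent.H.MP_ee9c6f_al.Asc.RB

/-!
MP_ee9c6f_al / Asc (helper38). Genus 3: consequences of the braid, 3-chain and lantern relations,
continued: the relations (R1) - (R9).
-/

set_option autoImplicit false

namespace Pool.Agent.H.MP_ee9c6f_al.Asc.R

section

variable {G : Type*} [Group G] {a : Fin 7 → G}

namespace Rels

open Artin

variable (h : Rels a)

include h

theorem c {i j : Fin 7} (hij : adj i j = false) : Commute (a i) (a j) := h.cm i j hij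

theorem delta_cm {x : G} (h1 : Commute x (a 1)) (h2 : Commute x (a 2)) (h3 : Commute x (a 3)) :
    Commute x (a 0 * b0 a) := by
  rw [← h.chain]
  exact ((h1.mul_right h2).mul_right h3).pow_right 4

theorem cm00 : Commute (a 0) (b0 a) := by
  have e : b0 a = (a 0)⁻¹ * (a 0 * b0 a) := by group
  rw [e]
  exact ((Commute.refl (a 0)).inv_right).mul_right
    (h.delta_cm (h.c (by decide)) (h.c (by decide)) (h.c (by decide)))

theorem b0_cm {x : G} (h0 : Commute x (a 0)) (h1 : Commute x (a 1)) (h2 : Commute x (a 2))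
    (h3 : Commute x (a 3)) : Commute x (b0 a) := by
  have e : b0 a = (a 0)⁻¹ * (a 0 * b0 a) := by group
  rw [e]
  exact h0.inv_right.mul_right (h.delta_cm h1 h2 h3)

theorem b0_5 : Commute (b0 a) (a 5) :=
  (h.b0_cm (h.c (by decide)) (h.c (by decide)) (h.c (by decide)) (h.c (by decide))).symm

theorem b0_6 : Commute (b0 a) (a 6) :=
  (h.b0_cm (h.c (by decide)) (h.c (by decide)) (h.c (by decide)) (h.c (by decide))).symm

omit h in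
theorem A5_0 : SemiconjBy (A5 a) (a 0) (b0 a) := sb_cj_self _ _

theorem A5_b0 : SemiconjBy (A5 a) (b0 a) (a 0) := by
  have k : Commute (A5 a) (a 0 * b0 a) := h.delta_cm h.A5_1 h.A5_2 h.A5_3
  apply sb_of_cj
  have e1 : A5 a * (a 0 * b0 a) * (A5 a)⁻¹ = a 0 * b0 a := sb_cj k
  have e2 : A5 a * a 0 * (A5 a)⁻¹ = b0 a := rfl
  have e3 : (A5 a * a 0 * (A5 a)⁻¹) * (A5 a * b0 a * (A5 a)⁻¹) = b0 a * a 0 := by
    rw [← h.cm00.eq, ← e1]; group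
  rw [e2] at e3
  exact mul_left_cancel e3

/-- (R8) -/
theorem io_0 : SemiconjBy (io a) (a 0) (b0 a) := by
  have k1 : Commute (a 5 * a 6) (a 0) := (h.c (by decide)).mul_left (h.c (by decide))
  have k2 : Commute (a 6 * a 5) (b0 a) := h.b0_6.symm.mul_left h.b0_5.symm
  exact (SemiconjBy.mul_left k2 A5_0).mul_left k1

theorem io_b0 : SemiconjBy (io a) (b0 a) (a 0) := by
  have k1 : Commute (a 5 * a 6) (b0 a) := h.b0_5.symm.mul_left h.b0_6.symm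
  have k2 : Commute (a 6 * a 5) (a 0) := (h.c (by decide)).mul_left (h.c (by decide))
  exact (SemiconjBy.mul_left k2 h.A5_b0).mul_left k1

/-- (R8) -/
theorem io_b1 : SemiconjBy (io a) (b1 a) (b1' a) := by
  have k : SemiconjBy (io a) ((t2 a)⁻¹ * a 0 * t2 a) ((t2 a)⁻¹ * b0 a * t2 a) :=
    (SemiconjBy.mul_right h.io_t2.inv_right h.io_0).mul_right h.io_t2
  exact k

/-- (R8) -/
theorem io_b2 : SemiconjBy (io a) (b2 a) (e2 a) := by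
  have k : SemiconjBy (io a) ((t1 a)⁻¹ * b1 a * t1 a) ((t1 a)⁻¹ * b1' a * t1 a) :=
    (SemiconjBy.mul_right h.io_t1.inv_right h.io_b1).mul_right h.io_t1
  exact k

theorem io_b1' : SemiconjBy (io a) (b1' a) (b1 a) := by
  have k : SemiconjBy (io a) ((t2 a)⁻¹ * b0 a * t2 a) ((t2 a)⁻¹ * a 0 * t2 a) :=
    (SemiconjBy.mul_right h.io_t2.inv_right h.io_b0).mul_right h.io_t2
  exact k

theorem t1_b0 : Commute (t1 a) (b0 a) :=
  ((h.b0_2.symm.mul_left h.b0_3.symm).mul_left h.b0_1.symm).mul_left h.b0_2.symm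

/-- `t₂ t₁ t₁ t₂` fixes `a₀`. -/
theorem tttt_0 : Commute (t2 a * t1 a * (t1 a * t2 a)) (a 0) := by
  have k : SemiconjBy (A5 a * a 5 * A5 a) (a 0) (a 0) :=
    (h.A5_b0.mul_left h.b0_5.symm).mul_left A5_0
  have e : t2 a * t1 a * (t1 a * t2 a) = (A5 a * a 5 * A5 a) * (a 5)⁻¹ := by
    rw [← h.tttt]; group
  rw [e]
  have k5 : Commute (a 5) (a 0) := h.c (by decide)
  exact SemiconjBy.mul_left k k5.inv_left

/-- `b₂ = t₁ t₂ a₀ (t₁ t₂)⁻¹` -/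
theorem b2_sb' : SemiconjBy (t1 a * t2 a) (a 0) (b2 a) := by
  apply sb_of_cj
  have k := h.tttt_0
  have e1 : t2 a * t1 a * (t1 a * t2 a) * a 0 * (t2 a * t1 a * (t1 a * t2 a))⁻¹ = a 0 := sb_cj k
  have e2 : b2 a = (t2 a * t1 a)⁻¹ * a 0 * (t2 a * t1 a) := by
    simp only [b2, b1]; group
  rw [e2]
  nth_rewrite 2 [← e1]
  group

omit h in
theorem comm135 {x : G} (h1 : Commute x (a 1)) (h3 : Commute x (a 3)) (h5 : Commute x (a 5)) :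
    Commute x (a 1 * a 3 * a 5) := (h1.mul_right h3).mul_right h5

theorem b3_eq : b3 a = (a 1 * a 3 * a 5)⁻¹ * (a 0 * b2 a * b1 a) := by rw [h.lantern]; group

theorem b3_1 : Commute (b3 a) (a 1) := by
  rw [h.b3_eq]
  have k : Commute (a 1) (a 1 * a 3 * a 5) :=
    comm135 (Commute.refl _) (h.c (by decide)) (h.c (by decide))
  have k0 : Commute (a 0) (a 1) := h.c (by decide)
  exact k.symm.inv_left.mul_left ((k0.mul_left h.b2_1).mul_left h.b1_1)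

theorem b3_3 : Commute (b3 a) (a 3) := by
  rw [h.b3_eq]
  have k : Commute (a 3) (a 1 * a 3 * a 5) :=
    comm135 (h.c (by decide)) (Commute.refl _) (h.c (by decide))
  have k0 : Commute (a 0) (a 3) := h.c (by decide)
  exact k.symm.inv_left.mul_left ((k0.mul_left h.b2_3).mul_left h.b1_3)

theorem b3_5 : Commute (b3 a) (a 5) := by
  rw [h.b3_eq]
  have k : Commute (a 5) (a 1 * a 3 * a 5) :=
    comm135 (h.c (by decide)) (h.c (by decide)) (Commute.refl _)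
  have k0 : Commute (a 0) (a 5) := h.c (by decide)
  exact k.symm.inv_left.mul_left ((k0.mul_left h.b2_5).mul_left h.b1_5)

theorem t1_b3 : Commute (t1 a) (b3 a) :=
  ((h.b3_2.symm.mul_left h.b3_3.symm).mul_left h.b3_1.symm).mul_left h.b3_2.symm

theorem t2_b3 : Commute (t2 a) (b3 a) :=
  ((h.b3_4.symm.mul_left h.b3_5.symm).mul_left h.b3_3.symm).mul_left h.b3_4.symm

/-- `C = a₀ b₂ b₁` commutes with `t₁`. -/
theorem C_t1 : SemiconjBy (t1 a) (a 0 * b2 a * b1 a) (a 0 * b2 a * b1 a) := by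
  rw [h.lantern]
  have k : SemiconjBy (t1 a) (a 1 * a 3 * a 5) (a 3 * a 1 * a 5) :=
    (h.t1_1.mul_right h.t1_3).mul_right h.t1_5
  have k31 : Commute (a 3) (a 1) := h.c (by decide)
  rw [k31.eq] at k
  exact k.mul_right h.t1_b3

/-- `C = a₀ b₂ b₁` commutes with `t₂`. -/
theorem C_t2 : SemiconjBy (t2 a) (a 0 * b2 a * b1 a) (a 0 * b2 a * b1 a) := by
  rw [h.lantern]
  have k : SemiconjBy (t2 a) (a 1 * a 3 * a 5) (a 1 * a 5 * a 3) :=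
    (SemiconjBy.mul_right h.t2_1 h.t2_3).mul_right h.t2_5
  have k35 : Commute (a 5) (a 3) := h.c (by decide)
  have e : a 1 * a 5 * a 3 = a 1 * a 3 * a 5 := by rw [mul_assoc, k35.eq, ← mul_assoc]
  rw [e] at k
  exact k.mul_right h.t2_b3

theorem T_b1 : SemiconjBy (t1 a * t2 a) (b1 a) (a 0) :=
  SemiconjBy.mul_left h.t1_0 b1_sb

theorem T_b2 : SemiconjBy (t1 a * t2 a) (b2 a) (b1 a) := by
  have e : t1 a * t2 a = (t2 a)⁻¹ * t1 a * (t2 a * t1 a) := by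
    have := h.tbr'
    calc t1 a * t2 a = (t2 a)⁻¹ * (t2 a * t1 a * t2 a) := by group
      _ = (t2 a)⁻¹ * (t1 a * t2 a * t1 a) := by rw [this]
      _ = _ := by group
  rw [e]
  have k1 : SemiconjBy (t2 a * t1 a) (b2 a) (a 0) := b1_sb.mul_left b2_sb
  have k2 : SemiconjBy ((t2 a)⁻¹ * t1 a) (a 0) (b1 a) :=
    SemiconjBy.mul_left (sb_inv b1_sb) h.t1_0
  exact k2.mul_left k1

/-- `C = b₂ b₁ a₀`. -/
theorem C_eq : a 0 * b2 a * b1 a = b2 a * b1 a * a 0 := by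
  have k1 : SemiconjBy (t1 a * t2 a) (a 0 * b2 a * b1 a) (a 0 * b2 a * b1 a) :=
    h.C_t1.mul_left h.C_t2
  have k2 : SemiconjBy (t1 a * t2 a) (a 0 * b2 a * b1 a) (b2 a * b1 a * a 0) :=
    (h.b2_sb'.mul_right h.T_b2).mul_right h.T_b1
  rw [← sb_cj k1, sb_cj k2]

/-- `C = b₁ a₀ b₂`. -/
theorem C_eq' : a 0 * b2 a * b1 a = b1 a * a 0 * b2 a := by
  have k1 : SemiconjBy (t1 a * t2 a) (b2 a * b1 a * a 0) (b2 a * b1 a * a 0) := by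
    rw [← h.C_eq]
    exact h.C_t1.mul_left h.C_t2
  have k2 : SemiconjBy (t1 a * t2 a) (b2 a * b1 a * a 0) (b1 a * a 0 * b2 a) :=
    (h.T_b2.mul_right h.T_b1).mul_right h.b2_sb'
  rw [h.C_eq, ← sb_cj k1, sb_cj k2]

theorem t2_b2 : Commute (t2 a) (b2 a) := by
  have k1 : SemiconjBy (t2 a * (t1 a * t2 a)) (a 0) (b2 a) := by
    have e : t2 a * (t1 a * t2 a) = (t1 a * t2 a) * t1 a := by
      rw [h.tbr', mul_assoc]
    rw [e]
    exact h.b2_sb'.mul_left h.t1_0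
  have e1 := sb_cj k1
  have e2 := sb_cj h.b2_sb'
  have : t2 a * b2 a * (t2 a)⁻¹ = b2 a := by
    calc t2 a * b2 a * (t2 a)⁻¹
        = t2 a * (t1 a * t2 a * a 0 * (t1 a * t2 a)⁻¹) * (t2 a)⁻¹ := by rw [e2]
      _ = t2 a * (t1 a * t2 a) * a 0 * (t2 a * (t1 a * t2 a))⁻¹ := by group
      _ = b2 a := e1
  exact sb_of_cj this

/-- `(t₂ a₀ t₂⁻¹) b₂ = b₂ b₁` -/
theorem key1 : t2 a * a 0 * (t2 a)⁻¹ * b2 a = b2 a * b1 a := by
  have k1 : SemiconjBy (t2 a) (a 0 * b2 a * b1 a) (t2 a * a 0 * (t2 a)⁻¹ * b2 a * a 0) :=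
    ((sb_cj_self (t2 a) (a 0)).mul_right h.t2_b2).mul_right b1_sb
  have e := (sb_cj k1).symm.trans (sb_cj h.C_t2)
  rw [h.C_eq] at e
  exact mul_right_cancel e

/-- `(t₂²)⁻¹ a₀ t₂² = b₂⁻¹ a₀ b₂` -/
theorem key2 : (t2 a * t2 a)⁻¹ * a 0 * (t2 a * t2 a) = (b2 a)⁻¹ * a 0 * b2 a := by
  have k2 : (t2 a)⁻¹ * b2 a * t2 a = b2 a := by
    have := sb_cj (sb_inv h.t2_b2)
    rwa [inv_inv] at this
  have e : (b2 a)⁻¹ * ((t2 a)⁻¹ * (t2 a * a 0 * (t2 a)⁻¹ * b2 a) * t2 a) =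
      (b2 a)⁻¹ * ((t2 a)⁻¹ * (b2 a * b1 a) * t2 a) := by rw [h.key1]
  have e1 : (b2 a)⁻¹ * ((t2 a)⁻¹ * (t2 a * a 0 * (t2 a)⁻¹ * b2 a) * t2 a) =
      (b2 a)⁻¹ * a 0 * ((t2 a)⁻¹ * b2 a * t2 a) := by group
  have e2 : (b2 a)⁻¹ * ((t2 a)⁻¹ * (b2 a * b1 a) * t2 a) =
      (b2 a)⁻¹ * ((t2 a)⁻¹ * b2 a * t2 a) * ((t2 a)⁻¹ * b1 a * t2 a) := by group
  rw [e1, e2, k2, inv_mul_cancel, one_mul] at e
  rw [e]
  simp only [b1]
  group

/-- `e₂ = t₁ t₂ b₀ (t₁ t₂)⁻¹` -/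
theorem e2_sb' : SemiconjBy (t1 a * t2 a) (b0 a) (e2 a) := by
  have k1 : SemiconjBy (io a) (t1 a * t2 a * a 0 * (t1 a * t2 a)⁻¹)
      (t1 a * t2 a * b0 a * (t1 a * t2 a)⁻¹) :=
    (SemiconjBy.mul_right (h.io_t1.mul_right h.io_t2) h.io_0).mul_right
      (h.io_t1.mul_right h.io_t2).inv_right
  rw [sb_cj h.b2_sb'] at k1
  have e := (sb_cj k1).symm.trans (sb_cj h.io_b2)
  rw [← e]
  exact sb_cj_self _ _

/-- `b₂ e₂ = (a₃ a₄ a₅)⁴` -/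
theorem b2_e2 : b2 a * e2 a = t2 a * t2 a * (a 3 ^ 2 * a 5 ^ 2) := by
  have k1 : SemiconjBy (t1 a * t2 a) ((a 1 * a 2 * a 3) ^ 4) ((a 3 * a 4 * a 5) ^ 4) :=
    ((h.T_1.mul_right h.T_2).mul_right h.T_3).pow_right 4
  have k2 : SemiconjBy (t1 a * t2 a) (a 0 * b0 a) (b2 a * e2 a) :=
    h.b2_sb'.mul_right h.e2_sb'
  rw [h.chain] at k1
  rw [← sb_cj k2, sb_cj k1, h.ch345]

theorem b2_e2_cm : Commute (b2 a) (e2 a) := cm_of_sb h.b2_sb' h.e2_sb' h.cm00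

/-- `a₀` commutes with `e₂`. -/
theorem a0_e2 : Commute (a 0) (e2 a) := by
  have k3 : e2 a = (t2 a * t2 a * (a 3 ^ 2 * a 5 ^ 2)) * (b2 a)⁻¹ := by
    rw [← h.b2_e2, h.b2_e2_cm.eq]; group
  have k03 : Commute (a 3) (a 0) := h.c (by decide)
  have k05 : Commute (a 5) (a 0) := h.c (by decide)
  have k4 : Commute (a 3 ^ 2 * a 5 ^ 2) (a 0) := (k03.pow_left 2).mul_left (k05.pow_left 2)
  have k6 : (a 3 ^ 2 * a 5 ^ 2) * (t2 a * t2 a) = (t2 a * t2 a) * (a 3 ^ 2 * a 5 ^ 2) := by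
    have f1 : SemiconjBy (t2 a * t2 a) (a 3) (a 3) := h.t2_5.mul_left h.t2_3
    have f2 : SemiconjBy (t2 a * t2 a) (a 5) (a 5) := h.t2_3.mul_left h.t2_5
    exact ((f1.pow_right 2).mul_right (f2.pow_right 2)).eq.symm
  have k5 : (e2 a)⁻¹ * a 0 * e2 a = a 0 := by
    have f3 : (a 3 ^ 2 * a 5 ^ 2)⁻¹ * a 0 * (a 3 ^ 2 * a 5 ^ 2) = a 0 := by
      have := sb_cj (sb_inv k4)
      rwa [inv_inv] at this
    have k3' : e2 a = ((a 3 ^ 2 * a 5 ^ 2) * (t2 a * t2 a)) * (b2 a)⁻¹ := by rw [k6, k3]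
    calc (e2 a)⁻¹ * a 0 * e2 a
        = b2 a * ((t2 a * t2 a)⁻¹ * ((a 3 ^ 2 * a 5 ^ 2)⁻¹ * a 0 * (a 3 ^ 2 * a 5 ^ 2)) *
            (t2 a * t2 a)) * (b2 a)⁻¹ := by
          rw [k3']
          group
      _ = b2 a * ((b2 a)⁻¹ * a 0 * b2 a) * (b2 a)⁻¹ := by rw [f3, h.key2]
      _ = a 0 := by group
  have k7 : a 0 * e2 a = e2 a * a 0 := by
    nth_rewrite 2 [← k5]
    group
  exact k7

theorem a0_b1' : Commute (a 0) (b1' a) := cm_of_sb h.t1_0 e2_sb h.a0_e2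

/-- `b₀` and `b₁` commute. -/
theorem b0_b1 : Commute (b0 a) (b1 a) := cm_of_sb h.io_0 h.io_b1' h.a0_b1'

theorem b0_b2 : Commute (b0 a) (b2 a) :=
  cm_of_sb (sb_inv h.t1_b0) (sb_inv b2_sb) h.b0_b1

theorem b1'_b2 : Commute (b1' a) (b2 a) :=
  cm_of_sb (sb_inv b1'_sb) (sb_inv h.t2_b2) h.b0_b2

theorem b1_b1' : Commute (b1 a) (b1' a) := cm_of_sb (sb_inv b1_sb) (sb_inv b1'_sb) h.cm00

theorem b1_e2 : Commute (b1 a) (e2 a) := cm_of_sb h.io_b1' h.io_b2 h.b1'_b2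

theorem a1_b1' : Commute (a 1) (b1' a) :=
  cm_of_sb (sb_inv h.t2_1) (sb_inv b1'_sb) h.b0_1.symm

theorem a3_b1' : Commute (a 3) (b1' a) :=
  cm_of_sb (sb_inv h.t2_3) (sb_inv b1'_sb) h.b0_5.symm

theorem a5_b1' : Commute (a 5) (b1' a) :=
  cm_of_sb (sb_inv h.t2_5) (sb_inv b1'_sb) h.b0_3.symm

theorem a1_e2 : Commute (a 1) (e2 a) := cm_of_sb (sb_inv h.t1_1) (sb_inv e2_sb) h.a3_b1'

theorem a3_e2 : Commute (a 3) (e2 a) := cm_of_sb (sb_inv h.t1_3) (sb_inv e2_sb) h.a1_b1'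

theorem a5_e2 : Commute (a 5) (e2 a) := cm_of_sb (sb_inv h.t1_5) (sb_inv e2_sb) h.a5_b1'

/-- `a₀` commutes with `C`, hence with `b₃` -/
theorem b3_0 : Commute (b3 a) (a 0) := by
  rw [h.b3_eq]
  have k : Commute (a 0) (a 1 * a 3 * a 5) :=
    comm135 (h.c (by decide)) (h.c (by decide)) (h.c (by decide))
  have k2 : Commute (a 0 * b2 a * b1 a) (a 0) := by
    show a 0 * b2 a * b1 a * a 0 = a 0 * (a 0 * b2 a * b1 a)
    nth_rewrite 2 [h.C_eq]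
    simp only [mul_assoc]
  exact k.symm.inv_left.mul_left k2

theorem b3_b0 : Commute (b3 a) (b0 a) :=
  h.b0_cm h.b3_0 h.b3_1 h.b3_2 h.b3_3

theorem b3_b1' : Commute (b3 a) (b1' a) :=
  cm_of_sb (sb_inv h.t2_b3) (sb_inv b1'_sb) h.b3_b0

theorem b3_e2 : Commute (b3 a) (e2 a) :=
  cm_of_sb (sb_inv h.t1_b3) (sb_inv e2_sb) h.b3_b1'

/-- the star relation -/
theorem star : a 1 * e2 a * b3 a = (a 0 * a 3 * a 5 * a 4) ^ 3 := by
  rw [← h.star_word]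
  have k03 : Commute (a 3) (a 0) := h.c (by decide)
  have k05 : Commute (a 5) (a 0) := h.c (by decide)
  have k35 : Commute (a 3) (a 5) := h.c (by decide)
  have k13 : Commute (a 1) (a 3) := h.c (by decide)
  have k15 : Commute (a 1) (a 5) := h.c (by decide)
  -- `e₂ = b₂⁻¹ t₂² a₃² a₅²`
  have e1 : e2 a = (b2 a)⁻¹ * (t2 a * t2 a * (a 3 ^ 2 * a 5 ^ 2)) := by
    rw [← h.b2_e2]; group
  have e2' : (t2 a * t2 a) * a 0 * (t2 a * t2 a)⁻¹ = b2 a * a 0 * (b2 a)⁻¹ := by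
    have hk := h.key2
    have c2 : Commute (t2 a * t2 a) (b2 a) := h.t2_b2.mul_left h.t2_b2
    have : a 0 = (t2 a * t2 a) * ((b2 a)⁻¹ * a 0 * b2 a) * (t2 a * t2 a)⁻¹ := by
      rw [← hk]; group
    have c3 : (t2 a * t2 a) * (b2 a)⁻¹ = (b2 a)⁻¹ * (t2 a * t2 a) := c2.inv_right.eq
    have c4 : b2 a * (t2 a * t2 a)⁻¹ = (t2 a * t2 a)⁻¹ * b2 a := c2.inv_left.symm.eq
    have : a 0 = (b2 a)⁻¹ * ((t2 a * t2 a) * a 0 * (t2 a * t2 a)⁻¹) * b2 a := by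
      calc a 0 = (t2 a * t2 a) * ((b2 a)⁻¹ * a 0 * b2 a) * (t2 a * t2 a)⁻¹ := this
        _ = ((t2 a * t2 a) * (b2 a)⁻¹) * a 0 * (b2 a * (t2 a * t2 a)⁻¹) := by group
        _ = ((b2 a)⁻¹ * (t2 a * t2 a)) * a 0 * ((t2 a * t2 a)⁻¹ * b2 a) := by rw [c3, c4]
        _ = _ := by group
    nth_rewrite 2 [this]
    group
  -- commuting letters
  have m1 : Commute (a 3 ^ 2 * a 5 ^ 2) (a 3) :=
    ((Commute.refl (a 3)).pow_left 2).mul_left (k35.symm.pow_left 2)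
  have hb3 : (a 3 ^ 2 * a 5 ^ 2) * (a 1 * b3 a) = a 3 * a 5 * (a 0 * b2 a * b1 a) := by
    rw [h.b3_eq]
    have s1 : (a 1 * a 3 * a 5)⁻¹ = (a 3)⁻¹ * (a 5)⁻¹ * (a 1)⁻¹ := by
      have : a 1 * a 3 * a 5 = a 1 * (a 5 * a 3) := by rw [mul_assoc, k35.eq]
      rw [this]; group
    have s2 : a 3 ^ 2 * a 5 ^ 2 = a 3 * a 5 * (a 5 * a 3) := by
      rw [pow_two, pow_two, ← k35.eq]
      calc a 3 * a 3 * (a 5 * a 5) = a 3 * (a 3 * a 5) * a 5 := by group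
        _ = a 3 * (a 5 * a 3) * a 5 := by rw [k35.eq]
        _ = _ := by group
    have s3 : (a 3)⁻¹ * (a 5)⁻¹ * (a 1)⁻¹ = (a 1)⁻¹ * ((a 3)⁻¹ * (a 5)⁻¹) := by
      have : Commute ((a 3)⁻¹ * (a 5)⁻¹) (a 1)⁻¹ :=
        k13.symm.inv_inv.mul_left k15.symm.inv_inv
      exact this.eq
    rw [s1, s3, s2]
    group
  have hC : a 3 * a 5 * (a 0 * b2 a * b1 a) = a 0 * b2 a * b1 a * (a 3 * a 5) := by
    have f3 : Commute (a 3) (a 0 * b2 a * b1 a) :=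
      (k03.mul_right h.b2_3.symm).mul_right h.b1_3.symm
    have f5 : Commute (a 5) (a 0 * b2 a * b1 a) :=
      (k05.mul_right h.b2_5.symm).mul_right h.b1_5.symm
    exact (f3.mul_left f5).eq
  have h1 : a 1 * e2 a = e2 a * a 1 := h.a1_e2.eq
  have k2 : Commute (t2 a * t2 a) (b2 a) := h.t2_b2.mul_left h.t2_b2
  have b1def : t2 a * b1 a = a 0 * t2 a := by simp only [b1]; group
  calc a 1 * e2 a * b3 a = e2 a * (a 1 * b3 a) := by rw [h1, mul_assoc]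
    _ = (b2 a)⁻¹ * (t2 a * t2 a) * ((a 3 ^ 2 * a 5 ^ 2) * (a 1 * b3 a)) := by
      rw [e1]; simp only [mul_assoc]
    _ = (b2 a)⁻¹ * (t2 a * t2 a) * (a 0 * b2 a * b1 a * (a 3 * a 5)) := by rw [hb3, hC]
    _ = (b2 a)⁻¹ * ((t2 a * t2 a) * a 0 * (t2 a * t2 a)⁻¹) * ((t2 a * t2 a) * b2 a) * b1 a *
          (a 3 * a 5) := by group
    _ = (b2 a)⁻¹ * (b2 a * a 0 * (b2 a)⁻¹) * (b2 a * (t2 a * t2 a)) * b1 a * (a 3 * a 5) := by
      rw [e2', k2.eq]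
    _ = a 0 * t2 a * (t2 a * b1 a) * (a 3 * a 5) := by group
    _ = a 0 * t2 a * (a 0 * t2 a) * (a 3 * a 5) := by rw [b1def]
    _ = _ := by simp only [mul_assoc]

/-- (R4) -/
theorem ga_e2' : SemiconjBy (ga a) (e2 a) (b3 a) := by
  apply sb_of_cj
  rw [h.ga_e2, ← h.b3_1.eq]
  group

/-- (R4) -/
theorem ga_b3 : SemiconjBy (ga a) (b3 a) (e2 a) := by
  have k : Commute (ga a) (a 1 * e2 a * b3 a) := by
    rw [h.star]
    exact h.ga_star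
  have k1 : Commute (ga a) (e2 a * b3 a) := by
    have e : e2 a * b3 a = (a 1)⁻¹ * (a 1 * e2 a * b3 a) := by group
    rw [e]
    exact h.ga_1.inv_right.mul_right k
  apply sb_of_cj
  have e1 : ga a * (e2 a * b3 a) * (ga a)⁻¹ = e2 a * b3 a := sb_cj k1
  have e2' : ga a * e2 a * (ga a)⁻¹ = b3 a := sb_cj h.ga_e2'
  have e3 : (ga a * e2 a * (ga a)⁻¹) * (ga a * b3 a * (ga a)⁻¹) = b3 a * e2 a := by
    rw [h.b3_e2.eq, ← e1]; group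
  rw [e2'] at e3
  exact mul_left_cancel e3

theorem t3_0 : Commute (t3 a) (a 0) := by
  have k6 : Commute (a 6) (a 0) := h.c (by decide)
  have k5 : Commute (a 5) (a 0) := h.c (by decide)
  exact ((k6.mul_left h.b3_0).mul_left k5).mul_left k6

/-- (R6) -/
theorem t3_b2 : SemiconjBy (t3 a) (b2 a) (b1 a) := by
  have := h.r6_word
  rw [← h.C_eq', ← h.b3_eq] at this
  rw [← this]
  exact sb_cji_self _ _

theorem t3_5 : SemiconjBy (t3 a) (a 5) (b3 a) := by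
  -- `t₃ = a₆ b₃ a₅ a₆`
  have b56 : a 5 * a 6 * a 5 = a 6 * a 5 * a 6 := h.br 5 6 (by decide)
  have s1 : SemiconjBy (a 5 * a 6) (a 5) (a 6) := by
    change a 5 * a 6 * a 5 = a 6 * (a 5 * a 6)
    rw [b56, mul_assoc]
  have s2 : SemiconjBy (a 6 * b3 a) (a 6) (b3 a) := by
    change a 6 * b3 a * a 6 = b3 a * (a 6 * b3 a)
    rw [← h.br_b3_6, mul_assoc]
  have e : t3 a = (a 6 * b3 a) * (a 5 * a 6) := by simp [t3, mul_assoc]
  rw [e]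
  exact s2.mul_left s1

theorem t3_b3 : SemiconjBy (t3 a) (b3 a) (a 5) := by
  have b56 : a 5 * a 6 * a 5 = a 6 * a 5 * a 6 := h.br 5 6 (by decide)
  have s1 : SemiconjBy (b3 a * a 6) (b3 a) (a 6) := by
    change b3 a * a 6 * b3 a = a 6 * (b3 a * a 6)
    rw [h.br_b3_6, mul_assoc]
  have s2 : SemiconjBy (a 6 * a 5) (a 6) (a 5) := by
    change a 6 * a 5 * a 6 = a 5 * (a 6 * a 5)
    rw [← b56, mul_assoc]
  have e : t3 a = (a 6 * a 5) * (b3 a * a 6) := by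
    simp only [t3, mul_assoc]
    rw [← mul_assoc (b3 a), h.b3_5.eq, mul_assoc]
  rw [e]
  exact s2.mul_left s1

theorem t3_1 : Commute (t3 a) (a 1) := by
  have k6 : Commute (a 6) (a 1) := h.c (by decide)
  have k5 : Commute (a 5) (a 1) := h.c (by decide)
  exact ((k6.mul_left h.b3_1).mul_left k5).mul_left k6

theorem t3_2 : Commute (t3 a) (a 2) := by
  have k6 : Commute (a 6) (a 2) := h.c (by decide)
  have k5 : Commute (a 5) (a 2) := h.c (by decide)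
  exact ((k6.mul_left h.b3_2).mul_left k5).mul_left k6

theorem t3_3 : Commute (t3 a) (a 3) := by
  have k6 : Commute (a 6) (a 3) := h.c (by decide)
  have k5 : Commute (a 5) (a 3) := h.c (by decide)
  exact ((k6.mul_left h.b3_3).mul_left k5).mul_left k6

theorem t1_t3 : Commute (t1 a) (t3 a) :=
  ((h.t3_2.symm.mul_left h.t3_3.symm).mul_left h.t3_1.symm).mul_left h.t3_2.symm

theorem xx_eq : xx a = (t2 a * t3 a) * (t1 a * t2 a) := by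
  unfold xx
  calc t2 a * t1 a * t3 a * t2 a = t2 a * (t1 a * t3 a) * t2 a := by group
    _ = t2 a * (t3 a * t1 a) * t2 a := by rw [h.t1_t3.eq]
    _ = _ := by group

/-- `U = t₂ t₃` -/
theorem U_3 : SemiconjBy (t2 a * t3 a) (a 3) (a 5) :=
  SemiconjBy.mul_left h.t2_3 h.t3_3

theorem U_5 : SemiconjBy (t2 a * t3 a) (a 5) (b3 a) :=
  SemiconjBy.mul_left h.t2_b3 h.t3_5

theorem t3_4 : t3 a * a 4 * (t3 a)⁻¹ = a 6 * a 5 * a 4 * (a 6 * a 5)⁻¹ := by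
  have k6 : Commute (a 6) (a 4) := h.c (by decide)
  have e : t3 a = (a 6 * a 5) * (b3 a * a 6) := by
    simp only [t3, mul_assoc]
    rw [← mul_assoc (b3 a), h.b3_5.eq, mul_assoc]
  have k : Commute (b3 a * a 6) (a 4) := h.b3_4.mul_left k6
  have e1 := sb_cj k
  rw [e]
  calc a 6 * a 5 * (b3 a * a 6) * a 4 * (a 6 * a 5 * (b3 a * a 6))⁻¹
      = a 6 * a 5 * (b3 a * a 6 * a 4 * (b3 a * a 6)⁻¹) * (a 6 * a 5)⁻¹ := by group
    _ = _ := by rw [e1]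

theorem U_4 : SemiconjBy (t2 a * t3 a) (a 4) (a 6) := by
  apply sb_of_cj
  have h1 := h.t3_4
  have h2 := eqA h.toArtin 100 (w := wt2 ++ (pw [6] ++ pw [5] ++ pw [4] ++ ivw (pw [6] ++ pw [5])) ++
    ivw wt2) (w' := pw [6]) (by decide +kernel)
  simp only [wv_append, wv_ivw, wv_t2, wv_pw1] at h2
  calc t2 a * t3 a * a 4 * (t2 a * t3 a)⁻¹ = t2 a * (t3 a * a 4 * (t3 a)⁻¹) * (t2 a)⁻¹ := by group
    _ = t2 a * (a 6 * a 5 * a 4 * (a 6 * a 5)⁻¹) * (t2 a)⁻¹ := by rw [h1]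
    _ = a 6 := h2

/-- (R7) -/
theorem xx_1 : SemiconjBy (xx a) (a 1) (a 5) := h.xx_eq ▸ h.U_3.mul_left h.T_1

/-- (R7) -/
theorem xx_2 : SemiconjBy (xx a) (a 2) (a 6) := h.xx_eq ▸ h.U_4.mul_left h.T_2

/-- (R7) -/
theorem xx_3 : SemiconjBy (xx a) (a 3) (b3 a) := h.xx_eq ▸ h.U_5.mul_left h.T_3

theorem U_b2 : SemiconjBy (t2 a * t3 a) (b2 a) (a 0) := b1_sb.mul_left h.t3_b2

/-- (R7) -/
theorem xx_0 : Commute (xx a) (a 0) := h.xx_eq ▸ h.U_b2.mul_left h.b2_sb'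

/-- `C` commutes with `t₃`. -/
theorem C_t3 : SemiconjBy (t3 a) (a 0 * b2 a * b1 a) (a 0 * b2 a * b1 a) := by
  rw [h.lantern]
  have k : SemiconjBy (t3 a) (a 1 * a 3 * a 5 * b3 a) (a 1 * a 3 * b3 a * a 5) :=
    ((SemiconjBy.mul_right h.t3_1 h.t3_3).mul_right h.t3_5).mul_right h.t3_b3
  have e : a 1 * a 3 * b3 a * a 5 = a 1 * a 3 * a 5 * b3 a := by
    rw [mul_assoc, h.b3_5.eq, ← mul_assoc]
  rwa [e] at k

/-- `t₃ b₁ t₃⁻¹ = a₀ b₂ a₀⁻¹` -/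
theorem t3_b1 : SemiconjBy (t3 a) (b1 a) (a 0 * b2 a * (a 0)⁻¹) := by
  apply sb_of_cj
  have k1 : SemiconjBy (t3 a) (b1 a * a 0 * b2 a)
      (t3 a * b1 a * (t3 a)⁻¹ * a 0 * b1 a) :=
    ((sb_cj_self (t3 a) (b1 a)).mul_right h.t3_0).mul_right h.t3_b2
  rw [← h.C_eq'] at k1
  have e := (sb_cj k1).symm.trans (sb_cj h.C_t3)
  calc t3 a * b1 a * (t3 a)⁻¹ = (t3 a * b1 a * (t3 a)⁻¹ * a 0 * b1 a) * (b1 a)⁻¹ * (a 0)⁻¹ := by
        group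
    _ = (a 0 * b2 a * b1 a) * (b1 a)⁻¹ * (a 0)⁻¹ := by rw [e]
    _ = _ := by group

/-- `b₂` commutes with `C`. -/
theorem C_b2 : Commute (a 0 * b2 a * b1 a) (b2 a) := by
  show a 0 * b2 a * b1 a * b2 a = b2 a * (a 0 * b2 a * b1 a)
  nth_rewrite 1 [h.C_eq]
  rw [h.C_eq']
  simp only [mul_assoc]

/-- (R7) -/
theorem xx_b2 : SemiconjBy (xx a) (b2 a) ((a 0)⁻¹ * b2 a * a 0) := by
  have k1 : SemiconjBy (t2 a) (a 0 * b2 a * (a 0)⁻¹)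
      (t2 a * a 0 * (t2 a)⁻¹ * b2 a * (t2 a * a 0 * (t2 a)⁻¹)⁻¹) :=
    ((sb_cj_self (t2 a) (a 0)).mul_right h.t2_b2).mul_right
      (SemiconjBy.inv_right (sb_cj_self (t2 a) (a 0)))
  have k2 : SemiconjBy (xx a) (b2 a)
      (t2 a * a 0 * (t2 a)⁻¹ * b2 a * (t2 a * a 0 * (t2 a)⁻¹)⁻¹) :=
    h.xx_eq ▸ (k1.mul_left h.t3_b1).mul_left h.T_b2
  have e1 : t2 a * a 0 * (t2 a)⁻¹ = b2 a * b1 a * (b2 a)⁻¹ := by
    rw [← h.key1]; group
  have e2 : b2 a * b1 a = (a 0)⁻¹ * (a 0 * b2 a * b1 a) := by group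
  have e3 : t2 a * a 0 * (t2 a)⁻¹ * b2 a * (t2 a * a 0 * (t2 a)⁻¹)⁻¹ = (a 0)⁻¹ * b2 a * a 0 := by
    rw [e1]
    calc b2 a * b1 a * (b2 a)⁻¹ * b2 a * (b2 a * b1 a * (b2 a)⁻¹)⁻¹
        = (b2 a * b1 a) * b2 a * (b2 a * b1 a)⁻¹ := by group
      _ = ((a 0)⁻¹ * (a 0 * b2 a * b1 a)) * b2 a * ((a 0)⁻¹ * (a 0 * b2 a * b1 a))⁻¹ := by
        rw [← e2]
      _ = (a 0)⁻¹ * ((a 0 * b2 a * b1 a) * b2 a * (a 0 * b2 a * b1 a)⁻¹) * a 0 := by group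
      _ = (a 0)⁻¹ * b2 a * a 0 := by rw [sb_cj h.C_b2]
  rwa [e3] at k2

/-- `x⁻¹` maps `b₂` to `a₀ b₂ a₀⁻¹`. -/
theorem xx_b2' : SemiconjBy (xx a) (a 0 * b2 a * (a 0)⁻¹) (b2 a) := by
  have k := ((show SemiconjBy (xx a) (a 0) (a 0) from h.xx_0).mul_right h.xx_b2).mul_right
    (h.xx_0.inv_right)
  have e : a 0 * ((a 0)⁻¹ * b2 a * a 0) * (a 0)⁻¹ = b2 a := by group
  rwa [e] at k

/-- (R9) -/
theorem r9 {H : Subgroup G} (h0 : a 0 ∈ H) (h1 : a 1 ∈ H) (h2 : a 2 ∈ H) (h3 : a 3 ∈ H)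
    (h5 : a 5 ∈ H) (h6 : a 6 ∈ H) (hg : ga a ∈ H) : a 4 ∈ H := by
  have e := h.r9_word
  have m1 : (a 6 * a 5)⁻¹ * ga a * (a 5 * a 6)⁻¹ ∈ H :=
    H.mul_mem (H.mul_mem (H.inv_mem (H.mul_mem h6 h5)) hg) (H.inv_mem (H.mul_mem h5 h6))
  have m2 : (a 3)⁻¹ * a 4 * a 3 ∈ H := by
    rw [← e]
    exact H.mul_mem (H.mul_mem h2 (H.mul_mem (H.mul_mem m1 h2) (H.inv_mem m1))) (H.inv_mem h2)
  have e3 : a 4 = a 3 * ((a 3)⁻¹ * a 4 * a 3) * (a 3)⁻¹ := by group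
  rw [e3]
  exact H.mul_mem (H.mul_mem h3 m2) (H.inv_mem h3)

end Rels

end

end Pool.Agent.H.MP_ee9c6f_al.Asc.R
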