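import Mathlib

/-!
MP_ee9c6f_al / Asc (helper38). Equality of words in the Artin group with the diagram
`1 - 2 - 3 - 4 - 5 - 6`, `0 - 4`, checked by word reversing.
-/

set_option autoImplicit false

namespace Pool.Agent.H.MP_ee9c6f_al.Asc.R

/-- the letters `i` and `j` are joined in the diagram -/
def adj (i j : Fin 7) : Bool :=
  (Nat.beq (Nat.succ i.val) j.val && Nat.blt 0 i.val) ||
    (Nat.beq (Nat.succ j.val) i.val && Nat.blt 0 j.val) ||
      (Nat.beq i.val 0 && Nat.beq j.val 4) || (Nat.beq j.val 0 && Nat.beq i.val 4)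

/-- the complement of two letters: `s⁻¹ t = a b⁻¹` -/
def c1 (s t : Fin 7) : List (Fin 7) × List (Fin 7) :=
  bif Nat.beq s.val t.val then ([], []) else
    bif adj s t then ([t, s], [s, t]) else ([t], [s])

/-- complements of words, with fuel: `u⁻¹ v = p q⁻¹` -/
def cw : ℕ → List (Fin 7) → List (Fin 7) → Option (List (Fin 7) × List (Fin 7))
  | 0, _, _ => none
  | _ + 1, [], v => some (v, [])
  | _ + 1, s :: u, [] => some ([], s :: u)
  | n + 1, s :: u, t :: v =>
    match cw n u (c1 s t).1 with
    | none => none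
    | some (p1, u1) =>
      match cw n (c1 s t).2 v with
      | none => none
      | some (v1, q1) =>
        match cw n u1 v1 with
        | none => none
        | some (v2, u2) => some (p1 ++ v2, q1 ++ u2)

/-- reversing of a word with signs: `P N⁻¹` -/
def rvw (n : ℕ) : List (Fin 7) → List (Fin 7) → List (Fin 7 × Bool) →
    Option (List (Fin 7) × List (Fin 7))
  | P, N, [] => some (P, N)
  | P, N, (t, true) :: w =>
    match cw n N [t] with
    | none => none
    | some (x, y) => rvw n (P ++ x) y w
  | P, N, (t, false) :: w => rvw n P (t :: N) w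

/-- the word is trivial in the Artin group -/
def chkA (n : ℕ) (w : List (Fin 7 × Bool)) : Bool :=
  match rvw n [] [] w with
  | none => false
  | some (P, N) =>
    match cw n P N with
    | some ([], []) => true
    | _ => false

section

variable {G : Type*} [Group G]

/-- the relations of the Artin group -/
structure Artin (a : Fin 7 → G) : Prop where
  br : ∀ i j, adj i j = true → a i * a j * a i = a j * a i * a j
  cm : ∀ i j, adj i j = false → a i * a j = a j * a i

/-- value of a positive word -/
def pv (a : Fin 7 → G) : List (Fin 7) → G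
  | [] => 1
  | i :: w => a i * pv a w

theorem pv_append (a : Fin 7 → G) (u v : List (Fin 7)) : pv a (u ++ v) = pv a u * pv a v := by
  induction u with
  | nil => rw [List.nil_append, pv, one_mul]
  | cons i u ih => rw [List.cons_append, pv, pv, ih, mul_assoc]

/-- value of a word with signs -/
def wv (a : Fin 7 → G) : List (Fin 7 × Bool) → G
  | [] => 1
  | (i, true) :: w => a i * wv a w
  | (i, false) :: w => (a i)⁻¹ * wv a w

theorem wv_append (a : Fin 7 → G) (u v : List (Fin 7 × Bool)) :
    wv a (u ++ v) = wv a u * wv a v := by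
  induction u with
  | nil => rw [List.nil_append, wv, one_mul]
  | cons i u ih =>
    obtain ⟨i, _ | _⟩ := i
    · rw [List.cons_append, wv, wv, ih, mul_assoc]
    · rw [List.cons_append, wv, wv, ih, mul_assoc]

/-- the inverse word -/
def ivw : List (Fin 7 × Bool) → List (Fin 7 × Bool)
  | [] => []
  | (i, b) :: w => ivw w ++ [(i, !b)]

theorem wv_ivw (a : Fin 7 → G) (u : List (Fin 7 × Bool)) : wv a (ivw u) = (wv a u)⁻¹ := by
  induction u with
  | nil => rw [ivw, wv, inv_one]
  | cons i u ih =>
    obtain ⟨i, _ | _⟩ := i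
    · rw [ivw, wv_append, ih, wv, mul_inv_rev, inv_inv]
      congr 1
      show a i * 1 = a i
      rw [mul_one]
    · rw [ivw, wv_append, ih, wv, mul_inv_rev]
      congr 1
      show (a i)⁻¹ * 1 = (a i)⁻¹
      rw [mul_one]

variable {a : Fin 7 → G}

theorem c1_sound (h : Artin a) (s t : Fin 7) :
    (a s)⁻¹ * a t = pv a (c1 s t).1 * (pv a (c1 s t).2)⁻¹ := by
  unfold c1
  rcases hb : Nat.beq s.val t.val with _ | _
  · rw [cond_false]
    rcases ha : adj s t with _ | _
    · rw [cond_false]
      simp only [pv, mul_one]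
      rw [inv_mul_eq_iff_eq_mul, ← mul_assoc, eq_mul_inv_iff_mul_eq]
      exact (h.cm s t ha).symm
    · rw [cond_true]
      simp only [pv, mul_one]
      rw [inv_mul_eq_iff_eq_mul, ← mul_assoc, eq_mul_inv_iff_mul_eq, ← mul_assoc, ← mul_assoc]
      exact (h.br s t ha).symm
  · have : s = t := Fin.ext (Nat.eq_of_beq_eq_true hb)
    subst this
    simp [pv]

theorem cw_sound (h : Artin a) : ∀ (n : ℕ) (u v p q : List (Fin 7)), cw n u v = some (p, q) →
    (pv a u)⁻¹ * pv a v = pv a p * (pv a q)⁻¹ := by
  intro n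
  induction n with
  | zero => intro u v p q hh; exact absurd hh (by simp [cw])
  | succ n ih =>
    intro u v p q hh
    rcases u with _ | ⟨s, u⟩
    · rw [cw] at hh
      obtain ⟨rfl, rfl⟩ := Prod.mk.inj (Option.some.inj hh)
      simp [pv]
    · rcases v with _ | ⟨t, v⟩
      · rw [cw] at hh
        obtain ⟨rfl, rfl⟩ := Prod.mk.inj (Option.some.inj hh)
        simp [pv]
      · rw [cw] at hh
        rcases h1 : cw n u (c1 s t).1 with _ | ⟨p1, u1⟩
        · rw [h1] at hh; cases hh
        rw [h1] at hh
        simp only at hh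
        rcases h2 : cw n (c1 s t).2 v with _ | ⟨v1, q1⟩
        · rw [h2] at hh; cases hh
        rw [h2] at hh
        simp only at hh
        rcases h3 : cw n u1 v1 with _ | ⟨v2, u2⟩
        · rw [h3] at hh; cases hh
        rw [h3] at hh
        simp only at hh
        obtain ⟨rfl, rfl⟩ := Prod.mk.inj (Option.some.inj hh)
        have e1 := ih _ _ _ _ h1
        have e2 := ih _ _ _ _ h2
        have e3 := ih _ _ _ _ h3
        have e0 := c1_sound h s t
        rw [pv_append, pv_append]
        simp only [pv]
        calc (a s * pv a u)⁻¹ * (a t * pv a v)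
            = (pv a u)⁻¹ * ((a s)⁻¹ * a t) * pv a v := by group
          _ = ((pv a u)⁻¹ * pv a (c1 s t).1) * ((pv a (c1 s t).2)⁻¹ * pv a v) := by
            rw [e0]; group
          _ = (pv a p1 * (pv a u1)⁻¹) * (pv a v1 * (pv a q1)⁻¹) := by rw [e1, e2]
          _ = pv a p1 * ((pv a u1)⁻¹ * pv a v1) * (pv a q1)⁻¹ := by group
          _ = pv a p1 * (pv a v2 * (pv a u2)⁻¹) * (pv a q1)⁻¹ := by rw [e3]
          _ = _ := by group

theorem rvw_sound (h : Artin a) (n : ℕ) : ∀ (w : List (Fin 7 × Bool)) (P N P' N' : List (Fin 7)),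
    rvw n P N w = some (P', N') → pv a P * (pv a N)⁻¹ * wv a w = pv a P' * (pv a N')⁻¹ := by
  intro w
  induction w with
  | nil =>
    intro P N P' N' hh
    rw [rvw] at hh
    obtain ⟨rfl, rfl⟩ := Prod.mk.inj (Option.some.inj hh)
    simp [wv]
  | cons i w ih =>
    intro P N P' N' hh
    obtain ⟨t, _ | _⟩ := i
    · rw [rvw] at hh
      have := ih _ _ _ _ hh
      rw [← this]
      simp only [wv, pv]
      group
    · rw [rvw] at hh
      rcases h1 : cw n N [t] with _ | ⟨x, y⟩
      · rw [h1] at hh; cases hh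
      rw [h1] at hh
      simp only at hh
      have e := ih _ _ _ _ hh
      have e1 := cw_sound h n _ _ _ _ h1
      rw [← e, pv_append]
      simp only [wv]
      have e2 : (pv a N)⁻¹ * a t = pv a x * (pv a y)⁻¹ := by
        rw [← e1]
        simp [pv]
      calc pv a P * (pv a N)⁻¹ * (a t * wv a w) = pv a P * ((pv a N)⁻¹ * a t) * wv a w := by group
        _ = pv a P * (pv a x * (pv a y)⁻¹) * wv a w := by rw [e2]
        _ = _ := by group

/-- soundness of the check -/
theorem chkA_sound (h : Artin a) {n : ℕ} {w : List (Fin 7 × Bool)} (hw : chkA n w = true) :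
    wv a w = 1 := by
  unfold chkA at hw
  rcases h1 : rvw n [] [] w with _ | ⟨P, N⟩
  · rw [h1] at hw; cases hw
  rw [h1] at hw
  simp only at hw
  have e1 := rvw_sound h n w _ _ _ _ h1
  rcases h2 : cw n P N with _ | ⟨x, y⟩
  · rw [h2] at hw; cases hw
  rw [h2] at hw
  rcases x with _ | ⟨x1, x⟩
  · rcases y with _ | ⟨y1, y⟩
    · have e2 := cw_sound h n _ _ _ _ h2
      simp only [pv, inv_one, mul_one, one_mul] at e1 e2
      rw [e1, ← inv_mul_eq_one, mul_inv_rev, inv_inv]
      have e3 : pv a N = pv a P := by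
        rw [← mul_one (pv a P), ← e2, mul_inv_cancel_left]
      rw [e3, mul_inv_cancel, mul_one]
    · cases hw
  · cases hw

/-- equality of two words -/
theorem eqA (h : Artin a) (n : ℕ) {w w' : List (Fin 7 × Bool)}
    (hw : chkA n (w ++ ivw w') = true) : wv a w = wv a w' := by
  have := chkA_sound h hw
  rw [wv_append, wv_ivw, mul_inv_eq_one] at this
  exact this

end

end Pool.Agent.H.MP_ee9c6f_al.Asc.R
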