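import Pool.Agent.H.MP_ee9c6f_al.Asc.Appl
import Pool.Agent.H.MP_ee9c6f_al.E3Rep.Blk

/-!
MP_ee9c6f_al / Asc (helper38). The action on the sections of a bundle: permutations of `Q × K^J`
which are affine on the fibres act by affine maps on the space of all maps `Q → K^J`.
-/

set_option autoImplicit false

namespace Pool.Agent.H.MP_ee9c6f_al.Asc

open E3Rep Matrix

section

variable {K : Type} [Field K] [CharZero K] {J : Type} [Fintype J] [DecidableEq J] {Q : Type}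
  {G : Type} [Group G] {ρ : G →* Equiv.Perm (Q × (J → K))} {N : Subgroup (GL J K)}

/-- the fibre of the image -/
def fib (ρ : G →* Equiv.Perm (Q × (J → K))) (g : G) (q : Q) : Q := (ρ g (q, 0)).1

/-- the action on sections -/
def secF (ρ : G →* Equiv.Perm (Q × (J → K))) (g : G) (p : Q → J → K) : Q → J → K :=
  fun q => (ρ g (fib ρ g⁻¹ q, p (fib ρ g⁻¹ q))).2

omit [CharZero K] in
theorem fib_eq (h : ∀ g, IsBlk N (ρ g)) (g : G) (q : Q) (v : J → K) :
    (ρ g (q, v)).1 = fib ρ g q := by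
  obtain ⟨σ, hσ⟩ := h g
  obtain ⟨A, -, t, ht⟩ := hσ q
  unfold fib
  rw [ht, ht]

omit [CharZero K] in
theorem apply_eq (h : ∀ g, IsBlk N (ρ g)) (g : G) (q : Q) (v : J → K) :
    ρ g (q, v) = (fib ρ g q, (ρ g (q, v)).2) := Prod.ext (fib_eq h g q v) rfl

omit [CharZero K] in
theorem fib_one (q : Q) : fib ρ 1 q = q := by
  unfold fib
  rw [map_one]
  rfl

omit [CharZero K] in
theorem fib_mul (h : ∀ g, IsBlk N (ρ g)) (g g' : G) (q : Q) :
    fib ρ (g * g') q = fib ρ g (fib ρ g' q) := by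
  conv_lhs => rw [fib, map_mul, Equiv.Perm.mul_apply, apply_eq h g' q 0]
  exact fib_eq h _ _ _

/-- the action on sections, as a monoid homomorphism -/
def secE (h : ∀ g, IsBlk N (ρ g)) : G →* Function.End (Q → J → K) where
  toFun := secF ρ
  map_one' := by
    funext p q
    change (ρ 1 (fib ρ 1⁻¹ q, p (fib ρ 1⁻¹ q))).2 = p q
    rw [map_one, inv_one, fib_one]
    rfl
  map_mul' g g' := by
    funext p q
    change (ρ (g * g') (fib ρ (g * g')⁻¹ q, p (fib ρ (g * g')⁻¹ q))).2 =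
      (ρ g (fib ρ g⁻¹ q, (ρ g' (fib ρ g'⁻¹ (fib ρ g⁻¹ q), p (fib ρ g'⁻¹ (fib ρ g⁻¹ q)))).2)).2
    rw [_root_.mul_inv_rev, fib_mul h, map_mul, Equiv.Perm.mul_apply, apply_eq h g']
    have e : fib ρ g' (fib ρ g'⁻¹ (fib ρ g⁻¹ q)) = fib ρ g⁻¹ q := by
      rw [← fib_mul h, mul_inv_cancel, fib_one]
    rw [e]

/-- the action on sections -/
def secA (h : ∀ g, IsBlk N (ρ g)) : G →* Equiv.Perm (Q → J → K) := (secE h).toHomPerm

omit [CharZero K] in
theorem secA_apply (h : ∀ g, IsBlk N (ρ g)) (g : G) (p : Q → J → K) (q : Q) :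
    secA h g p q = (ρ g (fib ρ g⁻¹ q, p (fib ρ g⁻¹ q))).2 := rfl

omit [CharZero K] in
/-- the value of the image of a section over the image of a point -/
theorem secA_fib (h : ∀ g, IsBlk N (ρ g)) (g : G) (p : Q → J → K) (q : Q) :
    secA h g p (fib ρ g q) = (ρ g (q, p q)).2 := by
  rw [secA_apply]
  have e : fib ρ g⁻¹ (fib ρ g q) = q := by rw [← fib_mul h, inv_mul_cancel, fib_one]
  rw [e]

/-- the linear map given by a map of the base and matrices -/
def linOf (x : (Q → Q) × (Q → GL J K)) : (Q → J → K) →ₗ[ℚ] (Q → J → K) :=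
  LinearMap.pi fun q => ((Matrix.mulVecLin (x.2 (x.1 q) : Matrix J J K)).restrictScalars ℚ) ∘ₗ
    LinearMap.proj (x.1 q)

theorem linOf_apply (x : (Q → Q) × (Q → GL J K)) (v : Q → J → K) (q : Q) :
    linOf x v q = (x.2 (x.1 q) : Matrix J J K) *ᵥ v (x.1 q) := rfl

theorem exists_lin (h : ∀ g, IsBlk N (ρ g)) [Finite Q] [Finite N] :
    ∃ lin : G → (Q → J → K) →ₗ[ℚ] (Q → J → K), IsAff (secA h) lin ∧ (Set.range lin).Finite := by
  have h' : ∀ g q, ∃ A ∈ N, ∃ t : J → K, ∀ v : J → K,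
      ρ g (q, v) = (fib ρ g q, (A : Matrix J J K) *ᵥ v + t) := by
    intro g q
    obtain ⟨σ, hσ⟩ := h g
    obtain ⟨A, hA, t, ht⟩ := hσ q
    refine ⟨A, hA, t, fun v => ?_⟩
    rw [apply_eq h g q v]
    have := ht v
    rw [this]
  choose A hA t ht using h'
  refine ⟨fun g => linOf (fib ρ g⁻¹, fun q => A g q), ?_, ?_⟩
  · intro g v w
    funext q
    rw [Pi.add_apply, linOf_apply, secA_apply, secA_apply, ht, ht]
    simp only [Pi.add_apply, Matrix.mulVec_add]
    rw [add_assoc]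
  · have : Finite ((Q → Q) × (Q → N)) := inferInstance
    refine (Set.finite_range fun x : (Q → Q) × (Q → N) =>
      linOf (K := K) (x.1, fun q => (x.2 q).1)).subset ?_
    rintro _ ⟨g, rfl⟩
    exact ⟨(fib ρ g⁻¹, fun q => ⟨A g q, hA g q⟩), rfl⟩

end

end Pool.Agent.H.MP_ee9c6f_al.Asc
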